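import Pool.Agent.Lib.MP_4af24b_nt.Lat

set_option linter.unusedSimpArgs false
set_option linter.unusedSectionVars false

namespace Pool.Agent.Lib.MP_4af24b_nt

open PowerSeries

structure Bs {O k : Type*} [CommRing O] [Field k] (p N : ℕ) (π : O →+* k) : Prop where
  hp : p.Prime
  hN : p = 2 * N + 1
  ker : ∀ x, π x = 0 ↔ (p : O) ∣ x
  unit : ∀ x, π x ≠ 0 → IsUnit x
  wf : WfDvdMonoid O

variable {O k : Type*} [CommRing O] [IsDomain O] [CharZero O] [Field k] {p N : ℕ} {π : O →+* k}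

theorem Bs.p0 (B : Bs p N π) : (p : O) ≠ 0 := Nat.cast_ne_zero.2 B.hp.ne_zero

theorem Bs.pk (B : Bs p N π) : (p : k) = 0 := by
  rw [← map_natCast π]; exact (B.ker _).2 dvd_rfl

theorem Bs.char (B : Bs p N π) : CharP k p := (CharP.charP_iff_prime_eq_zero B.hp).2 B.pk

theorem Bs.natk (B : Bs p N π) {j : ℕ} (h : ¬p ∣ j) : (j : k) ≠ 0 := by
  have := B.char
  rwa [Ne, CharP.cast_eq_zero_iff k p]

theorem Bs.intk (B : Bs p N π) {j : ℤ} (h : ¬(p : ℤ) ∣ j) : (j : k) ≠ 0 := by
  have := B.char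
  rwa [Ne, CharP.intCast_eq_zero_iff k p]

theorem Bs.natk' (B : Bs p N π) {j : ℕ} (h0 : 0 < j) (h : j < p) : (j : k) ≠ 0 :=
  B.natk fun hd => absurd (Nat.le_of_dvd h0 hd) (by omega)

theorem Bs.N_pos (B : Bs p N π) : 0 < N := by
  have := B.hp.two_le; have := B.hN; omega

theorem Bs.two (B : Bs p N π) : (2 : k) ≠ 0 := by
  have := B.N_pos; have := B.hN
  exact_mod_cast B.natk' (j := 2) (by omega) (by omega)

theorem Bs.nat_unit (B : Bs p N π) {j : ℕ} (h : ¬p ∣ j) : IsUnit (j : O) :=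
  B.unit _ (by rw [map_natCast]; exact B.natk h)

theorem Bs.dvd_of_mul (B : Bs p N π) {a b : O} (ha : π a ≠ 0) {q : O} (h : q ∣ a * b) : q ∣ b :=
  (B.unit a ha).dvd_mul_left.1 h

theorem Bs.map_eq_zero (B : Bs p N π) (P : Polynomial O) :
    P.map π = 0 ↔ Polynomial.C (p : O) ∣ P := by
  rw [Polynomial.C_dvd_iff_dvd_coeff, Polynomial.ext_iff]
  simp [B.ker]

theorem Bs.prim (B : Bs p N π) {f : O⟦X⟧} {a : ℕ} (h : HD f a) :
    ∃ n d : Polynomial O, d.map π ≠ 0 ∧ (d : O⟦X⟧) * f = n ∧ n.natDegree ≤ a ∧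
      d.natDegree ≤ a := by
  obtain ⟨n, d, h0, e, h1, h2⟩ := h
  have := B.wf
  have hd : d ≠ 0 := by rintro rfl; simp at h0
  have hu : ¬IsUnit (Polynomial.C (p : O)) := by
    rw [Polynomial.isUnit_C]
    intro h
    exact (h.map π).ne_zero (by rw [map_natCast, B.pk])
  obtain ⟨m, d1, hd1, rfl⟩ := WfDvdMonoid.max_power_factor' hd hu
  rw [← map_pow] at e h2
  have hpm : (p : O) ^ m ≠ 0 := pow_ne_zero _ B.p0
  have : Polynomial.C ((p : O) ^ m) ∣ n := by
    rw [Polynomial.C_dvd_iff_dvd_coeff]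
    intro i
    rw [← Polynomial.coeff_coe, ← e, Polynomial.coe_mul, Polynomial.coe_C, mul_assoc, coeff_C_mul]
    exact dvd_mul_right _ _
  obtain ⟨n1, rfl⟩ := this
  rw [Polynomial.natDegree_C_mul hpm] at h1 h2
  refine ⟨n1, d1, by rwa [Ne, B.map_eq_zero], ?_, h1, h2⟩
  have hC : (C ((p : O) ^ m) : O⟦X⟧) ≠ 0 := fun h => hpm (by simpa using congrArg constantCoeff h)
  apply mul_left_cancel₀ hC
  rw [Polynomial.coe_mul, Polynomial.coe_mul, Polynomial.coe_C, mul_assoc] at e
  exact e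

theorem Bs.red (B : Bs p N π) (f : O⟦X⟧) (a : ℕ) (h : HD f a) : HD (map π f) a := by
  obtain ⟨n, d, h0, e, h1, h2⟩ := B.prim h
  refine HD_of_ne (n := n.map π) h0 ?_ (Polynomial.natDegree_map_le.trans h1)
    (Polynomial.natDegree_map_le.trans h2)
  rw [Polynomial.polynomial_map_coe, Polynomial.polynomial_map_coe, ← map_mul, e]

theorem HD.toK (f : O⟦X⟧) (a : ℕ) (h : HD f a) :
    HD (map (algebraMap O (FractionRing O)) f) a := by
  obtain ⟨n, d, h0, e, h1, h2⟩ := h
  refine ⟨n.map (algebraMap O _), d.map (algebraMap O _), ?_, ?_,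
    Polynomial.natDegree_map_le.trans h1, Polynomial.natDegree_map_le.trans h2⟩
  · simpa using h0
  · rw [Polynomial.polynomial_map_coe, Polynomial.polynomial_map_coe, ← map_mul, e]

theorem HD.ofK (f : O⟦X⟧) (a : ℕ) (h : HD (map (algebraMap O (FractionRing O)) f) a) :
    HD f a := by
  obtain ⟨n, d, h0, e, h1, h2⟩ := h
  obtain ⟨b1, hb1, e1⟩ := IsLocalization.integerNormalization_spec (nonZeroDivisors O) n
  obtain ⟨b2, hb2, e2⟩ := IsLocalization.integerNormalization_spec (nonZeroDivisors O) d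
  generalize IsLocalization.integerNormalization (nonZeroDivisors O) n = n0 at *
  generalize IsLocalization.integerNormalization (nonZeroDivisors O) d = d0 at *
  have inj := IsFractionRing.injective O (FractionRing O)
  have hb1' := nonZeroDivisors.ne_zero hb1
  have hb2' := nonZeroDivisors.ne_zero hb2
  rw [← algebraMap_smul (FractionRing O), Polynomial.smul_eq_C_mul] at e1 e2
  refine ⟨Polynomial.C b2 * n0, Polynomial.C b1 * d0, ?_, ?_, ?_, ?_⟩
  · rw [Polynomial.coeff_C_mul]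
    refine mul_ne_zero hb1' fun h => ?_
    have := congrArg (fun P => Polynomial.coeff P 0) e2
    simp [h, hb2', h0] at this
  · apply map_injective _ inj
    rw [map_mul, ← Polynomial.polynomial_map_coe, ← Polynomial.polynomial_map_coe,
      Polynomial.map_mul, Polynomial.map_mul, e1, e2]
    simp only [Polynomial.map_C, Polynomial.coe_mul, ← e]; ring
  · refine (Polynomial.natDegree_C_mul_le _ _).trans ?_
    rw [← Polynomial.natDegree_map_eq_of_injective inj, e1]
    exact (Polynomial.natDegree_C_mul_le _ _).trans h1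
  · refine (Polynomial.natDegree_C_mul_le _ _).trans ?_
    rw [← Polynomial.natDegree_map_eq_of_injective inj, e2]
    exact (Polynomial.natDegree_C_mul_le _ _).trans h2

omit [CharZero O] in
theorem Iso.coeff_one {l l' α : O} {f r : O⟦X⟧} (h : Iso l l' α f r) : coeff 1 f = α ^ 2 := by
  have := congrArg (coeff 0) h.df
  rw [coeff_derivative] at this
  simpa [h.r0, pow_two] using this

theorem Bs.lattice (B : Bs p N π) {l l' α1 α2 δ : O} {f1 r1 f2 r2 fd rd : O⟦X⟧} {m1 m2 : ℕ}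
    (hm1 : 0 < m1) (hm2 : 0 < m2) (h1 : Iso l l' α1 f1 r1) (d1 : HD f1 m1) (u1 : π α1 ≠ 0)
    (h2 : Iso l l' α2 f2 r2) (hd : Iso l l δ fd rd)
    (dd : HD fd (m1 * m2)) (e1 : δ * α1 = m1 * α2) (e2 : δ * α2 = -(m2 * α1))
    (l0 : π l' ≠ 0) (l1 : π l' ≠ 1) (x y : ℤ) (hxy : (p : ℤ) = m1 * x ^ 2 + m2 * y ^ 2) :
    ∃ f r, Iso l l' (x * α1 + y * α2) f r ∧ HD f p ∧ map π f ≠ 0 := by
  obtain ⟨f, r, h⟩ := h1.ex_lat h2 x y
  refine ⟨f, r, h, ?_, ?_⟩
  · have inj := IsFractionRing.injective O (FractionRing O)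
    have := lattice_deg hm1 hm2 h1 h2 hd dd e1 e2 (algebraMap O (FractionRing O))
      (by
        rw [← map_ofNat (algebraMap O (FractionRing O)) 2]
        exact (map_ne_zero_iff _ inj).2 two_ne_zero)
      ((map_ne_zero_iff _ inj).2 fun h => l0 (by simp [h]))
      (fun h => l1 (by rw [inj (h.trans (map_one _).symm), map_one])) HD.toK x y h
    rw [← hxy] at this
    have h3 : ht (map (algebraMap O (FractionRing O)) f1) ≤ m1 := (d1.toK).ht_le
    obtain ⟨a, ha⟩ := h.rf
    refine HD.ofK _ _ (ha.toK.ht.mono ?_)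
    have h4 : m1 * ht (map (algebraMap O (FractionRing O)) f) ≤ m1 * p := by
      have : m1 * ht (map (algebraMap O (FractionRing O)) f)
        = ht (map (algebraMap O (FractionRing O)) f1) * p := by exact_mod_cast this
      rw [this]; exact Nat.mul_le_mul_right _ h3
    exact Nat.le_of_mul_le_mul_left h4 hm1
  · have := lattice_deg hm1 hm2 h1 h2 hd dd e1 e2 π B.two l0 l1 B.red x y h
    intro h0
    rw [← hxy, h0, ht_zero] at this
    have h3 : ht (map π f1) = 0 := by
      have h5 : ht (map π f1) * p = 0 := by exact_mod_cast this.symm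
      exact (mul_eq_zero.1 h5).resolve_right B.hp.ne_zero
    have h4 := eq_zero_of_ht (B.red _ _ d1) (by simp [cmap, h1.f0]) h3
    have h5 := congrArg (coeff 1) h4
    rw [coeff_map, h1.coeff_one] at h5
    exact u1 (by simpa using h5)

end Pool.Agent.Lib.MP_4af24b_nt
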