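import Pool.Agent.Lib.MP_4af24b_nt.Key

set_option linter.unusedSimpArgs false
set_option linter.unusedSectionVars false

namespace Pool.Agent.Lib.MP_4af24b_nt

open PowerSeries

theorem aeval_gg {A : Type*} [CommRing A] (l : A) (f : A⟦X⟧) :
    Polynomial.aeval f (Polynomial.X * Qp l) = gg (C l) f := by
  simp [Qp, gg]

theorem coe_gg {A : Type*} [CommRing A] (l : A) :
    ((Polynomial.X * Qp l : Polynomial A) : A⟦X⟧) = gg (C l) X := by
  simp [Qp, gg]

theorem coeff_XQ {A : Type*} [CommRing A] (l : A) (N i : ℕ) :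
    ((Polynomial.X * Qp l) ^ N).coeff (i + N) = (Qp l ^ N).coeff i := by
  rw [mul_pow, Polynomial.coeff_X_pow_mul]

theorem map_deriv {A B : Type*} [CommRing A] [CommRing B] (ρ : A →+* B) (f : A⟦X⟧) :
    d⁄dX B (map ρ f) = map ρ (d⁄dX A f) := by
  ext n; simp [coeff_derivative]

variable {O k : Type*} [CommRing O] [IsDomain O] [CharZero O] [Field k] {p N : ℕ} {π : O →+* k}

theorem Bs.cart_poly (B : Bs p N π) (f : k⟦X⟧) (f0 : constantCoeff f = 0) (G : Polynomial k) :
    coeff (2 * N) (Polynomial.aeval f G * d⁄dX k f) = G.coeff (2 * N) * coeff 1 f ^ p := by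
  have hN := B.hN
  induction G using Polynomial.induction_on' with
  | add P Q hP hQ => simp only [map_add, add_mul, hP, hQ, Polynomial.coeff_add]
  | monomial m a =>
    rw [Polynomial.aeval_monomial, ← C_eq_algebraMap, mul_assoc, coeff_C_mul,
      Polynomial.coeff_monomial]
    obtain ⟨f1, rfl⟩ := X_dvd_iff.2 f0
    rcases lt_trichotomy m (2 * N) with h | h | h
    · rw [if_neg h.ne, zero_mul]
      have e := congrArg (coeff (2 * N)) (derivative_pow (X * f1) (m + 1))
      rw [coeff_derivative, mul_assoc, ← map_natCast C, coeff_C_mul, Nat.add_sub_cancel,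
        show ((2 * N : ℕ) : k) + 1 = p by rw [hN]; simp, B.pk, mul_zero] at e
      rw [(mul_eq_zero.1 e.symm).resolve_left (B.natk' (by omega) (by omega)), mul_zero]
    · subst h
      rw [if_pos rfl, mul_pow, mul_assoc, coeff_X_pow_mul', if_pos le_rfl, Nat.sub_self,
        coeff_zero_eq_constantCoeff_apply, hN, map_mul, map_pow,
        ← coeff_zero_eq_constantCoeff_apply (d⁄dX k _), coeff_derivative]
      simp [pow_succ]
    · rw [if_neg h.ne', zero_mul, mul_pow, mul_assoc, coeff_X_pow_mul', if_neg (by omega),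
        mul_zero]

theorem Bs.cartier (B : Bs p N π) {l l' β : O} {f r : O⟦X⟧} (h : Iso l l' β f r)
    (hβ : π β ≠ 0) : π ((Qp l ^ N).coeff N) = π β ^ (2 * N) * π ((Qp l' ^ N).coeff N) := by
  have hN := B.hN
  have := B.char
  have : Fact p.Prime := ⟨B.hp⟩
  have : CharP k⟦X⟧ p := charP_of_injective_algebraMap (algebraMap k k⟦X⟧).injective p
  have e : gg (C l') f ^ N * d⁄dX O f = C β * (r ^ p * gg (C l) X ^ N) := by
    rw [← h.sq, h.df, hN]; ring
  have e1 := congrArg (fun u => coeff (2 * N) (map π u)) e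
  simp only [map_mul, map_pow, map_gg, map_C, map_X, ← map_deriv] at e1
  rw [← aeval_gg, ← map_pow, B.cart_poly _ (by simp [cmap, h.f0]), coeff_C_mul] at e1
  obtain ⟨r1, hr⟩ : X ∣ map π r - C (π β) := X_dvd_iff.2 (by simp [cmap, h.r0])
  rw [show map π r = C (π β) + X * r1 by rw [← hr]; ring, add_pow_char, add_mul, map_add,
    mul_pow X r1, mul_assoc, coeff_X_pow_mul', if_neg (by omega), add_zero, ← map_pow C,
    coeff_C_mul, ← coe_gg, ← Polynomial.coe_pow, Polynomial.coeff_coe, two_mul, coeff_XQ,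
    coeff_XQ, coeff_map, h.coeff_one] at e1
  rw [← Polynomial.coeff_map, ← Polynomial.coeff_map, Polynomial.map_pow, Polynomial.map_pow,
    map_Qp, map_Qp]
  apply mul_left_cancel₀ (pow_ne_zero (p + 1) hβ)
  rw [map_pow] at e1
  rw [hN] at e1 ⊢
  linear_combination -e1

end Pool.Agent.Lib.MP_4af24b_nt
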