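import Pool.Agent.Lib.MP_4af24b_nt.Frob2

set_option linter.unusedSimpArgs false
set_option linter.unusedSectionVars false

namespace Pool.Agent.Lib.MP_4af24b_nt

open Polynomial

def oddL {A : Type*} [CommRing A] (l m b0 b1 b2 b3 d1 d2 d3 a1 a2 a3 c1 c2 c3 : A) : List A :=
  [-(b0 * b0) + 2 * d1 - 2 * a1 + 1,
   -(2 * b0 * b1) + d1 * d1 + 2 * d2 - a1 * a1 + 2 * a1 - 2 * a2,
   -(2 * b0 * b2) - b1 * b1 + 2 * d1 * d2 + 2 * d3 + a1 * a1 - 2 * a1 * a2 + 2 * a2 - 2 * a3,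
   -(2 * b0 * b3) - 2 * b1 * b2 + 2 * d1 * d3 + d2 * d2 + 2 * a1 * a2 - 2 * a1 * a3 - a2 * a2 + 2 * a3,
   -(2 * b1 * b3) - b2 * b2 + 2 * d2 * d3 + 2 * a1 * a3 + a2 * a2 - 2 * a2 * a3,
   -(2 * b2 * b3) + d3 * d3 + 2 * a2 * a3 - a3 * a3,
   -(b3 * b3) + a3 * a3,
   l - m * b0 * b0 + 2 * d1 - 2 * c1,
   2 * l * c1 - 2 * m * b0 * b1 + d1 * d1 + 2 * d2 - c1 * c1 - 2 * c2,
   l * c1 * c1 + 2 * l * c2 - 2 * m * b0 * b2 - m * b1 * b1 + 2 * d1 * d2 + 2 * d3 - 2 * c1 * c2 - 2 * c3,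
   2 * l * c1 * c2 + 2 * l * c3 - 2 * m * b0 * b3 - 2 * m * b1 * b2 + 2 * d1 * d3 + d2 * d2 - 2 * c1 * c3 - c2 * c2,
   2 * l * c1 * c3 + l * c2 * c2 - 2 * m * b1 * b3 - m * b2 * b2 + 2 * d2 * d3 - 2 * c2 * c3,
   2 * l * c2 * c3 - 2 * m * b2 * b3 + d3 * d3 - c3 * c3,
   l * c3 * c3 - m * b3 * b3,
   -(b0 * d1) - b0 * a1 - b0 * c1 + 3 * b1,
   -(3 * b0 * d2) - b0 * a1 * c1 - b0 * a2 - b0 * c2 + b1 * d1 + 5 * b2,
   -(5 * b0 * d3) - b0 * a1 * c2 - b0 * a2 * c1 - b0 * a3 - b0 * c3 - b1 * d2 + 3 * b2 * d1 + 7 * b3,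
   -(b0 * a1 * c3) - b0 * a2 * c2 - b0 * a3 * c1 - 3 * b1 * d3 + b2 * d2 + 5 * b3 * d1,
   -(b0 * a2 * c3) - b0 * a3 * c2 - b2 * d3 + 3 * b3 * d2,
   -(b0 * a3 * c3) + b3 * d3]

theorem map_oddL {A B : Type*} [CommRing A] [CommRing B] (φ : A →+* B)
    (l m b0 b1 b2 b3 d1 d2 d3 a1 a2 a3 c1 c2 c3 : A) :
    (oddL l m b0 b1 b2 b3 d1 d2 d3 a1 a2 a3 c1 c2 c3).map φ = oddL (φ l) (φ m) (φ b0) (φ b1)
      (φ b2) (φ b3) (φ d1) (φ d2) (φ d3) (φ a1) (φ a2) (φ a3) (φ c1) (φ c2) (φ c3) := by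
  simp only [oddL, List.map, map_add, map_sub, map_mul, map_neg, map_one, map_ofNat]

def Odd' {A : Type*} [CommRing A] (l m b0 : A) (h : ℕ) : Prop :=
  ∃ b1 b2 b3 d1 d2 d3 a1 a2 a3 c1 c2 c3 : A, 1 ≤ h ∧ (h < 2 → b2 = 0 ∧ d2 = 0) ∧
    (h < 3 → b3 = 0 ∧ d3 = 0) ∧ ∀ x ∈ oddL l m b0 b1 b2 b3 d1 d2 d3 a1 a2 a3 c1 c2 c3, x = 0

theorem Odd'.map {A B : Type*} [CommRing A] [CommRing B] (φ : A →+* B) {l m b0 : A} {h : ℕ}
    (H : Odd' l m b0 h) : Odd' (φ l) (φ m) (φ b0) h := by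
  obtain ⟨b1, b2, b3, d1, d2, d3, a1, a2, a3, c1, c2, c3, h1, h2, h3, h4⟩ := H
  refine ⟨φ b1, φ b2, φ b3, φ d1, φ d2, φ d3, φ a1, φ a2, φ a3, φ c1, φ c2, φ c3, h1,
    fun h => by simp [h2 h], fun h => by simp [h3 h], ?_⟩
  rw [← map_oddL]
  intro x hx
  obtain ⟨y, hy, rfl⟩ := List.mem_map.1 hx
  rw [h4 y hy, map_zero]

variable {O k : Type*} [CommRing O] [IsDomain O] [CharZero O] [Field k] {p N : ℕ} {π : O →+* k}

theorem iso_of_poly {l l' α : O} {a : ℕ} (n d E : O[X]) (d0 : d.coeff 0 = 1) (n0 : n.coeff 0 = 0)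
    (E0 : E.coeff 0 = α) (h1 : C α * E = derivative n * d - n * derivative d)
    (h2 : X * Qp l * E ^ 2 = n * (d * ((d - n) * (d - C l' * n))))
    (hn : n.natDegree ≤ a) (hd : d.natDegree ≤ a) : ∃ f r, Iso l l' α f r ∧ HD f a := by
  have hJ := PowerSeries.invOfUnit_mul (d : PowerSeries O) 1 (by simp [d0])
  have hJ0 : PowerSeries.constantCoeff (PowerSeries.invOfUnit (d : PowerSeries O) 1) = 1 := by simp
  generalize PowerSeries.invOfUnit (d : PowerSeries O) 1 = J at *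
  have rJ : Rt J := (Rt.coe d).inv hJ
  have e1 := congrArg (fun P : O[X] => (P : PowerSeries O)) h1
  have e2 := congrArg (fun P : O[X] => (P : PowerSeries O)) h2
  simp only [coe_mul (X * Qp l), coe_gg] at e2
  generalize hG : gg (PowerSeries.C l) PowerSeries.X = G at e2
  simp only [coe_mul, coe_sub, coe_C, coe_pow, ← PowerSeries.derivative_coe] at e1 e2
  refine ⟨n * J, E * (J * J), ⟨by simp [n0], by simp [E0, hJ0], ?_, ?_, (Rt.coe n).mul rJ,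
    (Rt.coe E).mul (rJ.mul rJ)⟩, n, d, by simp [d0], by linear_combination (n : PowerSeries O) * hJ,
    hn, hd⟩
  · have dJ := congrArg (PowerSeries.derivative O) hJ
    simp only [Derivation.leibniz, Derivation.map_one_eq_zero, smul_eq_mul] at dJ ⊢
    linear_combination -J * J * e1 + n * J * dJ
      - (J * PowerSeries.derivative O n + n * PowerSeries.derivative O J) * hJ
  · rw [hG, gg, show 1 - (n : PowerSeries O) * J = (d - n) * J by linear_combination -hJ,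
      show 1 - PowerSeries.C l' * (n * J) = (d - PowerSeries.C l' * n) * J by
        linear_combination -hJ]
    linear_combination J ^ 4 * e2 + n * J ^ 3 * (d - n) * (d - PowerSeries.C l' * n) * hJ

theorem Odd'.iso {l m b0 : O} {h : ℕ} (H : Odd' l m b0 h) :
    ∃ f r, Iso l m b0 f r ∧ HD f (2 * h + 1) := by
  obtain ⟨b1, b2, b3, d1, d2, d3, a1, a2, a3, c1, c2, c3, g1, g2, g3, g4⟩ := H
  have g5 : ∀ x ∈ (oddL l m b0 b1 b2 b3 d1 d2 d3 a1 a2 a3 c1 c2 c3).map (C : O →+* O[X]),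
      x = 0 := by
    intro x hx
    obtain ⟨y, hy, rfl⟩ := List.mem_map.1 hx
    rw [g4 y hy, map_zero]
  rw [map_oddL] at g5
  simp only [oddL, List.mem_cons, forall_eq_or_imp, List.not_mem_nil, false_imp_iff, implies_true,
    and_true] at g5
  obtain ⟨h1, h2, h3, h4, h5, h6, h7, h8, h9, h10, h11, h12, h13, h14, h15, h16, h17, h18, h19,
    h20⟩ := g5
  set B : O[X] := C b0 + C b1 * X + C b2 * X ^ 2 + C b3 * X ^ 3 with hB
  set D : O[X] := 1 + C d1 * X + C d2 * X ^ 2 + C d3 * X ^ 3 with hD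
  set A : O[X] := 1 + C a1 * X + C a2 * X ^ 2 + C a3 * X ^ 3 with hA
  set E : O[X] := 1 + C c1 * X + C c2 * X ^ 2 + C c3 * X ^ 3 with hE
  have e1 : D * D - X * (B * B) = (1 - X) * (A * A) := by
    rw [hB, hD, hA]
    linear_combination X ^ 1 * h1 + X ^ 2 * h2 + X ^ 3 * h3 + X ^ 4 * h4 + X ^ 5 * h5
      + X ^ 6 * h6 + X ^ 7 * h7
  have e2 : D * D - C m * (X * (B * B)) = (1 - C l * X) * (E * E) := by
    rw [hB, hD, hE]
    linear_combination X ^ 1 * h8 + X ^ 2 * h9 + X ^ 3 * h10 + X ^ 4 * h11 + X ^ 5 * h12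
      + X ^ 6 * h13 + X ^ 7 * h14
  have e3 : (B + 2 * X * derivative B) * D - 2 * X * B * derivative D = C b0 * A * E := by
    rw [hB, hD, hE, hA]
    simp only [derivative_add, derivative_C_mul, derivative_X, derivative_X_pow, derivative_C,
      derivative_one, map_natCast]
    push_cast
    linear_combination X ^ 1 * h15 + X ^ 2 * h16 + X ^ 3 * h17 + X ^ 4 * h18 + X ^ 5 * h19
      + X ^ 6 * h20
  have deg : ∀ u0 u1 u2 u3 : O, (h < 2 → u2 = 0) → (h < 3 → u3 = 0) →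
      (C u0 + C u1 * X + C u2 * X ^ 2 + C u3 * X ^ 3 : O[X]).natDegree ≤ h := by
    intro u0 u1 u2 u3 k2 k3
    rcases lt_trichotomy h 2 with hh | hh | hh
    · rw [k2 hh, k3 (by omega)]
      refine le_trans ?_ g1
      simp only [map_zero, zero_mul, add_zero]; compute_degree
    · rw [k3 (by omega), hh]
      simp only [map_zero, zero_mul, add_zero]; compute_degree
    · refine le_trans ?_ hh
      compute_degree
  have dB : B.natDegree ≤ h := deg _ _ _ _ (fun h => (g2 h).1) (fun h => (g3 h).1)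
  have dD : D.natDegree ≤ h := by
    simpa using deg 1 _ _ _ (fun h => (g2 h).2) (fun h => (g3 h).2)
  have B0 : B.coeff 0 = b0 := by simp [hB]
  have D0 : D.coeff 0 = 1 := by simp [hD]
  have A0 : A.coeff 0 = 1 := by simp [hA]
  have E0 : E.coeff 0 = 1 := by simp [hE]
  clear_value A B D E
  refine iso_of_poly (X * (B * B)) (D * D) (A * B * E * D) (by simp [D0]) (by simp)
    (by simp [A0, B0, D0, E0]) ?_ ?_ ?_ ?_
  · simp only [derivative_mul, derivative_X]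
    linear_combination -B * D * e3
  · rw [e1, e2, Qp]; ring
  · have := natDegree_mul_le (p := B) (q := B)
    have := natDegree_mul_le (p := X) (q := B * B)
    have := natDegree_X_le (R := O)
    omega
  · have := natDegree_mul_le (p := D) (q := D)
    omega

def NI (l μ l' μ' : O) (a : ℕ) (e : O) : Prop :=
  ∃ β f r, Iso l l' β f r ∧ HD f a ∧ β ^ 2 * μ' = e * a * μ

theorem NI.comp {l μ l' μ' l'' μ'' e e' : O} {a a' : ℕ} (h : NI l μ l' μ' a e)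
    (h' : NI l' μ' l'' μ'' a' e') : NI l μ l'' μ'' (a * a') (e * e') := by
  obtain ⟨β, f, r, i, d, m⟩ := h
  obtain ⟨β', f', r', i', d', m'⟩ := h'
  refine ⟨β * β', _, _, i.comp i', mul_comm a a' ▸ d'.comp d i.f0, ?_⟩
  push_cast
  linear_combination β ^ 2 * m' + e' * a' * m

theorem iso_one {x x' : O} (h : x * x' = -1) : ∃ f r, Iso (x ^ 2) (x' ^ 2) x f r ∧ HD f 1 := by
  refine iso_of_poly (C x ^ 2 * X) 1 (C x) (by simp) (by simp) (by simp) ?_ ?_ ?_ (by simp)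
  · rw [← map_pow, derivative_C_mul, derivative_X, derivative_one, map_pow]; ring
  · have := congrArg (C : O →+* O[X]) h
    simp only [Qp, map_pow, map_mul, map_neg, map_one] at this ⊢
    linear_combination C x ^ 2 * X ^ 2 * (1 - C x ^ 2 * X) * (C x * C x' - 1) * this
  · rw [← map_pow]; compute_degree

theorem iso_two {x x' i : O} (hi : i ^ 2 = -1) (h : x' * (1 + x) = 1 - x) :
    ∃ f r, Iso (x ^ 2) (x' ^ 2) (i * (1 + x)) f r ∧ HD f 2 := by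
  have e1 := congrArg (C : O →+* O[X]) h
  have e2 := congrArg (C : O →+* O[X]) hi
  simp only [map_pow, map_mul, map_neg, map_one, map_add, map_sub] at e1 e2
  refine iso_of_poly (C (-(1 + x) ^ 2) * X) (Qp (x ^ 2)) (C (i * (1 + x)) * (1 - C (x ^ 2) * X ^ 2))
    (by simp [Qp]) (by simp) (by simp) ?_ ?_ ?_ ?_
  · simp only [Qp, derivative_mul, derivative_sub, derivative_C, derivative_X, derivative_one]
    simp only [map_pow, map_mul, map_neg, map_one, map_add, map_sub]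
    linear_combination (1 + C x) ^ 2 * (1 - C x ^ 2 * X ^ 2) * e2
  · simp only [Qp, map_pow, map_mul, map_neg, map_one, map_add, map_sub]
    linear_combination X * ((1 - X) * (1 - C x ^ 2 * X)) * (1 + C x) ^ 2
      * (1 - C x ^ 2 * X ^ 2) ^ 2 * e2 + X ^ 2 * ((1 - X) * (1 - C x ^ 2 * X)) * (1 + C x) ^ 2
      * (1 + C x * X) ^ 2 * (C x' * (1 + C x) + (1 - C x)) * e1
  · compute_degree; omega
  · unfold Qp; compute_degree

theorem Bs.split0 (B : Bs p N π) {l l' α1 α2 δ : O} {f1 r1 f2 r2 fd rd : PowerSeries O}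
    {m1 m2 : ℕ}
    (hm1 : 0 < m1) (hm2 : 0 < m2) (h1 : Iso l l' α1 f1 r1) (d1 : HD f1 m1) (u1 : π α1 ≠ 0)
    (h2 : Iso l l' α2 f2 r2) (hd : Iso l l δ fd rd)
    (dd : HD fd (m1 * m2)) (e1 : δ * α1 = m1 * α2) (e2 : δ * α2 = -(m2 * α1))
    (x y : ℤ) (hxy : (p : ℤ) = m1 * x ^ 2 + m2 * y ^ 2) (h0 : π (x * α1 + y * α2) = 0)
    (hl : π l' = π l ^ p) (L0 : π l' ≠ 0)
    (L1 : π l' ≠ 1) (L2 : π l' + 1 ≠ 0) (L3 : π l' - 2 ≠ 0) (L4 : 2 * π l' - 1 ≠ 0)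
    (L5 : π l' ^ 2 - π l' + 1 ≠ 0) {hf : O} (hh : 2 * hf = 1) :
    (p : O) ^ 2 ∣ ul hf N l ^ 2 * α1 ^ 2 - m1 * (4 * m1 * x ^ 2 - 2 * p) := by
  obtain ⟨f, r, i, d, ne⟩ := B.lattice hm1 hm2 h1 d1 u1 h2 hd dd e1 e2 L0 L1 x y hxy
  obtain ⟨θ, hθ⟩ := (B.ker _).1 h0
  have hxy' : (p : O) = m1 * x ^ 2 + m2 * y ^ 2 := by
    exact_mod_cast congrArg (Int.cast : ℤ → O) hxy
  have e3 : θ * (x * α1 - y * α2) * m1 = α1 ^ 2 := by
    apply mul_left_cancel₀ B.p0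
    linear_combination -(x * α1 - y * α2) * m1 * hθ - α1 ^ 2 * hxy' + y ^ 2 * α2 * e1
      - y ^ 2 * α1 * e2
  have hθ0 : π θ ≠ 0 := by
    intro h
    have := congrArg π e3
    rw [map_mul, map_mul, h, zero_mul, zero_mul, map_pow] at this
    exact pow_ne_zero 2 u1 this.symm
  rw [hθ] at i
  obtain ⟨z, hz⟩ := B.frob i hθ0 ne d hl L0 L1 L2 L3 L4 L5 hh
  apply B.dvd_of_mul (a := α1 ^ 2) (by rw [map_pow]; exact pow_ne_zero 2 u1)
  have e4 : (y : O) * α2 = p * θ - x * α1 := by linear_combination hθ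
  rw [e4] at e3
  generalize ul hf N l = u at *
  refine ⟨z * ((2 * x * α1 - p * θ) * m1) ^ 2 - m1 ^ 2 * θ ^ 2, ?_⟩
  linear_combination ((2 * x * α1 - p * θ) * m1) ^ 2 * hz
    - (u ^ 2 * (α1 ^ 2 + θ * (2 * x * α1 - p * θ) * m1) + 2 * p * m1) * e3

theorem Bs.split (B : Bs p N π) {l μ l' μ' e : O} {m1 m2 : ℕ} (hm1 : ¬p ∣ m1) (hm2 : 0 < m2)
    (he : e * e = 1) (g1 : NI l μ l' μ' m1 e) (g2 : NI l μ l' μ' m2 (-e))
    (gd : NI l μ l μ (m1 * m2) (-1)) (hμ : π μ ≠ 0) (hμ' : π μ' ≠ 0)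
    (x y : ℤ) (hxy : (p : ℤ) = m1 * x ^ 2 + m2 * y ^ 2)
    (hl : π l' = π l ^ p) (L0 : π l' ≠ 0)
    (L1 : π l' ≠ 1) (L2 : π l' + 1 ≠ 0) (L3 : π l' - 2 ≠ 0) (L4 : 2 * π l' - 1 ≠ 0)
    (L5 : π l' ^ 2 - π l' + 1 ≠ 0) {hf : O} (hh : 2 * hf = 1) :
    (p : O) ^ 2 ∣ ul hf N l ^ 2 * μ - e * (4 * m1 * x ^ 2 - 2 * p) * μ' := by
  obtain ⟨α1, f1, r1, i1, d1, k1⟩ := g1
  obtain ⟨α2, f2, r2, i2, -, k2⟩ := g2
  obtain ⟨δ, fd, rd, id, dd, kd⟩ := gd
  have ne : ∀ x : O, π x ≠ 0 → x ≠ 0 := by rintro x hx rfl; simp at hx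
  have hm1' : 0 < m1 := Nat.pos_of_ne_zero (by rintro rfl; simp at hm1)
  have hm1k : π m1 ≠ 0 := by rw [map_natCast]; exact B.natk hm1
  have hek : π e ≠ 0 := by
    intro h; have := congrArg π he; simp [h] at this
  have u1 : π α1 ≠ 0 := by
    intro h
    have := congrArg π k1
    simp only [map_mul, map_pow, h] at this
    exact mul_ne_zero (mul_ne_zero hek hm1k) hμ (by rw [← this]; simp)
  have kd' : δ ^ 2 = -(m1 * m2) := by
    apply mul_left_cancel₀ (ne _ hμ); push_cast at kd; linear_combination kd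
  have e0 : (δ * α1) ^ 2 = (m1 * α2) ^ 2 := by
    apply mul_left_cancel₀ (ne _ hμ')
    linear_combination δ ^ 2 * k1 - m1 ^ 2 * k2 + e * m1 * μ * kd'
  obtain ⟨α3, r3, i3, e1⟩ : ∃ α3 r3, Iso l l' α3 f2 r3 ∧ δ * α1 = m1 * α3 := by
    rcases sq_eq_sq_iff_eq_or_eq_neg.1 e0 with h | h
    · exact ⟨α2, r2, i2, h⟩
    · exact ⟨-α2, -r2, i2.neg, by rw [h]; ring⟩
  have e2 : δ * α3 = -(m2 * α1) := by
    apply mul_left_cancel₀ (ne _ hm1k)
    linear_combination -δ * e1 + α1 * kd'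
  have hxy' : (p : O) = m1 * x ^ 2 + m2 * y ^ 2 := by
    exact_mod_cast congrArg (Int.cast : ℤ → O) hxy
  have e3 : π (x * α1 + y * α3) * π (x * α1 + (-y : ℤ) * α3) = 0 := by
    apply mul_left_cancel₀ hm1k
    rw [← map_mul, ← map_mul, mul_zero, B.ker]
    exact ⟨α1 ^ 2, by
      push_cast
      linear_combination - α1 ^ 2 * hxy' + y ^ 2 * α3 * e1 - y ^ 2 * α1 * e2⟩
  obtain ⟨z, hz⟩ : (p : O) ^ 2 ∣ ul hf N l ^ 2 * α1 ^ 2 - m1 * (4 * m1 * x ^ 2 - 2 * p) := by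
    rcases mul_eq_zero.1 e3 with h | h
    · exact B.split0 hm1' hm2 i1 d1 u1 i3 id dd e1 e2 x y hxy h hl L0 L1 L2 L3 L4 L5 hh
    · exact B.split0 hm1' hm2 i1 d1 u1 i3 id dd e1 e2 x (-y) (by rw [hxy]; ring) h hl
        L0 L1 L2 L3 L4 L5 hh
  apply B.dvd_of_mul hm1k
  refine ⟨e * μ' * z, ?_⟩
  linear_combination e * μ' * hz - e * ul hf N l ^ 2 * k1 - ul hf N l ^ 2 * m1 * μ * he

theorem Bs.cartier' (B : Bs p N π) {l l' β : O} {f r : PowerSeries O} (h : Iso l l' β f r)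
    (hβ : π β ≠ 0) {hf : O} (hh : 2 * hf = 1) :
    π (ul hf N l) = π β ^ (2 * N) * π (ul hf N l') := by
  have e1 := (B.ker _).2 (B.key hh l).2.2
  have e2 := (B.ker _).2 (B.key hh l').2.2
  have e3 := B.cartier h hβ
  simp only [map_sub, map_mul, map_pow, map_neg, map_one] at e1 e2
  have e4 : ((-1 : k) ^ N) ≠ 0 := pow_ne_zero _ (by simp)
  apply mul_left_cancel₀ e4
  linear_combination e1 + e3 - π β ^ (2 * N) * e2

theorem Bs.inert (B : Bs p N π) {l μ : O} {D : ℕ} (gd : NI l μ l μ D (-1)) (hμ : π μ ≠ 0)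
    (hD : (-(D : k)) ^ N = -1) {hf : O} (hh : 2 * hf = 1) : (p : O) ∣ ul hf N l := by
  obtain ⟨δ, fd, rd, id, -, kd⟩ := gd
  have kd' : π δ ^ 2 = -D := by
    apply mul_left_cancel₀ hμ
    have := congrArg π kd
    simp only [map_mul, map_pow, map_neg, map_one, map_natCast] at this
    linear_combination this
  have hδ : π δ ≠ 0 := by
    intro h
    rw [← kd', h, zero_pow two_ne_zero, zero_pow B.N_pos.ne'] at hD
    simp at hD
  have := B.cartier' id hδ hh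
  rw [pow_mul, kd', hD] at this
  rw [← B.ker]
  apply mul_left_cancel₀ B.two
  linear_combination this

end Pool.Agent.Lib.MP_4af24b_nt
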