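import Pool.Agent.Lib.MP_4af24b_nt.Fam

set_option linter.unusedSimpArgs false
set_option linter.unusedSectionVars false

namespace Pool.Agent.Lib.MP_4af24b_nt

def qlift {R S : Type*} [CommRing R] [CommRing S] {a : R} (φ : R →+* S) (s : S)
    (hs : s * s = φ a) : QuadraticAlgebra R a 0 →+* S where
  toFun z := φ z.re + φ z.im * s
  map_one' := by simp [QuadraticAlgebra.re_one, QuadraticAlgebra.im_one]
  map_zero' := by simp
  map_add' z w := by simp; ring
  map_mul' z w := by simp; linear_combination (-(φ z.im * φ w.im)) * hs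

def sb (R : Type*) [CommRing R] (b : Bool) : R := if b then -1 else 1

theorem sb_mul (R : Type*) [CommRing R] (b : Bool) : sb R b * sb R b = 1 := by
  cases b <;> simp [sb]

def qmap {R : Type*} [CommRing R] {a : R} (σ : R →+* R) (h : σ a = a) (b : Bool) :
    QuadraticAlgebra R a 0 →+* QuadraticAlgebra R a 0 where
  toFun z := ⟨σ z.re, sb R b * σ z.im⟩
  map_one' := by ext <;> simp [QuadraticAlgebra.re_one, QuadraticAlgebra.im_one]
  map_zero' := by ext <;> simp
  map_add' z w := by ext <;> simp; ring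
  map_mul' z w := by
    ext
    · simp [h]; linear_combination (-(a * σ z.im * σ w.im)) * sb_mul R b
    · simp; ring

abbrev La := QuadraticAlgebra ℤ 2 0
abbrev Lb := QuadraticAlgebra La 3 0
abbrev L3 (d : ℕ) := QuadraticAlgebra Lb (d : Lb) 0

def mk8 (d : ℕ) (a0 a1 a2 a3 a4 a5 a6 a7 : ℤ) : L3 d :=
  ⟨⟨⟨a0, a1⟩, ⟨a2, a3⟩⟩, ⟨⟨a4, a5⟩, ⟨a6, a7⟩⟩⟩

def gA (d : ℕ) : L3 d := mk8 d 0 1 0 0 0 0 0 0
def gB (d : ℕ) : L3 d := mk8 d 0 0 1 0 0 0 0 0
def gC (d : ℕ) : L3 d := mk8 d 0 0 0 0 1 0 0 0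

def sgn (d : ℕ) (b1 b2 b3 : Bool) : L3 d →+* L3 d :=
  qmap (qmap (qmap (RingHom.id ℤ) rfl b1) (map_ofNat _ 3) b2) (map_natCast _ d) b3

def ev {S : Type*} [CommRing S] (d : ℕ) (a b c : S) (ha : a * a = 2) (hb : b * b = 3)
    (hc : c * c = d) : L3 d →+* S :=
  qlift (qlift (qlift (Int.castRingHom S) a (by simpa using ha)) b (by rw [map_ofNat, hb])) c
    (by rw [map_natCast, hc])

section
variable {S : Type*} [CommRing S] {d : ℕ} {a b c : S} {ha : a * a = 2} {hb : b * b = 3}
  {hc : c * c = d}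

theorem ev_A : ev d a b c ha hb hc (gA d) = a := by simp [ev, qlift, gA, mk8]
theorem ev_B : ev d a b c ha hb hc (gB d) = b := by simp [ev, qlift, gB, mk8]
theorem ev_C : ev d a b c ha hb hc (gC d) = c := by simp [ev, qlift, gC, mk8]

theorem L3_ext (f g : L3 d →+* S) (hA : f (gA d) = g (gA d)) (hB : f (gB d) = g (gB d))
    (hC : f (gC d) = g (gC d)) (z : L3 d) : f z = g z := by
  obtain ⟨⟨⟨a0, a1⟩, ⟨a2, a3⟩⟩, ⟨⟨a4, a5⟩, ⟨a6, a7⟩⟩⟩ := z
  have : (⟨⟨⟨a0, a1⟩, ⟨a2, a3⟩⟩, ⟨⟨a4, a5⟩, ⟨a6, a7⟩⟩⟩ : L3 d) =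
      (a0 : L3 d) + a1 * gA d + (a2 + a3 * gA d) * gB d
        + ((a4 : L3 d) + a5 * gA d + (a6 + a7 * gA d) * gB d) * gC d := by
    ext <;> simp [gA, gB, gC, mk8]
  rw [this]
  simp only [map_add, map_mul, map_intCast, hA, hB, hC]

theorem sgn_A (b1 b2 b3 : Bool) : sgn d b1 b2 b3 (gA d) = sb ℤ b1 * gA d := by
  ext <;> simp [sgn, qmap, gA, mk8]
theorem sgn_B (b1 b2 b3 : Bool) : sgn d b1 b2 b3 (gB d) = sb ℤ b2 * gB d := by
  cases b2 <;> ext <;> simp [sgn, qmap, gB, mk8, sb]
theorem sgn_C (b1 b2 b3 : Bool) : sgn d b1 b2 b3 (gC d) = sb ℤ b3 * gC d := by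
  cases b3 <;> ext <;> simp [sgn, qmap, gC, mk8, sb]

theorem sgn_comp (b1 b2 b3 c1 c2 c3 : Bool) (z : L3 d) :
    sgn d b1 b2 b3 (sgn d c1 c2 c3 z) = sgn d (xor b1 c1) (xor b2 c2) (xor b3 c3) z := by
  refine L3_ext ((sgn d b1 b2 b3).comp (sgn d c1 c2 c3)) _ ?_ ?_ ?_ z
  · cases b1 <;> cases c1 <;> simp [sgn_A, sb]
  · cases b2 <;> cases c2 <;> simp [sgn_B, sb]
  · cases b3 <;> cases c3 <;> simp [sgn_C, sb]

theorem sgn_id (z : L3 d) : sgn d false false false z = z :=
  L3_ext _ (RingHom.id _) (by simp [sgn_A, sb]) (by simp [sgn_B, sb]) (by simp [sgn_C, sb]) z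

theorem sgn_sgn {b1 b2 b3 : Bool} (z : L3 d) : sgn d b1 b2 b3 (sgn d b1 b2 b3 z) = z := by
  simp [sgn_comp, sgn_id]

theorem sgn_comm {b1 b2 b3 c1 c2 c3 : Bool} (z : L3 d) :
    sgn d b1 b2 b3 (sgn d c1 c2 c3 z) = sgn d c1 c2 c3 (sgn d b1 b2 b3 z) := by
  simp [sgn_comp, Bool.xor_comm]
end

instance {A : Type*} [CommRing A] [DecidableEq A] (l m b0 b1 b2 b3 d1 d2 d3 a1 a2 a3 c1 c2 c3 : A) :
    Decidable (∀ x ∈ oddL l m b0 b1 b2 b3 d1 d2 d3 a1 a2 a3 c1 c2 c3, x = 0) :=
  List.decidableBAll _ _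

def x30 : L3 5 := mk8 5 (-171) (-120) 98 70 (-76) (-54) 44 31

def m30 : L3 5 := mk8 5 39 27 (-22) (-16) 18 12 (-10) (-7)

theorem fam30 : Fam 2 18 (sgn 5 false true false) (sgn 5 false false true) (sgn 5 true true true)
    x30 m30 where
  c11 := sgn_sgn
  c22 := sgn_sgn
  c33 := sgn_sgn
  c21 := sgn_comm
  c31 := sgn_comm
  c32 := sgn_comm
  k1 := by decide +kernel
  k2 := by decide +kernel
  o3 := ⟨mk8 5 2980 2106 (-1720) (-1216) 1332 942 (-769) (-544),
      0,
      0,
      mk8 5 3018 2133 (-1742) (-1232) 1350 954 (-779) (-551),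
      0,
      0,
      mk8 5 (-2980) (-2106) 1720 1216 (-1332) (-942) 769 544,
      0,
      0,
      mk8 5 (-20) 0 0 8 0 (-6) 5 0,
      0,
      0,
      by decide, by decide, by decide, by decide +kernel⟩
  o5 := ⟨mk8 5 125 85 (-70) (-50) 54 39 (-32) (-22),
    ⟨mk8 5 933300 659925 (-538825) (-381020) 417372 295137 (-240977) (-170392),
      mk8 5 6821416 4823460 (-3938340) (-2784830) 3050625 2157120 (-1761282) (-1245412),
      0,
      mk8 5 31770 22455 (-18335) (-12970) 14202 10047 (-8203) (-5798),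
      mk8 5 7723070 5461015 (-4458900) (-3152930) 3453849 2442249 (-1994088) (-1410028),
      0,
      mk8 5 (-27952) (-19760) 16135 11410 (-12498) (-8838) 7217 5102,
      mk8 5 6821416 4823460 (-3938340) (-2784830) 3050625 2157120 (-1761282) (-1245412),
      0,
      mk8 5 (-956) (-670) 547 390 (-426) (-300) 245 174,
      mk8 5 7912 5580 (-4556) (-3230) 3537 2496 (-2038) (-1444),
      0,
      by decide, by decide, by decide, by decide +kernel⟩, by decide +kernel⟩
  m1 := by decide +kernel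
  m2 := by decide +kernel
  m3 := by decide +kernel
  p1 := by decide +kernel
  p2 := by decide +kernel

theorem nrm30_0 : (x30 ^ 2 + 1) * mk8 5 42 0 (-2) 10 0 0 4 1
    = (84 : ℕ) := by decide +kernel

theorem nrm30_1 : (x30 ^ 2 - 2) * mk8 5 (-5487) (-8640) 5588 (-5380) 5328 (-408) 1448 (-1678)
    = (28329 : ℕ) := by decide +kernel

theorem nrm30_2 : (2 * x30 ^ 2 - 1) * mk8 5 (-17355) 17280 11176 (-10760) (-10656) 816 2896 (-3356)
    = (28329 : ℕ) := by decide +kernel

theorem nrm30_3 : ((x30 ^ 2) ^ 2 - x30 ^ 2 + 1) * mk8 5 114555 6080 (-13580) 26460 (-4816) (-9576) 4968 3938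
    = (164205 : ℕ) := by decide +kernel

def x42 : L3 7 := mk8 7 (-825) 582 476 (-336) 312 (-220) (-180) 127

def m42 : L3 7 := mk8 7 111 (-78) (-64) 45 (-42) 30 24 (-17)

theorem fam42 : Fam 3 30 (sgn 7 true true true) (sgn 7 true true false) (sgn 7 true false false)
    x42 m42 where
  c11 := sgn_sgn
  c22 := sgn_sgn
  c33 := sgn_sgn
  c21 := sgn_comm
  c31 := sgn_comm
  c32 := sgn_comm
  k1 := by decide +kernel
  k2 := by decide +kernel
  o3 := ⟨mk8 7 24472 (-17304) (-14128) 9990 (-9249) 6540 5340 (-3776),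
      0,
      0,
      mk8 7 24582 (-17382) (-14192) 10035 (-9291) 6570 5364 (-3793),
      0,
      0,
      mk8 7 (-24472) 17304 14128 (-9990) 9249 (-6540) (-5340) 3776,
      0,
      0,
      mk8 7 (-56) 0 32 0 21 0 (-12) 0,
      0,
      0,
      by decide, by decide, by decide, by decide +kernel⟩
  o5 := ⟨mk8 7 777 (-546) (-448) 315 (-294) 206 170 (-119),
    ⟨mk8 7 404242944 (-285842718) (-233389772) 165031370 (-152789467) 108038394 88213040 (-62375996),
      mk8 7 622044875053 (-439852148526) (-359137776060) 253948756355 (-235110863394) 166248485516 135741320270 (-95983607865),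
      mk8 7 2541229704504 (-1796920756400) (-1467179653968) 1037452682420 (-960494546055) 679172206734 554541784720 (-392120256384),
      mk8 7 1329678 (-940184) (-767690) 542815 (-502571) 355356 290160 (-205165),
      mk8 7 37549759149 (-26551688772) (-21679363552) 15329624660 (-14192474928) 10035595054 8194029220 (-5794053506),
      mk8 7 3126127734450 (-2210506119234) (-1804870689006) 1276236302985 (-1181565221711) 835492780440 682176998820 (-482371981693),
      mk8 7 (-1069442) 756196 617442 (-436590) 404209 (-285816) (-233370) 165016,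
      mk8 7 30164210303 (-21329317534) (-17415314938) 12314487220 (-11400999846) 8061724264 6582370330 (-4654438674),
      mk8 7 (-2541229704504) 1796920756400 1467179653968 (-1037452682420) 960494546055 (-679172206734) (-554541784720) 392120256384,
      mk8 7 (-64486) 45592 37226 (-26320) 24373 (-17232) (-14070) 9948,
      mk8 7 99338591 (-70242962) (-57353142) 40554780 (-37546458) 26549344 21677450 (-15328266),
      mk8 7 (-504573336) 356787200 291315528 (-205991170) 190710795 (-134852886) (-110106920) 77857344,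
      by decide, by decide, by decide, by decide +kernel⟩, by decide +kernel⟩
  m1 := by decide +kernel
  m2 := by decide +kernel
  m3 := by decide +kernel
  p1 := by decide +kernel
  p2 := by decide +kernel

theorem nrm42_0 : (x42 ^ 2 + 1) * mk8 7 114 6 28 0 24 0 0 (-1)
    = (228 : ℕ) := by decide +kernel

theorem nrm42_1 : (x42 ^ 2 - 2) * mk8 7 (-1627017) 449148 (-497896) 201600 150672 (-133680) 257520 (-96398)
    = (1813119 : ℕ) := by decide +kernel

theorem nrm42_2 : (2 * x42 ^ 2 - 1) * mk8 7 1440915 898296 (-995792) (-403200) 301344 267360 (-515040) (-192796)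
    = (1813119 : ℕ) := by decide +kernel

theorem nrm42_3 : ((x42 ^ 2) ^ 2 - x42 ^ 2 + 1) * mk8 7 60299 6276 6888 896 11376 (-688) (-3984) (-1426)
    = (83325 : ℕ) := by decide +kernel


end Pool.Agent.Lib.MP_4af24b_nt
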