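import Mathlib

namespace Pool.Agent.Lib.MP_4af24b_nt

/-- Generalized central trinomial coefficient. -/
def T {R : Type*} [CommRing R] (n : ℕ) (b c : R) : R :=
  ∑ j ∈ Finset.range (n / 2 + 1),
    (n.choose (2 * j) : R) * ((2 * j).choose j : R) * b ^ (n - 2 * j) * c ^ j

/-- The sum of the problem. -/
def S (b : ℚ) (p : ℕ) : ℚ :=
  ∑ k ∈ Finset.range p, ((2 * k).choose k : ℚ) ^ 2 * T (2 * k) b 1 / 256 ^ k

/-- Congruence of a rational number and an integer modulo the square of `p`. -/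
def Cong (p : ℕ) (s : ℚ) (v : ℤ) : Prop := (p : ℤ) ^ 2 ∣ (s - v).num

end Pool.Agent.Lib.MP_4af24b_nt
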