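import Mathlib

set_option linter.unusedSimpArgs false

namespace Pool.Agent.Lib.MP_4af24b_nt

open Polynomial

/-- rational power series of degree at most `a` -/
def HD {R : Type*} [CommRing R] (f : PowerSeries R) (a : ℕ) : Prop :=
  ∃ n d : R[X], d.coeff 0 ≠ 0 ∧ (d : PowerSeries R) * f = n ∧ n.natDegree ≤ a ∧ d.natDegree ≤ a

def Top {R : Type*} [CommRing R] (a : ℕ) (f : R[X]) (c : R) : Prop :=
  f.natDegree ≤ a ∧ f.coeff a = c

section top
variable {R : Type*} [CommRing R] {a b : ℕ} {f g : R[X]} {c e : R}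

theorem Top.add (h1 : Top a f c) (h2 : Top a g e) : Top a (f + g) (c + e) :=
  ⟨natDegree_add_le_of_degree_le h1.1 h2.1, by rw [coeff_add, h1.2, h2.2]⟩

theorem Top.sub (h1 : Top a f c) (h2 : Top a g e) : Top a (f - g) (c - e) :=
  ⟨(natDegree_sub_le f g).trans (max_le h1.1 h2.1), by rw [coeff_sub, h1.2, h2.2]⟩

theorem Top.mul (h1 : Top a f c) (h2 : Top b g e) : Top (a + b) (f * g) (c * e) :=
  ⟨natDegree_mul_le.trans (add_le_add h1.1 h2.1),
    by rw [coeff_mul_add_eq_of_natDegree_le h1.1 h2.1, h1.2, h2.2]⟩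

theorem Top.cmul (h1 : Top a f c) (r : R) : Top a (C r * f) (r * c) :=
  ⟨(natDegree_C_mul_le r f).trans h1.1, by rw [coeff_C_mul, h1.2]⟩

theorem Top.congr (h1 : Top a f c) {a' : ℕ} {f' : R[X]} {c' : R} (ha : a = a') (hf : f = f')
    (hc : c = c') : Top a' f' c' := ha ▸ hf ▸ hc ▸ h1

theorem Top.of_le (h : f.natDegree ≤ a) : Top a f (f.coeff a) := ⟨h, rfl⟩

theorem Top.natDegree_eq (h : Top a f c) (hc : c ≠ 0) : f.natDegree = a :=
  natDegree_eq_of_le_of_coeff_ne_zero h.1 (h.2 ▸ hc)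
end top

section comp
variable {R : Type*} [CommRing R]

theorem HD.mono {f : PowerSeries R} {a b : ℕ} (h : HD f a) (hab : a ≤ b) : HD f b := by
  obtain ⟨n, d, h1, h2, h3, h4⟩ := h
  exact ⟨n, d, h1, h2, h3.trans hab, h4.trans hab⟩

noncomputable def hom (P n d : R[X]) (a : ℕ) : R[X] :=
  ∑ i ∈ Finset.range (a + 1), C (P.coeff i) * n ^ i * d ^ (a - i)

theorem hom_deg (P n d : R[X]) (a b : ℕ) (hn : n.natDegree ≤ b) (hd : d.natDegree ≤ b) :
    (hom P n d a).natDegree ≤ a * b := by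
  refine natDegree_sum_le_of_forall_le _ _ fun i hi => ?_
  have hi' : i ≤ a := by have := Finset.mem_range.1 hi; omega
  rw [mul_assoc]
  refine (natDegree_C_mul_le _ _).trans (natDegree_mul_le.trans ?_)
  have h1 := natDegree_pow_le_of_le i hn
  have h2 := natDegree_pow_le_of_le (a - i) hd
  have : i * b + (a - i) * b = a * b := by rw [← add_mul]; congr 1; omega
  omega

theorem hom_coe (P n d : R[X]) (a : ℕ) (hP : P.natDegree ≤ a) (g : PowerSeries R)
    (hg : (d : PowerSeries R) * g = n) :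
    ((hom P n d a : R[X]) : PowerSeries R) = (d : PowerSeries R) ^ a * aeval g P := by
  rw [aeval_eq_sum_range' (Nat.lt_succ_of_le hP), Finset.mul_sum, hom,
    ← coeToPowerSeries.ringHom_apply, map_sum]
  refine Finset.sum_congr rfl fun i hi => ?_
  have hi' : i ≤ a := by have := Finset.mem_range.1 hi; omega
  have : (d : PowerSeries R) ^ a = d ^ i * d ^ (a - i) := by rw [← pow_add]; congr 1; omega
  simp only [map_mul, map_pow, coeToPowerSeries.ringHom_apply, coe_C, this, ← hg,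
    PowerSeries.smul_eq_C_mul]
  ring

theorem constantCoeff_aeval (P : R[X]) (g : PowerSeries R) (hg : g.constantCoeff = 0) :
    (aeval g P).constantCoeff = P.coeff 0 := by
  induction P using Polynomial.induction_on' with
  | add P Q hP hQ => simp [hP, hQ]
  | monomial n a =>
    rcases n with _ | n
    · simp
    · simp [hg, aeval_monomial]

theorem HD.comp [IsDomain R] {f g : PowerSeries R} {a b : ℕ} (hf : HD f a) (hg : HD g b)
    (h0 : g.constantCoeff = 0) : HD (f.subst g) (a * b) := by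
  obtain ⟨n, d, h1, h2, h3, h4⟩ := hf
  obtain ⟨n', d', h1', h2', h3', h4'⟩ := hg
  have hs := PowerSeries.HasSubst.of_constantCoeff_zero' h0
  refine ⟨hom n n' d' a, hom d n' d' a, ?_, ?_, hom_deg _ _ _ _ _ h3' h4',
    hom_deg _ _ _ _ _ h3' h4'⟩
  · have := congrArg PowerSeries.constantCoeff (hom_coe d n' d' a h4 g h2')
    rw [map_mul, map_pow, constantCoeff_aeval _ _ h0, constantCoeff_coe, constantCoeff_coe] at this
    rw [this]; exact mul_ne_zero (pow_ne_zero _ h1') h1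
  · rw [hom_coe d n' d' a h4 g h2', hom_coe n n' d' a h3 g h2', mul_assoc,
      ← PowerSeries.subst_coe hs, ← PowerSeries.subst_coe hs, ← PowerSeries.subst_mul hs, h2]

end comp

section field
variable {F : Type*} [Field F]

theorem exists_coprime (f : PowerSeries F) (n d : F[X]) (hd : d ≠ 0)
    (h : (d : PowerSeries F) * f = n) :
    ∃ n' d' : F[X], IsCoprime n' d' ∧ d'.coeff 0 ≠ 0 ∧ (d' : PowerSeries F) * f = n' := by
  classical
  obtain ⟨n', hn'⟩ := gcd_dvd_left n d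
  obtain ⟨d', hd'⟩ := gcd_dvd_right n d
  have hg : gcd n d ≠ 0 := gcd_ne_zero_of_right hd
  have hc : IsCoprime n' d' := by
    have := isCoprime_div_gcd_div_gcd (p := n) hd
    rwa [← EuclideanDomain.eq_div_of_mul_eq_right hg hn'.symm,
      ← EuclideanDomain.eq_div_of_mul_eq_right hg hd'.symm] at this
  have he : (d' : PowerSeries F) * f = n' := by
    generalize gcd n d = g at *
    have hg' : (g : PowerSeries F) ≠ 0 := by simpa using hg
    apply mul_left_cancel₀ hg'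
    rw [← mul_assoc, ← coe_mul, ← coe_mul, ← hn', ← hd', h]
  refine ⟨n', d', hc, fun h0 => ?_, he⟩
  have h1 : n'.coeff 0 = 0 := by
    have := congrArg PowerSeries.constantCoeff he
    rw [map_mul, constantCoeff_coe, constantCoeff_coe, h0, zero_mul] at this
    exact this.symm
  exact not_isUnit_X (hc.isUnit_of_dvd' (X_dvd_iff.2 h1) (X_dvd_iff.2 h0))

theorem coprime_le {f : PowerSeries F} {n d n' d' : F[X]} (hc : IsCoprime n d)
    (h : (d : PowerSeries F) * f = n) (hd' : d' ≠ 0) (h' : (d' : PowerSeries F) * f = n') :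
    n.natDegree ≤ n'.natDegree ∧ d.natDegree ≤ d'.natDegree := by
  have e : n * d' = n' * d := by
    apply coe_injective F
    simp only [coe_mul, ← h, ← h']; ring
  refine ⟨?_, natDegree_le_of_dvd (hc.symm.dvd_of_dvd_mul_left ⟨n', by rw [e]; ring⟩) hd'⟩
  by_cases hn : n' = 0
  · rw [hn, zero_mul] at e
    rw [(mul_eq_zero.1 e).resolve_right hd']; simp
  · exact natDegree_le_of_dvd (hc.dvd_of_dvd_mul_right ⟨d', e.symm⟩) hn

theorem HD_of_ne {f : PowerSeries F} {n d : F[X]} {a : ℕ} (hd : d ≠ 0)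
    (h : (d : PowerSeries F) * f = n) (h1 : n.natDegree ≤ a) (h2 : d.natDegree ≤ a) : HD f a := by
  obtain ⟨n', d', hc, h0, he⟩ := exists_coprime f n d hd h
  have := coprime_le hc he hd h
  exact ⟨n', d', h0, he, this.1.trans h1, this.2.trans h2⟩

noncomputable def ht (f : PowerSeries F) : ℕ := sInf {a | HD f a}

theorem HD.ht_le {f : PowerSeries F} {a : ℕ} (h : HD f a) : ht f ≤ a := Nat.sInf_le h

theorem HD.ht {f : PowerSeries F} {a : ℕ} (h : HD f a) : HD f (ht f) :=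
  Nat.sInf_mem (s := {a | HD f a}) ⟨a, h⟩

theorem HD.rep {f : PowerSeries F} {a : ℕ} (h : HD f a) :
    ∃ n d : F[X], ∃ c e : F, IsCoprime n d ∧ d ≠ 0 ∧ (d : PowerSeries F) * f = n ∧
      Top (MP_4af24b_nt.ht f) n c ∧ Top (MP_4af24b_nt.ht f) d e ∧ ¬(c = 0 ∧ e = 0) := by
  obtain ⟨n, d, h1, h2, h3, h4⟩ := h.ht
  have hd : d ≠ 0 := by rintro rfl; simp at h1
  obtain ⟨n', d', hc, h0, he⟩ := exists_coprime f n d hd h2
  have hd' : d' ≠ 0 := by rintro rfl; simp at h0
  have h5 := coprime_le hc he hd h2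
  have h6 : MP_4af24b_nt.ht f ≤ max n'.natDegree d'.natDegree :=
    HD.ht_le ⟨n', d', h0, he, le_max_left _ _, le_max_right _ _⟩
  refine ⟨n', d', _, _, hc, hd', he, Top.of_le (h5.1.trans h3), Top.of_le (h5.2.trans h4), ?_⟩
  rintro ⟨h7, h8⟩
  have h9 : d'.natDegree ≠ MP_4af24b_nt.ht f := by
    intro h9; rw [← h9] at h8; exact hd' (leadingCoeff_eq_zero.1 h8)
  have h10 : n'.natDegree = MP_4af24b_nt.ht f := by
    have := h5.1.trans h3
    have := h5.2.trans h4
    omega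
  rw [← h10] at h7
  rw [leadingCoeff_eq_zero.1 h7, natDegree_zero] at h10
  have := h5.2.trans h4
  omega

theorem eq_zero_of_ht {f : PowerSeries F} {a : ℕ} (h : HD f a) (h0 : f.constantCoeff = 0)
    (h1 : ht f = 0) : f = 0 := by
  obtain ⟨n, d, h1', h2, h3, h4⟩ := h1 ▸ h.ht
  rw [eq_C_of_natDegree_le_zero h3, eq_C_of_natDegree_le_zero h4, coe_C, coe_C] at h2
  have := congrArg PowerSeries.constantCoeff h2
  simp only [map_mul, h0, mul_zero, PowerSeries.constantCoeff_C] at this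
  rw [← this, map_zero] at h2
  refine (mul_eq_zero.1 h2).resolve_left ?_
  intro h3
  exact h1' (by simpa using congrArg PowerSeries.constantCoeff h3)

theorem ht_zero : ht (0 : PowerSeries F) = 0 :=
  Nat.le_zero.1 (HD.ht_le ⟨0, 1, by simp, by simp, by simp, by simp⟩)

theorem nozero {K : Type*} [Field K] (l a1 b1 a2 b2 : K) (h2 : (2 : K) ≠ 0) (l0 : l ≠ 0)
    (l1 : l ≠ 1) (h1 : ¬(a1 = 0 ∧ b1 = 0)) (h2' : ¬(a2 = 0 ∧ b2 = 0))
    (e0 : (b1 * b2 - l * (a1 * a2)) * (b1 * b2 - l * (a1 * a2)) = 0)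
    (e1 : 2 * (a1 * b1 * ((b2 - a2) * (b2 - l * a2)) + (b1 - a1) * (b1 - l * a1) * (a2 * b2)) = 0)
    (e2 : (a1 * b2 - b1 * a2) * (a1 * b2 - b1 * a2) = 0) : False := by
  have e0' := mul_self_eq_zero.1 e0
  have e2' := mul_self_eq_zero.1 e2
  have e1' := (mul_eq_zero.1 e1).resolve_left h2
  have hb1 : b1 ≠ 0 := by
    rintro rfl
    have ha1 : a1 ≠ 0 := fun h => h1 ⟨h, rfl⟩
    have hb2 : b2 = 0 := by
      apply mul_left_cancel₀ ha1; linear_combination e2'
    have ha2 : a2 = 0 := by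
      apply mul_left_cancel₀ (mul_ne_zero l0 ha1); linear_combination -e0'
    exact h2' ⟨ha2, hb2⟩
  have hb2 : b2 ≠ 0 := by
    rintro rfl
    have ha2 : a2 ≠ 0 := fun h => h2' ⟨h, rfl⟩
    have : a1 = 0 := by
      apply mul_left_cancel₀ (mul_ne_zero l0 ha2); linear_combination -e0'
    apply hb1
    apply mul_left_cancel₀ ha2; linear_combination -e2' + 0 * this
  obtain ⟨t, rfl⟩ : ∃ t, a1 = t * b1 := ⟨a1 / b1, by field_simp⟩
  have ha2 : a2 = t * b2 := by
    apply mul_left_cancel₀ hb1; linear_combination -e2'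
  subst ha2
  have f0 : 1 - l * t ^ 2 = 0 := by
    apply mul_left_cancel₀ (mul_ne_zero hb1 hb2); linear_combination e0'
  have f1 : t * ((1 - t) * (1 - l * t)) = 0 := by
    apply mul_left_cancel₀ (mul_ne_zero h2 (pow_ne_zero 2 (mul_ne_zero hb1 hb2)))
    linear_combination e1'
  rcases mul_eq_zero.1 f1 with h | h
  · rw [h] at f0; simp at f0
  · rcases mul_eq_zero.1 h with h | h
    · apply l1; linear_combination -f0 + l * (1 + t) * h
    · apply l1; linear_combination l * f0 - (1 + l * t) * h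

theorem nozero' {K : Type*} [Field K] (a1 b1 a2 b2 : K)
    (h1 : ¬(a1 = 0 ∧ b1 = 0)) (h2' : ¬(a2 = 0 ∧ b2 = 0))
    (e0 : b1 * b2 = 0) (e1 : a1 * b2 + b1 * a2 = 0) (e2 : a1 * a2 = 0) : False := by
  grind

theorem bezout3 (P0 P1 P2 : F[X])
    (h : ∀ (I : Ideal F[X]) [I.IsMaximal], P0 ∈ I → P1 ∈ I → P2 ∈ I → False) :
    ∃ a b c, a * P0 + b * P1 + c * P2 = 1 := by
  by_contra hc
  have : Ideal.span {P0, P1, P2} ≠ ⊤ := by
    intro h1
    have : (1 : F[X]) ∈ Ideal.span {P0, P1, P2} := by rw [h1]; trivial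
    rw [Ideal.mem_span_insert] at this
    obtain ⟨a, z, hz, e⟩ := this
    obtain ⟨b, c, rfl⟩ := Ideal.mem_span_pair.1 hz
    exact hc ⟨a, b, c, by rw [e]; ring⟩
  obtain ⟨I, hI, hle⟩ := Ideal.exists_le_maximal _ this
  exact h I (hle (Ideal.subset_span (by simp))) (hle (Ideal.subset_span (by simp)))
    (hle (Ideal.subset_span (by simp)))

theorem coprime_ne {n d : F[X]} (hc : IsCoprime n d) {K : Type*} [Field K] (ψ : F[X] →+* K) :
    ¬(ψ n = 0 ∧ ψ d = 0) := by
  rintro ⟨h1, h2⟩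
  obtain ⟨a, b, e⟩ := hc
  have := congrArg ψ e
  simp [h1, h2] at this

theorem top_le {H H' : ℕ} {P0 P1 P2 R0 R1 R2 : F[X]} {c0 c1 c2 e0 e1 e2 : F}
    (t0 : Top H P0 c0) (t1 : Top H P1 c1) (t2 : Top H P2 c2)
    (s0 : Top H' R0 e0) (s1 : Top H' R1 e1) (s2 : Top H' R2 e2)
    (hc : c0 = 0 → c1 = 0 → c2 = 0 → False) (hR : R0 ≠ 0) (hP : P0 ≠ 0)
    (h1 : P0 * R1 = P1 * R0) (h2 : P0 * R2 = P2 * R0)
    (hb : ∃ a b c, a * P0 + b * P1 + c * P2 = 1) : H ≤ H' := by
  obtain ⟨a, b, c, e⟩ := hb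
  set u := a * R0 + b * R1 + c * R2
  have f0 : R0 = P0 * u := by
    simp only [u]; linear_combination -R0 * e - b * h1 - c * h2
  have hu : u ≠ 0 := by rintro h; rw [h, mul_zero] at f0; exact hR f0
  have f1 : R1 = P1 * u := by
    apply mul_left_cancel₀ hP; rw [h1]; linear_combination P1 * f0
  have f2 : R2 = P2 * u := by
    apply mul_left_cancel₀ hP; rw [h2]; linear_combination P2 * f0
  have key : ∀ {P R : F[X]} {c e : F}, Top H P c → Top H' R e → R = P * u → c ≠ 0 → H ≤ H' := by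
    intro P R c e tP tR hR hc
    have h3 := tP.natDegree_eq hc
    have hP : P ≠ 0 := by rintro rfl; exact hc (by simpa using tP.2.symm)
    have := tR.1
    rw [hR, natDegree_mul hP hu] at this
    omega
  by_contra hcon
  exact hc (by_contra fun h => hcon (key t0 s0 f0 h)) (by_contra fun h => hcon (key t1 s1 f1 h))
    (by_contra fun h => hcon (key t2 s2 f2 h))

theorem parallelogram (l : F) (h2 : (2 : F) ≠ 0) (l0 : l ≠ 0) (l1 : l ≠ 1)
    {f1 f2 fp fm : PowerSeries F} {a1 a2 ap am : ℕ}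
    (r1 : HD f1 a1) (r2 : HD f2 a2) (rp : HD fp ap) (rm : HD fm am)
    (hD : 1 - PowerSeries.C l * (f1 * f2) ≠ 0)
    (eP : (1 - PowerSeries.C l * (f1 * f2)) ^ 2 * (fp * fm) = (f1 - f2) ^ 2)
    (eS : (1 - PowerSeries.C l * (f1 * f2)) ^ 2 * (fp + fm) =
      2 * (f1 * ((1 - f2) * (1 - PowerSeries.C l * f2))
        + (1 - f1) * (1 - PowerSeries.C l * f1) * f2)) :
    ht fp + ht fm = 2 * ht f1 + 2 * ht f2 := by
  obtain ⟨n1, d1, x1, y1, c1, hd1, e1, tn1, td1, z1⟩ := r1.rep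
  obtain ⟨n2, d2, x2, y2, c2, hd2, e2, tn2, td2, z2⟩ := r2.rep
  obtain ⟨n3, d3, x3, y3, c3, hd3, e3, tn3, td3, z3⟩ := rp.rep
  obtain ⟨n4, d4, x4, y4, c4, hd4, e4, tn4, td4, z4⟩ := rm.rep
  have t0 := ((td1.mul td2).sub ((tn1.mul tn2).cmul l)).mul
    ((td1.mul td2).sub ((tn1.mul tn2).cmul l))
  have t1 := (((tn1.mul td1).mul ((td2.sub tn2).mul (td2.sub (tn2.cmul l)))).add
    (((td1.sub tn1).mul (td1.sub (tn1.cmul l))).mul (tn2.mul td2))).cmul 2
  have t2 := ((tn1.mul td2).sub (td1.mul tn2)).mul ((tn1.mul td2).sub (td1.mul tn2))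
  have s0 := td3.mul td4
  have s1 := (tn3.mul td4).add (td3.mul tn4)
  have s2 := tn3.mul tn4
  rw [show ht f1 + ht f1 + (ht f2 + ht f2) = ht f1 + ht f2 + (ht f1 + ht f2) by ring] at t1
  have hP0 : (d1 * d2 - C l * (n1 * n2)) * (d1 * d2 - C l * (n1 * n2)) ≠ 0 := by
    refine mul_self_ne_zero.2 fun h => ?_
    have := congrArg (fun P : F[X] => (P : PowerSeries F)) h
    simp only [coe_mul, coe_sub, coe_C, coe_zero, ← e1, ← e2] at this
    have h3 : (d1 : PowerSeries F) * d2 * (1 - PowerSeries.C l * (f1 * f2)) = 0 := by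
      linear_combination this
    rcases mul_eq_zero.1 h3 with h3 | h3
    · rw [← coe_mul] at h3
      exact mul_ne_zero hd1 hd2 (by simpa using h3)
    · exact hD h3
  have hR0 := mul_ne_zero hd3 hd4
  have q1 : (d1 * d2 - C l * (n1 * n2)) * (d1 * d2 - C l * (n1 * n2)) * (n3 * d4 + d3 * n4) =
      C 2 * (n1 * d1 * ((d2 - n2) * (d2 - C l * n2)) + (d1 - n1) * (d1 - C l * n1) * (n2 * d2))
        * (d3 * d4) := by
    apply coe_injective F
    simp only [coe_mul, coe_sub, coe_add, coe_C, ← e1, ← e2, ← e3, ← e4]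
    rw [map_ofNat]
    linear_combination ((d1 : PowerSeries F) * d2) ^ 2 * d3 * d4 * eS
  have q2 : (d1 * d2 - C l * (n1 * n2)) * (d1 * d2 - C l * (n1 * n2)) * (n3 * n4) =
      (n1 * d2 - d1 * n2) * (n1 * d2 - d1 * n2) * (d3 * d4) := by
    apply coe_injective F
    simp only [coe_mul, coe_sub, coe_add, coe_C, ← e1, ← e2, ← e3, ← e4, map_ofNat]
    linear_combination ((d1 : PowerSeries F) * d2) ^ 2 * d3 * d4 * eP
  have b1 := bezout3 ((d1 * d2 - C l * (n1 * n2)) * (d1 * d2 - C l * (n1 * n2)))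
    (C 2 * (n1 * d1 * ((d2 - n2) * (d2 - C l * n2)) + (d1 - n1) * (d1 - C l * n1) * (n2 * d2)))
    ((n1 * d2 - d1 * n2) * (n1 * d2 - d1 * n2)) (by
      intro I _ i0 i1 i2
      let _ := Ideal.Quotient.field I
      let ψ : F[X] →+* F[X] ⧸ I := Ideal.Quotient.mk I
      have inj := (ψ.comp C).injective
      rw [← Ideal.Quotient.eq_zero_iff_mem] at i0 i1 i2
      refine nozero (ψ (C l)) (ψ n1) (ψ d1) (ψ n2) (ψ d2) ?_ ?_ ?_ (coprime_ne c1 ψ)
        (coprime_ne c2 ψ) (by simpa using i0) (by simpa [map_ofNat] using i1) (by simpa using i2)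
      · intro h; apply h2; apply inj; rw [map_ofNat, map_zero]; exact h
      · intro h; apply l0; apply inj; rw [map_zero]; exact h
      · intro h; apply l1; apply inj; rw [map_one]; exact h)
  have b2 := bezout3 (d3 * d4) (n3 * d4 + d3 * n4) (n3 * n4) (by
      intro I _ i0 i1 i2
      let _ := Ideal.Quotient.field I
      let ψ : F[X] →+* F[X] ⧸ I := Ideal.Quotient.mk I
      rw [← Ideal.Quotient.eq_zero_iff_mem] at i0 i1 i2
      exact nozero' (ψ n3) (ψ d3) (ψ n4) (ψ d4) (coprime_ne c3 ψ)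
        (coprime_ne c4 ψ) (by simpa using i0) (by simpa using i1) (by simpa using i2))
  have le1 := top_le t0 t1 t2 s0 s1 s2 (nozero l x1 y1 x2 y2 h2 l0 l1 z1 z2) hR0 hP0 q1 q2 b1
  have le2 := top_le s0 s1 s2 t0 t1 t2 (nozero' x3 y3 x4 y4 z3 z4) hP0 hR0
    (by rw [mul_comm, ← q1, mul_comm]) (by rw [mul_comm, ← q2, mul_comm]) b2
  omega

end field

end Pool.Agent.Lib.MP_4af24b_nt
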