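import Pool.Agent.Lib.MP_4af24b_nt.Two

set_option linter.unusedSimpArgs false

namespace Pool.Agent.Lib.MP_4af24b_nt

open Finset

theorem ZZ_dvd_abs {A : Type*} [CommRing A] (d1 d2 : Derivation ℤ A A) (x y I : A)
    (hx1 : d1 x = 1) (hy1 : d1 y = 0) (hx2 : d2 x = 0) (hy2 : d2 y = 1)
    (hI : I * (1 + x * y) = 1) (hreg : ∀ a : A, y * a = 0 → a = 0)
    {p N : ℕ} (hp : p.Prime) (hN : p = 2 * N + 1) {h : A} (hh : 2 * h = 1)
    (hp2 : (p : A) ^ 2 = 0) (hu : ∀ j : ℕ, 0 < j → j < p → IsUnit (j : A)) :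
    y ^ p ∣ ZZ h N x y := by
  set G : A := ∑ m ∈ range (N + 1), cc h m ^ 2 * (I * T (2 * m) ((x + y) * (1 - x * y) * I ^ 2)
      (x * y * (1 - x ^ 2) * (1 - y ^ 2) * I ^ 4)) with hG
  have hpN : (2 * N + 1 : A) ^ 2 = 0 := by rw [← hp2, hN]; push_cast; ring
  have h1 : LL d1 d2 x y G = 0 := by
    rw [hG, LL_sum]
    refine sum_eq_zero fun m _ => ?_
    rw [LL_const_mul _ _ _ _ _ _ (d_cc d1 hh m) (d_cc d2 hh m),
      LL_T_XY d1 d2 x y I hx1 hy1 hx2 hy2 hI, mul_zero]
  have h2 : LL d1 d2 x y (uu h N x * uu h N y) = 0 := by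
    rw [LL, L1_const_mul d2 y _ _ (d_uu d2 hh N x hx2), mul_comm (uu h N x) (uu h N y),
      L1_const_mul d1 x _ _ (d_uu d1 hh N y hy1), L1_uu d1 hh x hx1, L1_uu d2 hh y hy2, hpN]
    simp
  have h3 : LL d1 d2 x y (G - uu h N x * uu h N y) = 0 := by rw [LL_sub, h1, h2, sub_zero]
  have h4 : y ∣ G - uu h N x * uu h N y := by
    rw [← Ideal.mem_span_singleton, ← Ideal.Quotient.eq_zero_iff_mem]
    set q := Ideal.Quotient.mk (Ideal.span {y}) with hq
    have hy : q y = 0 := Ideal.Quotient.eq_zero_iff_mem.2 (Ideal.mem_span_singleton_self y)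
    have hI' : q I = 1 := by
      have := congrArg q hI
      simpa [hy] using this
    have : q (uu h N y) = 1 := by
      rw [map_uu, hy, uu, sum_range_succ']; simp [cc_zero]
    rw [map_sub, map_mul, this, hG, map_sum, map_uu, mul_one, uu, ← sum_sub_distrib]
    refine sum_eq_zero fun m _ => ?_
    simp [map_T, map_cc, hy, hI', T_zero_right]
  have h5 := LL_dvd d1 d2 x y hy1 hy2 hreg p hu _ h3 h4 (2 * N) (by omega)
  rw [← hN] at h5
  obtain ⟨K, hK⟩ := h5
  have h6 : (1 + x * y) * Psi h N x y = (1 + x * y) ^ (4 * N + 2) * G := by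
    rw [hG, Psi, mul_sum, mul_sum]
    refine sum_congr rfl fun m hm => ?_
    have hm' : m ≤ N := by have := mem_range.1 hm; omega
    rw [mul_comm _ (I ^ 2), mul_comm _ (I ^ 4), show I ^ 4 = (I ^ 2) ^ 2 by ring, T_scale]
    have e : (1 + x * y) ^ (4 * N + 2) = (1 + x * y) ^ (4 * (N - m)) * (1 + x * y)
        * ((1 + x * y) * ((1 + x * y) ^ 2) ^ (2 * m)) := by
      rw [← pow_mul, ← pow_succ, ← pow_succ', ← pow_add]; congr 1; omega
    have e2 : (I ^ 2) ^ (2 * m) * ((1 + x * y) ^ 2) ^ (2 * m) = 1 := by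
      rw [← mul_pow, ← mul_pow, hI]; simp
    rw [e]
    generalize T (2 * m) ((x + y) * (1 - x * y)) (x * y * (1 - x ^ 2) * (1 - y ^ 2)) = t
    generalize (1 + x * y) ^ (4 * (N - m)) = w
    generalize ((1 + x * y) ^ 2) ^ (2 * m) = v at *
    generalize (I ^ 2) ^ (2 * m) = v' at *
    linear_combination (-(cc h m ^ 2 * t * w * (1 + x * y))) * hI
      - (cc h m ^ 2 * t * w * (1 + x * y) * (I * (1 + x * y))) * e2
  obtain ⟨r, hr⟩ := exists_add_pow_prime_eq hp (1 : A) (x * y)
  have e7 : (1 + x * y) ^ (4 * N + 2) = ((1 + x * y) ^ p) ^ 2 := by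
    rw [← pow_mul]; congr 1; omega
  unfold ZZ
  rw [h6, e7, ← hN, hr, mul_pow x y p, one_pow]
  refine ⟨(1 + x ^ p * y ^ p + p * 1 * (x * y) * r) ^ 2 * K - x ^ p * (ut h N x * ut h N y)
    + (2 * x ^ p + x ^ p * x ^ p * y ^ p + 2 * x ^ p * (p * x * y * r)) * (uu h N x * uu h N y), ?_⟩
  linear_combination (1 + x ^ p * y ^ p + p * 1 * (x * y) * r) ^ 2 * hK
    + (x * y * r) ^ 2 * (uu h N x * uu h N y) * hp2

variable {R : Type*} [CommRing R]

def mkDer {A : Type*} [CommRing A] (d : A →+ A) (h : ∀ a b, d (a * b) = a * d b + b * d a) :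
    Derivation ℤ A A :=
  Derivation.mk' d.toIntLinearMap (fun a b => by simpa using h a b)

theorem mkDer_apply {A : Type*} [CommRing A] (d : A →+ A)
    (h : ∀ a b, d (a * b) = a * d b + b * d a) (a : A) : mkDer d h a = d a := rfl

noncomputable def dP0 : PowerSeries (Polynomial R) →+ PowerSeries (Polynomial R) where
  toFun := fun f => PowerSeries.mk fun n => Polynomial.derivative (PowerSeries.coeff n f)
  map_zero' := by ext; simp
  map_add' := by intro f g; ext; simp

theorem coeff_dP0 (f : PowerSeries (Polynomial R)) (n : ℕ) :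
    PowerSeries.coeff n (dP0 f) = Polynomial.derivative (PowerSeries.coeff n f) := by
  simp [dP0]

theorem dP0_mul (f g : PowerSeries (Polynomial R)) : dP0 (f * g) = f * dP0 g + g * dP0 f := by
  ext1 n
  simp only [coeff_dP0, map_add, PowerSeries.coeff_mul, Polynomial.derivative_sum,
    Polynomial.derivative_mul, sum_add_distrib]
  rw [add_comm]
  congr 1
  rw [← Finset.Nat.sum_antidiagonal_swap]
  refine sum_congr rfl fun i _ => ?_
  simp [mul_comm]

noncomputable def dY0 : PowerSeries R →+ PowerSeries R :=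
  (PowerSeries.derivative R).toLinearMap.toAddMonoidHom

theorem dY0_mul (f g : PowerSeries R) : dY0 (f * g) = f * dY0 g + g * dY0 f := by
  simp [dY0, Derivation.leibniz]

theorem dY0_C (a : R) : dY0 (PowerSeries.C a) = 0 := by simp [dY0]

theorem dY0_X : dY0 (PowerSeries.X : PowerSeries R) = 1 := by simp [dY0]

theorem ZZ_dvd_series {p N : ℕ} (hp : p.Prime) (hN : p = 2 * N + 1) {h : R} (hh : 2 * h = 1)
    (hp2 : (p : R) ^ 2 = 0) (hu : ∀ j : ℕ, 0 < j → j < p → IsUnit (j : R)) (x : R) :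
    (PowerSeries.X : PowerSeries R) ^ p ∣
      ZZ (PowerSeries.C h) N (PowerSeries.C x) PowerSeries.X := by
  let φ : R →+* PowerSeries (Polynomial R) := PowerSeries.C.comp Polynomial.C
  let x0 : PowerSeries (Polynomial R) := PowerSeries.C Polynomial.X
  have hI := PowerSeries.invOfUnit_mul (1 + x0 * PowerSeries.X) 1 (by simp)
  have := ZZ_dvd_abs (mkDer dP0 dP0_mul)
    (mkDer dY0 dY0_mul) x0
    PowerSeries.X _
    (by
      ext1 n; rw [mkDer_apply, coeff_dP0]
      simp only [x0, PowerSeries.coeff_C, PowerSeries.coeff_one]; split_ifs <;> simp)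
    (by ext1 n; rw [mkDer_apply, coeff_dP0]; simp only [PowerSeries.coeff_X]; split_ifs <;> simp)
    (dY0_C _) dY0_X hI
    (fun a ha => PowerSeries.X_mul_cancel (by rw [ha, mul_zero])) hp hN (h := φ h)
    (by rw [← map_ofNat φ 2, ← map_mul, hh, map_one])
    (by rw [← map_natCast φ, ← map_pow, hp2, map_zero])
    (fun j h1 h2 => by rw [← map_natCast φ]; exact (hu j h1 h2).map φ)
  have h2 := map_dvd (PowerSeries.map (Polynomial.evalRingHom x)) this
  rw [map_ZZ] at h2
  simpa [φ, x0] using h2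

theorem ZZ_dvd_poly {p N : ℕ} (hp : p.Prime) (hN : p = 2 * N + 1) {h : R} (hh : 2 * h = 1)
    (hp2 : (p : R) ^ 2 = 0) (hu : ∀ j : ℕ, 0 < j → j < p → IsUnit (j : R)) (x : R) :
    (Polynomial.X : Polynomial R) ^ p ∣
      ZZ (Polynomial.C h) N (Polynomial.C x) Polynomial.X := by
  have h1 := ZZ_dvd_series hp hN hh hp2 hu x
  have h2 := map_ZZ (Polynomial.coeToPowerSeries.ringHom (R := R)) (Polynomial.C h) N
    (Polynomial.C x) Polynomial.X
  simp only [Polynomial.coeToPowerSeries.ringHom_apply, Polynomial.coe_C, Polynomial.coe_X] at h2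
  rw [← h2, PowerSeries.X_pow_dvd_iff] at h1
  rw [Polynomial.X_pow_dvd_iff]
  intro d hd
  simpa using h1 d hd

open LaurentPolynomial in
theorem laurent_aux (B B2 : Polynomial R) (e : R)
    (h : LaurentPolynomial.T 1 * Polynomial.toLaurent B
      = LaurentPolynomial.C e * invert (Polynomial.toLaurent B2)) : B = 0 := by
  have key : ∀ P : Polynomial R, ∃ a : R,
      trunc (LaurentPolynomial.C e * invert (Polynomial.toLaurent P)) = Polynomial.C a := by
    intro P
    induction P using Polynomial.induction_on' with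
    | add P Q hP hQ =>
      obtain ⟨a, ha⟩ := hP
      obtain ⟨b, hb⟩ := hQ
      exact ⟨a + b, by rw [map_add, map_add, mul_add, map_add, ha, hb, map_add]⟩
    | monomial n a =>
      rw [Polynomial.toLaurent_C_mul_T, map_mul invert, invert_C, invert_T, ← mul_assoc,
        ← map_mul LaurentPolynomial.C, trunc_C_mul_T]
      split_ifs with hn
      · have : n = 0 := by omega
        subst this
        exact ⟨e * a, by simp⟩
      · exact ⟨0, by simp⟩
  obtain ⟨a, ha⟩ := key B2
  rw [← h, ← Polynomial.toLaurent_X, ← map_mul, Polynomial.trunc_toLaurent] at ha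
  ext n
  have := congrArg (fun P => Polynomial.coeff P (n + 1)) ha
  simpa [Polynomial.coeff_C] using this

theorem ZZ_eq_zero {p N : ℕ} (hp : p.Prime) (hN : p = 2 * N + 1) {h : R} (hh : 2 * h = 1)
    (hp2 : (p : R) ^ 2 = 0) (hu : ∀ j : ℕ, 0 < j → j < p → IsUnit (j : R)) {x x' : R}
    (hx : x * x' = 1) (y : R) : ZZ h N x y = 0 := by
  obtain ⟨B, hB⟩ := ZZ_dvd_poly hp hN hh hp2 hu x
  obtain ⟨B2, hB2⟩ := ZZ_dvd_poly hp hN hh hp2 hu x'
  have hB0 : B = 0 := by
    let C' : R →+* LaurentPolynomial R := LaurentPolynomial.C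
    have e1 := congrArg Polynomial.toLaurent hB
    have e2 := congrArg (fun P => LaurentPolynomial.invert (Polynomial.toLaurent P)) hB2
    rw [map_ZZ] at e1
    have e3 := map_ZZ (((LaurentPolynomial.invert (R := R)).toRingEquiv.toRingHom).comp
      Polynomial.toLaurent) (Polynomial.C h) N (Polynomial.C x') Polynomial.X
    simp only [RingHom.comp_apply, RingEquiv.toRingHom_eq_coe, RingHom.coe_coe,
      AlgEquiv.coe_ringEquiv] at e3
    rw [e3] at e2
    simp only [Polynomial.toLaurent_C, Polynomial.toLaurent_X, map_mul, map_pow,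
      LaurentPolynomial.invert_C, LaurentPolynomial.invert_T] at e1 e2
    have hT : (LaurentPolynomial.T 1 : LaurentPolynomial R) * LaurentPolynomial.T (-1) = 1 := by
      rw [← LaurentPolynomial.T_add]; simp
    have e4 := ZZ_symm hp hN (h := C' h) (by rw [← map_ofNat C' 2, ← map_mul, hh, map_one])
      (by rw [← map_natCast C', ← map_pow, hp2, map_zero]) (x := C' x) (x' := C' x')
      (by rw [← map_mul, hx, map_one]) hT
    simp only [C'] at e4
    rw [e1, e2] at e4
    apply laurent_aux B B2 (x ^ (4 * N + 1))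
    have hT2 : (LaurentPolynomial.T 1 : LaurentPolynomial R) ^ (2 * N)
      * LaurentPolynomial.T (-1) ^ (2 * N) = 1 := by rw [← mul_pow, hT, one_pow]
    have hT3 : (LaurentPolynomial.T 1 : LaurentPolynomial R) ^ (2 * N + 1)
      * LaurentPolynomial.T (-1) ^ (2 * N + 1) = 1 := by rw [← mul_pow, hT, one_pow]
    rw [hN, mul_pow, show 4 * N + 1 = 2 * N + (2 * N + 1) by ring,
      pow_add (LaurentPolynomial.T 1) (2 * N) (2 * N + 1)] at e4
    rw [map_pow, show 4 * N + 1 = 2 * N + (2 * N + 1) by ring]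
    generalize LaurentPolynomial.invert (Polynomial.toLaurent B2) = W at *
    generalize Polynomial.toLaurent B = V at *
    generalize LaurentPolynomial.C x ^ (2 * N + (2 * N + 1)) = c at *
    generalize (LaurentPolynomial.T (-1) : LaurentPolynomial R) = t' at *
    generalize (LaurentPolynomial.T 1 : LaurentPolynomial R) = t at *
    linear_combination t' ^ (2 * N) * e4 - t * V * hT2 + c * W * hT2
      + c * W * t ^ (2 * N) * t' ^ (2 * N) * hT3
  have := congrArg (Polynomial.evalRingHom y) hB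
  rw [map_ZZ, hB0] at this
  simpa using this

end Pool.Agent.Lib.MP_4af24b_nt
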