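import Pool.Agent.Lib.MP_4af24b_nt.Curve
import Pool.Agent.Lib.MP_4af24b_nt.Two2

set_option linter.unusedSimpArgs false
set_option linter.unusedSectionVars false

namespace Pool.Agent.Lib.MP_4af24b_nt

open Finset

def Phi {A : Type*} [CommRing A] (h b : A) (N : ℕ) : A :=
  ∑ m ∈ range (N + 1), cc h m ^ 2 * T (2 * m) b 1 * h ^ (4 * m)

theorem Psi_Phi {A : Type*} [CommRing A] {h b x y : A} (hh : 2 * h = 1) (N : ℕ)
    (e1 : 4 * ((x + y) * (1 - x * y)) = -(b * (1 + x * y) ^ 2))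
    (e2 : 16 * (x * y * (1 - x ^ 2) * (1 - y ^ 2)) = (1 + x * y) ^ 4) :
    Psi h N x y = (1 + x * y) ^ (4 * N) * Phi h b N := by
  have f1 : (x + y) * (1 - x * y) = (-(h ^ 2 * (1 + x * y) ^ 2)) * b := by
    linear_combination h ^ 2 * e1 - (x + y) * (1 - x * y) * (2 * h + 1) * hh
  have f2 : x * y * (1 - x ^ 2) * (1 - y ^ 2) = (-(h ^ 2 * (1 + x * y) ^ 2)) ^ 2 * 1 := by
    linear_combination h ^ 4 * e2
      - (x * y * (1 - x ^ 2) * (1 - y ^ 2)) * (2 * h + 1) * (4 * h ^ 2 + 1) * hh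
  unfold Psi Phi
  rw [mul_sum]
  refine sum_congr rfl fun m hm => ?_
  have hm' : m ≤ N := by have := mem_range.1 hm; omega
  rw [f1, f2, T_scale, show 4 * N = 4 * m + 4 * (N - m) by omega, pow_add, pow_mul _ 2 m, neg_sq,
    pow_mul _ 4 m, pow_mul _ 4 m, show (h ^ 2 * (1 + x * y) ^ 2) ^ 2 = h ^ 4 * (1 + x * y) ^ 4 by
      ring, mul_pow]
  ring

variable {O k : Type*} [CommRing O] [IsDomain O] [CharZero O] [Field k] {p N : ℕ} {π : O →+* k}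

theorem Bs.ZZ_dvd (B : Bs p N π) {h : O} (hh : 2 * h = 1) {x x' : O} (hx : x * x' = 1) (y : O) :
    (p : O) ^ 2 ∣ ZZ h N x y := by
  rw [← Ideal.mem_span_singleton, ← Ideal.Quotient.eq_zero_iff_mem, map_ZZ]
  set q := Ideal.Quotient.mk (Ideal.span {(p : O) ^ 2})
  refine ZZ_eq_zero B.hp B.hN (by rw [← map_ofNat q 2, ← map_mul, hh, map_one]) ?_ ?_
    (x' := q x') (by rw [← map_mul, hx, map_one]) _
  · rw [← map_natCast q, ← map_pow, Ideal.Quotient.eq_zero_iff_mem]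
    exact Ideal.mem_span_singleton_self _
  · intro j h1 h2
    rw [← map_natCast q]
    exact (B.nat_unit fun hd => absurd (Nat.le_of_dvd h1 hd) (by omega)).map q

theorem Bs.sq_cong (B : Bs p N π) {a b : O} (h : (p : O) ^ 2 ∣ a ^ 2 - b ^ 2) (h1 : π a = π b)
    (h2 : π b ≠ 0) : (p : O) ^ 2 ∣ a - b := by
  apply B.dvd_of_mul (a := a + b)
  · rw [map_add, h1, ← two_mul]; exact mul_ne_zero B.two h2
  · rwa [← sq_sub_sq]

theorem dlem {A : Type*} [CommRing A] {x y l m m3 μ1 μy : A} (a2 : l * y = -1)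
    (a3 : m * m3 = -3) (a4 : x ^ 2 * μ1 = m * (l - x)) (a5 : l ^ 2 * μy = m3 * (x - l)) :
    m * (l - x) * μy = 3 * (1 + x * y) ^ 2 ∧ μy * m * l = 3 * (1 + x * y) ∧
      μ1 * (m3 * (x - l)) * (x * y) ^ 2 = 3 * (1 + x * y) ^ 2 := by
  refine ⟨?_, ?_, ?_⟩ <;> grind

theorem Bs.assemble (B : Bs p N π) {h : O} (hh : 2 * h = 1) (h3 : (3 : k) ≠ 0)
    {b x y x1 l m m3 μ1 μy x' y' l' m' m3' μ1' μy' v : O}
    (e1 : 4 * ((x + y) * (1 - x * y)) = -(b * (1 + x * y) ^ 2))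
    (e2 : 16 * (x * y * (1 - x ^ 2) * (1 - y ^ 2)) = (1 + x * y) ^ 4)
    (a1 : x * x1 = -1) (a2 : l * y = -1) (a3 : m * m3 = -3)
    (a4 : x ^ 2 * μ1 = m * (l - x)) (a5 : l ^ 2 * μy = m3 * (x - l))
    (b2 : l' * y' = -1) (b3 : m' * m3' = -3)
    (b4 : x' ^ 2 * μ1' = m' * (l' - x')) (b5 : l' ^ 2 * μy' = m3' * (x' - l'))
    (fx : π x' = π x ^ p) (fy : π y' = π y ^ p) (fl : π l' = π l ^ p) (fm : π m' = π m ^ p)
    (hD : π (1 + x * y) ≠ 0) (hD' : π (1 + x' * y') ≠ 0) (hv : π v ≠ 0)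
    (c1 : π (uu h N x) = π m ^ (2 * N) * π (uu h N l))
    (c2 : π (uu h N l) = π l ^ (2 * N) * π (uu h N y))
    (H1 : (p : O) ^ 2 ∣ uu h N x ^ 2 * (m * (l - x)) - v * (m' * (l' - x')))
    (H2 : (p : O) ^ 2 ∣ uu h N y ^ 2 * μy - v * μy')
    (H3 : (p : O) ^ 2 ∣ uu h N x1 ^ 2 * μ1 - v * μ1')
    (H4 : (p : O) ^ 2 ∣ uu h N l ^ 2 * (m3 * (x - l)) - v * (m3' * (x' - l'))) :
    (p : O) ^ 2 ∣ Phi h b N - v := by
  have hN := B.hN
  have hZ := B.ZZ_dvd hh (x := x) (x' := -x1) (by linear_combination -a1) y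
  have t1 : ut h N x = x ^ (2 * N) * uu h N x1 := by
    rw [ut_eq h N (x' := -x1) (by linear_combination -a1), uu_eq_ul, uu_eq_ul, neg_sq]
  have t2 : ut h N y = y ^ (2 * N) * uu h N l := by
    rw [ut_eq h N (x' := -l) (by linear_combination -a2), uu_eq_ul, uu_eq_ul, neg_sq]
  have t3 := (B.ker _).2 (uu_ut_mod B.hp hN hh x)
  have t4 := (B.ker _).2 (uu_ut_mod B.hp hN hh y)
  rw [map_sub, sub_eq_zero] at t3 t4
  obtain ⟨g, hg⟩ := exists_add_pow_prime_eq B.hp (1 : O) (x * y)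
  rw [ZZ, Psi_Phi hh N e1 e2, ← hN] at hZ
  have h3' : π 3 ≠ 0 := by rwa [map_ofNat]
  obtain ⟨d1, d3, d5⟩ := dlem a2 a3 a4 a5
  obtain ⟨d2, d4, d6⟩ := dlem b2 b3 b4 b5
  have hx0 : π x ≠ 0 := by
    intro h0; have := congrArg π a1; simp [h0] at this
  have hy0 : π y ≠ 0 := by
    intro h0; have := congrArg π a2; simp [h0] at this
  have fs : π (x' * y') = π (x * y) ^ p := by rw [map_mul, map_mul, mul_pow, fx, fy]
  have hs : π (x * y) ≠ 0 := by rw [map_mul]; exact mul_ne_zero hx0 hy0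
  have H2' := (B.ker _).2 ((dvd_pow_self _ two_ne_zero).trans H2)
  generalize uu h N x = ux at *
  generalize uu h N y = uy at *
  generalize uu h N x1 = u1 at *
  generalize uu h N l = ul at *
  generalize ut h N x = tx at *
  generalize ut h N y = ty at *
  generalize Phi h b N = Φ at *
  generalize hs1 : x * y = s at *
  generalize x' * y' = s' at *
  have g0 : π (ux * uy * (1 + s)) = π (v * (1 + s')) := by
    apply mul_left_cancel₀ h3'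
    rw [← map_mul, ← map_mul, mul_left_comm, ← d3, mul_left_comm 3, ← d4]
    simp only [map_mul, map_sub, map_pow, fm, fl, c1, c2] at H2' ⊢
    rw [hN]
    linear_combination π m ^ (2 * N + 1) * π l ^ (2 * N + 1) * H2'
  have g1 : (p : O) ^ 2 ∣ ux * uy * (1 + s) - v * (1 + s') := by
    refine B.sq_cong ?_ g0 (by rw [map_mul]; exact mul_ne_zero hv hD')
    apply B.dvd_of_mul h3'
    obtain ⟨z1, k1⟩ := H1
    obtain ⟨z2, k2⟩ := H2
    exact ⟨z1 * uy ^ 2 * μy + z2 * v * (m' * (l' - x')), by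
      linear_combination uy ^ 2 * μy * k1 + v * (m' * (l' - x')) * k2 - ux ^ 2 * uy ^ 2 * d1
        + v ^ 2 * d2⟩
  have g2 : (p : O) ^ 2 ∣ tx * ty * (1 + s) * s' - v * (1 + s') * s ^ p := by
    refine B.sq_cong ?_ ?_ (by
      rw [map_mul, map_mul, map_pow]; exact mul_ne_zero (mul_ne_zero hv hD') (pow_ne_zero _ hs))
    · apply B.dvd_of_mul h3'
      obtain ⟨z1, k1⟩ := H3
      obtain ⟨z2, k2⟩ := H4
      have e : s ^ p = x ^ (2 * N) * y ^ (2 * N) * s := by rw [hN, ← hs1]; ring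
      rw [t1, t2, e]
      exact ⟨(x ^ (2 * N) * y ^ (2 * N)) ^ 2 * s ^ 2 * s' ^ 2
        * (z1 * ul ^ 2 * (m3 * (x - l)) + z2 * v * μ1'), by
        linear_combination (x ^ (2 * N) * y ^ (2 * N)) ^ 2 * s ^ 2 * s' ^ 2
          * (ul ^ 2 * (m3 * (x - l)) * k1 + v * μ1' * k2)
          - (x ^ (2 * N) * y ^ (2 * N)) ^ 2 * s' ^ 2 * u1 ^ 2 * ul ^ 2 * d5
          + (x ^ (2 * N) * y ^ (2 * N)) ^ 2 * s ^ 2 * v ^ 2 * d6⟩
    · rw [map_mul _ _ (s ^ p), ← g0, map_mul _ _ s', fs]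
      simp only [map_mul, map_pow, t3, t4]
  obtain ⟨χ, hχ⟩ : (p : O) ∣ s' - s ^ p := by rw [← B.ker, map_sub, fs, map_pow, sub_self]
  apply B.dvd_of_mul (a := ((1 + s) ^ p) ^ 2 * s')
    (by rw [map_mul, map_pow, map_pow, fs]; exact mul_ne_zero (pow_ne_zero _ (pow_ne_zero _ hD)) (pow_ne_zero _ hs))
  obtain ⟨z0, k0⟩ := hZ
  obtain ⟨z1, k1⟩ := g1
  obtain ⟨z2, k2⟩ := g2
  have e : (1 + s) * ((1 + s) * (1 + s) ^ (4 * N)) = ((1 + s) ^ p) ^ 2 := by rw [hN]; ring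
  rw [one_pow] at hg
  have hs' : s' = s ^ p + p * χ := by linear_combination hχ
  generalize s ^ p = a at *
  generalize (1 + s) ^ p = Dp at *
  subst hs' hg
  refine ⟨(1 + s) * (a + p * χ) * z0 + (a + p * χ) * (1 + 2 * p * s * g) * z1 + a * z2
    + v * (χ ^ 2 + 2 * s * g * χ * (a + p * χ) - s ^ 2 * g ^ 2 * (a + p * χ)), ?_⟩
  linear_combination (1 + s) * (a + p * χ) * k0 + (a + p * χ) * (1 + 2 * p * s * g) * k1 + a * k2
    - (a + p * χ) * Φ * e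

theorem Bs.assemble0 (B : Bs p N π) {h : O} (hh : 2 * h = 1) {b x y x1 : O}
    (e1 : 4 * ((x + y) * (1 - x * y)) = -(b * (1 + x * y) ^ 2))
    (e2 : 16 * (x * y * (1 - x ^ 2) * (1 - y ^ 2)) = (1 + x * y) ^ 4)
    (a1 : x * x1 = -1) (hD : π (1 + x * y) ≠ 0)
    (H1 : (p : O) ∣ uu h N x) (H2 : (p : O) ∣ uu h N y) : (p : O) ^ 2 ∣ Phi h b N := by
  have hZ := B.ZZ_dvd hh (x := x) (x' := -x1) (by linear_combination -a1) y
  have t3 := (dvd_sub_right H1).1 (uu_ut_mod B.hp B.hN hh x)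
  have t4 := (dvd_sub_right H2).1 (uu_ut_mod B.hp B.hN hh y)
  rw [ZZ, Psi_Phi hh N e1 e2] at hZ
  apply B.dvd_of_mul (a := (1 + x * y) * (1 + x * y) ^ (4 * N))
    (by rw [map_mul, map_pow]; exact mul_ne_zero hD (pow_ne_zero _ hD))
  have g1 : (p : O) ^ 2 ∣ uu h N x * uu h N y := by rw [pow_two]; exact mul_dvd_mul H1 H2
  have g2 : (p : O) ^ 2 ∣ ut h N x * ut h N y := by rw [pow_two]; exact mul_dvd_mul t3 t4
  rw [mul_assoc]
  exact (dvd_sub_left (dvd_add (dvd_add g1 (g2.mul_left _)) (g1.mul_left _))).1 hZ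

structure Fam {L : Type*} [CommRing L] (q : ℕ) (b : ℤ) (s1 s2 s3 : L →+* L) (x m : L) : Prop where
  c11 : ∀ z, s1 (s1 z) = z
  c22 : ∀ z, s2 (s2 z) = z
  c33 : ∀ z, s3 (s3 z) = z
  c21 : ∀ z, s2 (s1 z) = s1 (s2 z)
  c31 : ∀ z, s3 (s1 z) = s1 (s3 z)
  c32 : ∀ z, s3 (s2 z) = s2 (s3 z)
  k1 : x * s1 x = -1
  k2 : s2 x * (1 + x) = 1 - x
  o3 : Odd' (x ^ 2) (s3 x ^ 2) m 1
  o5 : ∃ β, Odd' (x ^ 2) (s2 (s3 x) ^ 2) β q ∧
    β ^ 2 * s2 (s3 (m * (s3 x - x))) = (2 * q + 1) * (m * (s3 x - x))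
  m1 : x ^ 2 * s1 (m * (s3 x - x)) = m * (s3 x - x)
  m2 : (1 + x) ^ 2 * s2 (m * (s3 x - x)) = 2 * (m * (s3 x - x))
  m3 : m * s3 m = -3
  p1 : 4 * ((x + s3 (s1 x)) * (1 - x * s3 (s1 x))) = -(b * (1 + x * s3 (s1 x)) ^ 2)
  p2 : 16 * (x * s3 (s1 x) * (1 - x ^ 2) * (1 - s3 (s1 x) ^ 2)) = (1 + x * s3 (s1 x)) ^ 4

variable {L : Type*} [CommRing L] {q : ℕ} {b : ℤ} {s1 s2 s3 : L →+* L} {x m : L}

def NN (s3 : L →+* L) (x m : L) (φ ψ : L →+* O) (a : ℕ) (e : O) : Prop :=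
  NI (φ x ^ 2) (φ (m * (s3 x - x))) (ψ x ^ 2) (ψ (m * (s3 x - x))) a e

theorem NN.comp {φ ψ χ : L →+* O} {a a' : ℕ} {e e' : O} (h : NN s3 x m φ ψ a e)
    (h' : NN s3 x m ψ χ a' e') : NN s3 x m φ χ (a * a') (e * e') := NI.comp h h'

theorem NN.congr {φ ψ ψ' : L →+* O} {a a' : ℕ} {e e' : O} (h : NN s3 x m φ ψ a e)
    (h1 : ∀ z, ψ z = ψ' z) (h2 : a = a') (h3 : e = e') : NN s3 x m φ ψ' a' e' := by
  rw [← RingHom.ext h1, ← h2, ← h3]; exact h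

theorem Fam.n1 (F : Fam q b s1 s2 s3 x m) (φ : L →+* O) : NN s3 x m φ (φ.comp s1) 1 1 := by
  obtain ⟨f, r, i, d⟩ := iso_one (x := φ x) (x' := φ (s1 x))
    (by rw [← map_mul, F.k1, map_neg, map_one])
  refine ⟨_, f, r, i, d, ?_⟩
  rw [RingHom.comp_apply, ← map_pow, ← map_mul, F.m1]; simp

theorem Fam.n2 (F : Fam q b s1 s2 s3 x m) {i : O} (hi : i ^ 2 = -1) (φ : L →+* O) :
    NN s3 x m φ (φ.comp s2) 2 (-1) := by
  obtain ⟨f, r, j, d⟩ := iso_two (x := φ x) (x' := φ (s2 x)) hi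
    (by simpa using congrArg φ F.k2)
  refine ⟨_, f, r, j, d, ?_⟩
  have := congrArg φ F.m2
  rw [map_mul, map_mul φ 2, map_pow, map_add, map_one, map_ofNat] at this
  rw [RingHom.comp_apply, mul_pow, hi]
  push_cast
  linear_combination -this

theorem Fam.n3 (F : Fam q b s1 s2 s3 x m) (φ : L →+* O) : NN s3 x m φ (φ.comp s3) 3 1 := by
  obtain ⟨f, r, j, d⟩ := (F.o3.map φ).iso
  rw [map_pow, map_pow] at j
  refine ⟨_, f, r, j, d, ?_⟩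
  have := congrArg φ F.m3
  simp only [map_mul, map_neg, map_ofNat, map_sub, RingHom.comp_apply, F.c33] at this ⊢
  push_cast
  linear_combination φ m * (φ x - φ (s3 x)) * this

theorem Fam.n5 (F : Fam q b s1 s2 s3 x m) (φ : L →+* O) :
    NN s3 x m φ (φ.comp (s2.comp s3)) (2 * q + 1) 1 := by
  obtain ⟨β, o, e⟩ := F.o5
  obtain ⟨f, r, j, d⟩ := (o.map φ).iso
  rw [map_pow, map_pow] at j
  refine ⟨_, f, r, j, d, ?_⟩
  have := congrArg φ e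
  rw [map_mul, map_pow] at this
  simp only [RingHom.comp_apply]
  rw [this]; simp [map_ofNat]

theorem Fam.nd (F : Fam q b s1 s2 s3 x m) {i : O} (hi : i ^ 2 = -1) (φ : L →+* O) :
    NN s3 x m φ φ (6 * (2 * q + 1)) (-1) :=
  (((F.n2 hi φ).comp (F.n3 _)).comp (F.n5 _)).congr
    (fun z => by simp [F.c22, F.c33, F.c32]) rfl (by ring)

theorem Fam.units (F : Fam q b s1 s2 s3 x m) (h2 : (2 : k) ≠ 0) (ψ : L →+* k) :
    ψ x ≠ 0 ∧ ψ x ^ 2 ≠ 1 := by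
  have h0 : ∀ ψ : L →+* k, ψ x ≠ 0 := fun ψ h => by
    have := congrArg ψ F.k1; simp [h] at this
  refine ⟨h0 ψ, fun h => ?_⟩
  have e := congrArg ψ F.k2
  have := h0 (ψ.comp s2)
  simp only [map_mul, map_add, map_sub, map_one, RingHom.comp_apply] at e this
  rcases sq_eq_one_iff.1 h with h | h
  · rw [h] at e; exact mul_ne_zero this h2 (by linear_combination e)
  · rw [h] at e; exact h2 (by linear_combination -e)

theorem Fam.unitD (F : Fam q b s1 s2 s3 x m) (h2 : (2 : k) ≠ 0) (ψ : L →+* k) :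
    1 + ψ x * ψ (s3 (s1 x)) ≠ 0 := by
  intro h
  have e := congrArg ψ F.p2
  have u1 := F.units h2 ψ
  have u2 := F.units h2 ((ψ.comp s3).comp s1)
  simp only [map_mul, map_add, map_sub, map_one, map_pow, map_ofNat, RingHom.comp_apply, h]
    at e u2
  refine mul_ne_zero (pow_ne_zero 4 h2) (mul_ne_zero (mul_ne_zero (mul_ne_zero u1.1 u2.1)
    (sub_ne_zero.2 u1.2.symm)) (sub_ne_zero.2 u2.2.symm)) (by linear_combination e)

theorem Fam.unitM (F : Fam q b s1 s2 s3 x m) (h3 : (3 : k) ≠ 0) (ψ : L →+* k) : ψ m ≠ 0 := by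
  intro h
  have := congrArg ψ F.m3
  simp [h, map_ofNat, h3] at this

theorem Fam.unitMu (F : Fam q b s1 s2 s3 x m) (h2 : (2 : k) ≠ 0) (h3 : (3 : k) ≠ 0)
    (ψ : L →+* k) : ψ (m * (s3 x - x)) ≠ 0 := by
  rw [map_mul, map_sub]
  refine mul_ne_zero (F.unitM h3 ψ) fun h => F.unitD h2 ψ ?_
  have := congrArg (fun z => ψ (s3 z)) F.k1
  simp only [map_mul, map_neg, map_one] at this
  linear_combination this - ψ (s3 (s1 x)) * h

theorem Fam.inert (F : Fam q b s1 s2 s3 x m) (B : Bs p N π) (h3 : (3 : k) ≠ 0) {i h : O}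
    (hi : i ^ 2 = -1) (hh : 2 * h = 1) (φ : L →+* O)
    (hD : (-((6 * (2 * q + 1) : ℕ) : k)) ^ N = -1) : (p : O) ^ 2 ∣ Phi h b N := by
  have key : ∀ ψ : L →+* O, (p : O) ∣ uu h N (ψ x) := fun ψ => by
    rw [uu_eq_ul]
    exact B.inert (F.nd hi ψ) (F.unitMu B.two h3 (π.comp ψ)) hD hh
  refine B.assemble0 hh (x := φ x) (y := φ (s3 (s1 x))) (x1 := φ (s1 x))
    (by simpa [map_ofNat] using congrArg φ F.p1) (by simpa [map_ofNat] using congrArg φ F.p2)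
    (by simpa using congrArg φ F.k1) (by simpa using F.unitD B.two (π.comp φ)) (key φ)
    (key ((φ.comp s3).comp s1))

theorem Fam.split (F : Fam q b s1 s2 s3 x m) (B : Bs p N π) (h3 : (3 : k) ≠ 0) {i h : O}
    (hi : i ^ 2 = -1) (hh : 2 * h = 1) (φ : L →+* O) (τ : L →+* L)
    (hτ : ∀ z, π (φ (τ z)) = π (φ z) ^ p) (t1 : ∀ z, s1 (τ z) = τ (s1 z))
    (t3 : ∀ z, s3 (τ z) = τ (s3 z)) {m1 m2 : ℕ} {e : O} (he : e * e = 1)
    (hm : m1 * m2 = 6 * (2 * q + 1)) (hm1 : ¬p ∣ m1) (hm2 : ¬p ∣ m2)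
    (g1 : ∀ ψ : L →+* O, NN s3 x m ψ (ψ.comp τ) m1 e)
    (g2 : ∀ ψ : L →+* O, NN s3 x m ψ (ψ.comp τ) m2 (-e))
    (hU : ∀ ψ : L →+* k, ψ x ^ 2 + 1 ≠ 0 ∧ ψ x ^ 2 - 2 ≠ 0 ∧ 2 * ψ x ^ 2 - 1 ≠ 0 ∧
      (ψ x ^ 2) ^ 2 - ψ x ^ 2 + 1 ≠ 0)
    (u v : ℤ) (huv : (p : ℤ) = m1 * u ^ 2 + m2 * v ^ 2) :
    (p : O) ^ 2 ∣ Phi h b N - e * (4 * m1 * u ^ 2 - 2 * p) := by
  have key : ∀ ψ : L →+* O, (∀ z, π (ψ (τ z)) = π (ψ z) ^ p) →
      (p : O) ^ 2 ∣ uu h N (ψ x) ^ 2 * ψ (m * (s3 x - x))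
        - e * (4 * m1 * u ^ 2 - 2 * p) * ψ (τ (m * (s3 x - x))) := fun ψ hψ => by
    rw [uu_eq_ul]
    have w1 := F.units B.two ((π.comp ψ).comp τ)
    have w2 := hU ((π.comp ψ).comp τ)
    simp only [RingHom.comp_apply, ← map_pow π] at w1 w2
    exact B.split hm1 (Nat.pos_of_ne_zero (by rintro rfl; simp at hm2)) he (g1 ψ) (g2 ψ)
      (hm ▸ F.nd hi ψ) (F.unitMu B.two h3 (π.comp ψ)) (F.unitMu B.two h3 ((π.comp ψ).comp τ))
      u v huv (by simp only [RingHom.comp_apply, map_pow, hψ]; ring)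
      (by rw [map_pow]; exact pow_ne_zero _ w1.1) w1.2 w2.1 w2.2.1 w2.2.2.1
      (by rw [← map_pow π]; exact w2.2.2.2) hh
  have H1 := key φ hτ
  have H2 := key ((φ.comp s3).comp s1) (fun z => by simp [t1, t3, hτ])
  have H3 := key (φ.comp s1) (fun z => by simp [t1, hτ])
  have H4 := key (φ.comp s3) (fun z => by simp [t3, hτ])
  have hu : ¬(p : ℤ) ∣ u := by
    rintro ⟨w, rfl⟩
    have hp := Nat.prime_iff_prime_int.1 B.hp
    have h1 : (p : ℤ) ∣ m2 * v ^ 2 := ⟨1 - m1 * p * w ^ 2, by linear_combination -huv⟩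
    obtain ⟨w', rfl⟩ := hp.dvd_of_dvd_pow
      ((hp.dvd_or_dvd h1).resolve_left (fun h => hm2 (Int.natCast_dvd_natCast.1 h)))
    have h2 : (p : ℤ) * (p * (m1 * w ^ 2 + m2 * w' ^ 2)) = p * 1 := by linear_combination -huv
    exact hp.not_isUnit (IsUnit.of_mul_eq_one _ (mul_left_cancel₀ hp.ne_zero h2))
  have hv : π (e * (4 * m1 * u ^ 2 - 2 * p)) ≠ 0 := by
    have hek : π e ≠ 0 := by
      intro h; have := congrArg π he; simp [h] at this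
    simp only [map_mul, map_sub, map_pow, map_ofNat, map_natCast, map_intCast, B.pk, mul_zero,
      sub_zero]
    refine mul_ne_zero hek (mul_ne_zero (mul_ne_zero ?_ (B.natk hm1)) (pow_ne_zero _ (B.intk hu)))
    rw [show (4 : k) = 2 * 2 by norm_num]; exact mul_ne_zero B.two B.two
  obtain ⟨f3, r3, i3, -⟩ := (F.o3.map φ).iso
  rw [map_pow, map_pow] at i3
  have kl : φ (s3 x) * φ (s3 (s1 x)) = -1 := by simpa using congrArg (fun z => φ (s3 z)) F.k1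
  obtain ⟨f1, r1, i1, -⟩ := iso_one kl
  simp only [RingHom.comp_apply, t1, t3] at H2 H3 H4
  refine B.assemble hh h3 (x := φ x) (y := φ (s3 (s1 x))) (x1 := φ (s1 x)) (l := φ (s3 x))
    (m := φ m) (m3 := φ (s3 m)) (μ1 := φ (s1 (m * (s3 x - x))))
    (μy := φ (s3 (s1 (m * (s3 x - x))))) (x' := φ (τ x)) (y' := φ (τ (s3 (s1 x))))
    (l' := φ (τ (s3 x))) (m' := φ (τ m)) (m3' := φ (τ (s3 m)))
    (μ1' := φ (τ (s1 (m * (s3 x - x))))) (μy' := φ (τ (s3 (s1 (m * (s3 x - x))))))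
    (by simpa [map_ofNat] using congrArg φ F.p1) (by simpa [map_ofNat] using congrArg φ F.p2)
    (by simpa using congrArg φ F.k1) kl (by simpa [map_ofNat] using congrArg φ F.m3)
    (by simpa using congrArg φ F.m1)
    (by simpa [F.c33] using congrArg (fun z => φ (s3 z)) F.m1)
    (by simpa using congrArg (fun z => φ (τ (s3 z))) F.k1)
    (by simpa [map_ofNat] using congrArg (fun z => φ (τ z)) F.m3)
    (by simpa using congrArg (fun z => φ (τ z)) F.m1)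
    (by simpa [F.c33] using congrArg (fun z => φ (τ (s3 z))) F.m1)
    (hτ _) (hτ _) (hτ _) (hτ _) (by simpa using F.unitD B.two (π.comp φ))
    (by simpa using F.unitD B.two ((π.comp φ).comp τ)) hv
    (by rw [uu_eq_ul, uu_eq_ul]; exact B.cartier' i3 (F.unitM h3 (π.comp φ)) hh)
    (by rw [uu_eq_ul, uu_eq_ul]; exact B.cartier' i1 (F.units B.two ((π.comp φ).comp s3)).1 hh)
    (by simpa using H1) H2 H3 (by simpa [F.c33] using H4)

theorem Fam.split' (F : Fam q b s1 s2 s3 x m) (B : Bs p N π) (h3 : (3 : k) ≠ 0) {i h : O}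
    (hi : i ^ 2 = -1) (hh : 2 * h = 1) (φ : L →+* O) (τ : L →+* L)
    (hτ : (∀ z, π (φ (τ z)) = π (φ z) ^ p) ∨ (∀ z, π (φ (τ (s1 z))) = π (φ z) ^ p))
    (t1 : ∀ z, s1 (τ z) = τ (s1 z))
    (t3 : ∀ z, s3 (τ z) = τ (s3 z)) {m1 m2 : ℕ} {e : O} (he : e * e = 1)
    (hm : m1 * m2 = 6 * (2 * q + 1)) (hm1 : ¬p ∣ m1) (hm2 : ¬p ∣ m2)
    (g1 : ∀ ψ : L →+* O, NN s3 x m ψ (ψ.comp τ) m1 e)
    (g2 : ∀ ψ : L →+* O, NN s3 x m ψ (ψ.comp τ) m2 (-e))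
    (hU : ∀ ψ : L →+* k, ψ x ^ 2 + 1 ≠ 0 ∧ ψ x ^ 2 - 2 ≠ 0 ∧ 2 * ψ x ^ 2 - 1 ≠ 0 ∧
      (ψ x ^ 2) ^ 2 - ψ x ^ 2 + 1 ≠ 0)
    (u v : ℤ) (huv : (p : ℤ) = m1 * u ^ 2 + m2 * v ^ 2) :
    (p : O) ^ 2 ∣ Phi h b N - e * (4 * m1 * u ^ 2 - 2 * p) := by
  rcases hτ with hτ | hτ
  · exact F.split B h3 hi hh φ τ hτ t1 t3 he hm hm1 hm2 g1 g2 hU u v huv
  · exact F.split B h3 hi hh φ (τ.comp s1) hτ (fun z => by simp [t1])
      (fun z => by simp [t3, F.c31]) he hm hm1 hm2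
      (fun ψ => ((g1 ψ).comp (F.n1 _)).congr (fun _ => rfl) (mul_one _) (mul_one _))
      (fun ψ => ((g2 ψ).comp (F.n1 _)).congr (fun _ => rfl) (mul_one _) (mul_one _)) hU u v huv

def Fr (π : O →+* k) (p : ℕ) (φ : L →+* O) (s1 τ : L →+* L) : Prop :=
  (∀ z, π (φ (τ z)) = π (φ z) ^ p) ∨ (∀ z, π (φ (τ (s1 z))) = π (φ z) ^ p)

theorem Fam.main (F : Fam q b s1 s2 s3 x m) (B : Bs p N π) (hp : ¬p ∣ 6 * (2 * q + 1)) {i h : O}
    (hi : i ^ 2 = -1) (hh : 2 * h = 1) (φ : L →+* O)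
    (hU : ∀ ψ : L →+* k, ψ x ^ 2 + 1 ≠ 0 ∧ ψ x ^ 2 - 2 ≠ 0 ∧ 2 * ψ x ^ 2 - 1 ≠ 0 ∧
      (ψ x ^ 2) ^ 2 - ψ x ^ 2 + 1 ≠ 0) (u v : ℤ) :
    (Fr π p φ s1 (RingHom.id L) → (p : ℤ) = u ^ 2 + 6 * (2 * q + 1) * v ^ 2 →
      (p : O) ^ 2 ∣ Phi h b N - (4 * u ^ 2 - 2 * p : ℤ)) ∧
    (Fr π p φ s1 s3 → (p : ℤ) = 3 * u ^ 2 + 2 * (2 * q + 1) * v ^ 2 →
      (p : O) ^ 2 ∣ Phi h b N - (12 * u ^ 2 - 2 * p : ℤ)) ∧
    (Fr π p φ s1 s2 → (p : ℤ) = 2 * u ^ 2 + 3 * (2 * q + 1) * v ^ 2 →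
      (p : O) ^ 2 ∣ Phi h b N - (2 * p - 8 * u ^ 2 : ℤ)) ∧
    (Fr π p φ s1 (s2.comp s3) → (p : ℤ) = 6 * u ^ 2 + (2 * q + 1) * v ^ 2 →
      (p : O) ^ 2 ∣ Phi h b N - (2 * p - 24 * u ^ 2 : ℤ)) := by
  have nd : ∀ a c : ℕ, a * c = 6 * (2 * q + 1) → ¬p ∣ a ∧ ¬p ∣ c := fun a c e =>
    ⟨fun h => hp (e ▸ h.mul_right c), fun h => hp (e ▸ h.mul_left a)⟩
  have h3 : (3 : k) ≠ 0 := by
    exact_mod_cast B.natk (nd 3 (2 * (2 * q + 1)) (by ring)).1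
  refine ⟨fun hτ huv => ?_, fun hτ huv => ?_, fun hτ huv => ?_, fun hτ huv => ?_⟩
  · have := F.split' B h3 hi hh φ _ hτ (fun _ => rfl) (fun _ => rfl) (m1 := 1)
      (m2 := 6 * (2 * q + 1)) (e := 1) (by ring) (by ring) (nd _ _ (one_mul _)).1
      (nd _ _ (one_mul _)).2
      (fun ψ => ((F.n1 ψ).comp (F.n1 _)).congr (fun z => by simp [F.c11]) rfl (by ring))
      (fun ψ => (F.nd hi ψ).congr (fun _ => rfl) rfl rfl) hU u v (by rw [huv]; push_cast; ring)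
    convert this using 2
    push_cast; ring
  · have := F.split' B h3 hi hh φ _ hτ (fun z => (F.c31 z).symm) (fun _ => rfl) (m1 := 3)
      (m2 := 2 * (2 * q + 1)) (e := 1) (by ring) (by ring) (nd 3 (2 * (2 * q + 1)) (by ring)).1
      (nd 3 _ (by ring)).2 (fun ψ => F.n3 ψ)
      (fun ψ => ((F.n2 hi ψ).comp (F.n5 _)).congr (fun z => by simp [F.c22]) rfl (by ring))
      hU u v (by rw [huv]; push_cast; ring)
    convert this using 2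
    push_cast; ring
  · have := F.split' B h3 hi hh φ _ hτ (fun z => (F.c21 z).symm) F.c32 (m1 := 2)
      (m2 := 3 * (2 * q + 1)) (e := -1) (by ring) (by ring) (nd 2 (3 * (2 * q + 1)) (by ring)).1
      (nd 2 _ (by ring)).2 (fun ψ => F.n2 hi ψ)
      (fun ψ => ((F.n3 ψ).comp (F.n5 _)).congr (fun z => by simp [F.c33, F.c32]) rfl (by ring))
      hU u v (by rw [huv]; push_cast; ring)
    convert this using 2
    push_cast; ring
  · have := F.split' B h3 hi hh φ _ hτ (fun z => by simp [F.c21, F.c31])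
      (fun z => by simp [F.c32]) (m1 := 6)
      (m2 := 2 * q + 1) (e := -1) (by ring) rfl (nd 6 _ rfl).1 (nd 6 _ rfl).2
      (fun ψ => ((F.n2 hi ψ).comp (F.n3 _)).congr (fun _ => rfl) rfl (by ring))
      (fun ψ => (F.n5 ψ).congr (fun _ => rfl) rfl (by ring))
      hU u v (by rw [huv]; push_cast; ring)
    convert this using 2
    push_cast; ring

end Pool.Agent.Lib.MP_4af24b_nt
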