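import Pool.Agent.Lib.MP_4af24b_nt.Cart

set_option linter.unusedSimpArgs false
set_option linter.unusedSectionVars false

namespace Pool.Agent.Lib.MP_4af24b_nt

open Polynomial

variable {O k : Type*} [CommRing O] [IsDomain O] [CharZero O] [Field k] {p N : ℕ} {π : O →+* k}
  {l l' θ : O} {f r : PowerSeries O}

open PowerSeries in
theorem Bs.red_deriv (B : Bs p N π) (h : Iso l l' (p * θ) f r) :
    d⁄dX k (PowerSeries.map π f) = 0 := by
  rw [map_deriv, h.df, map_mul, PowerSeries.map_C, map_mul, map_natCast, B.pk]; simp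

theorem Bs.red_dvd (B : Bs p N π) (h : Iso l l' (p * θ) f r) :
    PowerSeries.X ^ p ∣ PowerSeries.map π f := by
  rw [PowerSeries.X_pow_dvd_iff]
  intro m hm
  rcases m with _ | m
  · simp [h.f0]
  · have := congrArg (PowerSeries.coeff m) (B.red_deriv h)
    rw [PowerSeries.coeff_derivative, map_zero] at this
    refine (mul_eq_zero.1 this).resolve_right ?_
    exact_mod_cast B.natk' (j := m + 1) (by omega) hm

theorem Bs.shape0 (B : Bs p N π) (h : Iso l l' (p * θ) f r) (hf : PowerSeries.map π f ≠ 0)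
    {n d : O[X]} (h0 : d.map π ≠ 0) (e : (d : PowerSeries O) * f = n) (h1 : n.natDegree ≤ p) :
    ∃ c : k, c ≠ 0 ∧ n.map π = C c * X ^ p ∧ π (d.coeff 0) ≠ 0 ∧ derivative (d.map π) = 0 := by
  obtain ⟨φ, hφ⟩ := B.red_dvd h
  have e1 : ((d.map π : k[X]) : PowerSeries k) * PowerSeries.map π f = (n.map π : k[X]) := by
    rw [polynomial_map_coe, polynomial_map_coe, ← map_mul, e]
  have hn : n.map π = C ((n.map π).coeff p) * X ^ p := by
    ext i
    rw [coeff_C_mul_X_pow]
    split_ifs with hi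
    · rw [hi]
    · rcases lt_or_gt_of_ne hi with hi | hi
      · rw [← coeff_coe, ← e1, hφ, mul_left_comm, PowerSeries.coeff_X_pow_mul', if_neg (by omega)]
      · exact coeff_eq_zero_of_natDegree_lt ((natDegree_map_le.trans h1).trans_lt hi)
  generalize (n.map π).coeff p = c at hn
  have e2 : ((d.map π : k[X]) : PowerSeries k) * φ = PowerSeries.C c := by
    apply mul_left_cancel₀ (pow_ne_zero p PowerSeries.X_ne_zero)
    rw [hφ, hn] at e1
    simp only [coe_mul, coe_C, coe_pow, coe_X] at e1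
    linear_combination e1
  have hφ0 : φ ≠ 0 := by rintro rfl; exact hf (by simpa using hφ)
  have hc : c ≠ 0 := by
    rintro rfl
    rw [map_zero] at e2
    exact mul_ne_zero (fun h => h0 (coe_eq_zero_iff.1 h)) hφ0 e2
  refine ⟨c, hc, hn, fun h3 => hc ?_, ?_⟩
  · have := congrArg PowerSeries.constantCoeff e2
    rw [map_mul, constantCoeff_coe, coeff_map, h3] at this
    simpa using this.symm
  · have := congrArg (PowerSeries.derivative k) e1
    rw [Derivation.leibniz, B.red_deriv h, PowerSeries.derivative_coe, PowerSeries.derivative_coe,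
      hn, derivative_C_mul, derivative_X_pow, B.pk] at this
    simp only [smul_zero, zero_add, smul_eq_mul, map_zero, zero_mul, mul_zero, coe_zero] at this
    exact coe_eq_zero_iff.1 ((mul_eq_zero.1 this).resolve_left hf)

theorem Bs.shape (B : Bs p N π) (h : Iso l l' (p * θ) f r) (hf : PowerSeries.map π f ≠ 0)
    (hd : HD f p) : ∃ (n d : O[X]) (c e : k), d.coeff 0 = 1 ∧ (d : PowerSeries O) * f = n ∧
      n.natDegree ≤ p ∧ d.natDegree ≤ p ∧ c ≠ 0 ∧ n.map π = C c * X ^ p ∧
      d.map π = 1 + C e * X ^ p := by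
  obtain ⟨n, d, h0, e, h1, h2⟩ := B.prim hd
  obtain ⟨-, -, -, hu, -⟩ := B.shape0 h hf h0 e h1
  obtain ⟨u, hu'⟩ := (B.unit _ hu).exists_left_inv
  have g0 : (C u * d).coeff 0 = 1 := by rw [coeff_C_mul, hu']
  have g1 : ((C u * d : O[X]) : PowerSeries O) * f = (C u * n : O[X]) := by
    rw [coe_mul, coe_mul, mul_assoc, e]
  have g2 := (natDegree_C_mul_le u n).trans h1
  have g3 := (natDegree_C_mul_le u d).trans h2
  generalize C u * d = d' at *
  generalize C u * n = n' at *
  obtain ⟨c, hc, hn, -, hd'⟩ := B.shape0 h hf (d := d') (fun h => by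
    simpa [g0] using congrArg (fun P => coeff P 0) h) g1 g2
  refine ⟨n', d', c, (d'.map π).coeff p, g0, g1, g2, g3, hc, hn, ?_⟩
  have := B.hp.pos
  ext i
  rw [coeff_add, coeff_C_mul_X_pow, coeff_one]
  rcases i with _ | i
  · simp [g0, this.ne]
  · rw [if_neg (by omega), zero_add]
    split_ifs with hi
    · rw [hi]
    · rcases lt_or_gt_of_ne hi with hi | hi
      · have := congrArg (fun P => coeff P i) hd'
        rw [coeff_derivative, coeff_zero] at this
        refine (mul_eq_zero.1 this).resolve_right ?_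
        exact_mod_cast B.natk' (j := i + 1) (by omega) hi
      · exact coeff_eq_zero_of_natDegree_lt ((natDegree_map_le.trans g3).trans_lt hi)

theorem labels {k : Type*} [Field k] (c e L : k) (hc : c ≠ 0) (L0 : L ≠ 0) (L1 : L ≠ 1)
    (L2 : L + 1 ≠ 0) (L3 : L - 2 ≠ 0) (L4 : 2 * L - 1 ≠ 0) (L5 : L ^ 2 - L + 1 ≠ 0)
    (h1 : e * ((e - c) * (e - L * c)) = 0)
    (h2 : (1 + e) * ((1 + e - c) * (1 + e - L * c)) = 0)
    (h3 : (L + e) * ((L + e - c) * (L + e - L * c)) = 0) : c = 1 ∧ e = 0 := by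
  simp only [mul_eq_zero] at h1 h2 h3
  rcases h1 with h1 | h1 | h1 <;> rcases h2 with h2 | h2 | h2 <;> rcases h3 with h3 | h3 | h3 <;>
    grind

theorem Iso.exE {α : O} (h : Iso l l' α f r) (hα : α ≠ 0) {n d : O[X]}
    (e : (d : PowerSeries O) * f = n) :
    ∃ E : O[X], C α * E = derivative n * d - n * derivative d ∧
      X * Qp l * E ^ 2 = n * (d * ((d - n) * (d - C l' * n))) := by
  have e1 := congrArg (PowerSeries.derivative O) e
  rw [Derivation.leibniz, h.df, PowerSeries.derivative_coe, PowerSeries.derivative_coe,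
    smul_eq_mul, smul_eq_mul] at e1
  have e2 : ((derivative n * d - n * derivative d : O[X]) : PowerSeries O)
      = PowerSeries.C α * (d ^ 2 * r) := by
    rw [coe_sub, coe_mul, coe_mul, ← e1, ← e]; ring
  have : C α ∣ derivative n * d - n * derivative d := by
    rw [C_dvd_iff_dvd_coeff]
    intro i
    rw [← coeff_coe, e2, PowerSeries.coeff_C_mul]
    exact dvd_mul_right _ _
  obtain ⟨E, hE⟩ := this
  refine ⟨E, hE.symm, ?_⟩
  have hC : (PowerSeries.C α : PowerSeries O) ≠ 0 := fun h0 =>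
    hα (by simpa using congrArg PowerSeries.constantCoeff h0)
  rw [hE, coe_mul, coe_C] at e2
  have e3 := mul_left_cancel₀ hC e2
  apply coe_injective O
  have := h.sq
  rw [coe_mul (X * Qp l), coe_gg]
  generalize gg (PowerSeries.C l) PowerSeries.X = G at *
  simp only [coe_mul, coe_pow, coe_sub, coe_C, e3, ← e]
  unfold gg at this
  linear_combination (d : PowerSeries O) ^ 4 * this

theorem top_vanish {E n d : O[X]} (hl : l ≠ 0) (h1 : n.natDegree ≤ p) (h2 : d.natDegree ≤ p)
    (e : X * Qp l * E ^ 2 = n * (d * ((d - n) * (d - C l' * n)))) :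
    n.coeff p * (d.coeff p * ((d.coeff p - n.coeff p) * (d.coeff p - l' * n.coeff p))) = 0 := by
  have tn := Top.of_le h1
  have td := Top.of_le h2
  have t := tn.mul (td.mul ((td.sub tn).mul (td.sub (tn.cmul l'))))
  rw [← e] at t
  rw [← t.2]
  by_cases hE : E = 0
  · simp [hE]
  have hQ : (X * Qp l).natDegree = 3 := by
    have : X * Qp l = C l * X ^ 3 - C (1 + l) * X ^ 2 + X := by
      simp only [Qp, map_add, map_one]; ring
    rw [this]; compute_degree!
  have hQ0 : X * Qp l ≠ 0 := by intro h; rw [h] at hQ; simp at hQ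
  have h3 := t.1
  apply coeff_eq_zero_of_natDegree_lt
  rw [natDegree_mul hQ0 (pow_ne_zero _ hE), hQ, natDegree_pow] at h3 ⊢
  omega

theorem Bs.shape2 (B : Bs p N π) (h : Iso l l' (p * θ) f r) (hθ : π θ ≠ 0)
    (hf : PowerSeries.map π f ≠ 0) (hd : HD f p) (hl : π l' = π l ^ p) (L0 : π l' ≠ 0)
    (L1 : π l' ≠ 1) (L2 : π l' + 1 ≠ 0) (L3 : π l' - 2 ≠ 0) (L4 : 2 * π l' - 1 ≠ 0)
    (L5 : π l' ^ 2 - π l' + 1 ≠ 0) :
    ∃ n d E : O[X], d.coeff 0 = 1 ∧ (d : PowerSeries O) * f = n ∧
      n.natDegree ≤ p ∧ d.natDegree < p ∧ n.map π = X ^ p ∧ d.map π = 1 ∧ n.eval 1 = d.eval 1 ∧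
      C (p * θ) * E = derivative n * d - n * derivative d ∧
      X * Qp l * E ^ 2 = n * (d * ((d - n) * (d - C l' * n))) := by
  obtain ⟨n, d, c, e, d0, he, h1, h2, hc, hn, hd'⟩ := B.shape h hf hd
  have hθ0 : θ ≠ 0 := by rintro rfl; simp at hθ
  obtain ⟨E, hE1, hE2⟩ := h.exE (mul_ne_zero B.p0 hθ0) he
  have l0 : π l ≠ 0 := by intro h0; rw [h0, zero_pow B.hp.ne_zero] at hl; exact L0 hl
  have g1 := top_vanish (by rintro rfl; simp at l0) h1 h2 hE2
  have g2 := congrArg (eval 1) hE2
  have g3 := congrArg (fun P => eval (π l)⁻¹ (P.map π)) hE2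
  have np : π (n.coeff p) = c := by rw [← coeff_map, hn]; simp
  have dp : π (d.coeff p) = e := by
    rw [← coeff_map, hd']; simp [coeff_one, B.hp.ne_zero]
  have n1 : π (n.eval 1) = c := by
    rw [← eval₂_at_one, ← eval_map, hn]; simp
  have d1 : π (d.eval 1) = 1 + e := by
    rw [← eval₂_at_one, ← eval_map, hd']; simp
  simp only [Qp, eval_mul, eval_sub, eval_one, eval_X, eval_C, sub_self, zero_mul,
    mul_zero] at g2
  simp only [Qp, Polynomial.map_mul, Polynomial.map_sub, Polynomial.map_one, map_X, map_C, hn, hd',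
    eval_mul, eval_sub, eval_add, eval_pow, eval_one, eval_X, eval_C, mul_inv_cancel₀ l0,
    sub_self, zero_mul, mul_zero, inv_pow, ← hl] at g3
  have g1' := congrArg π g1
  have g2' := congrArg π g2
  simp only [map_mul, map_sub, map_zero, np, dp, n1, d1] at g1' g2'
  obtain ⟨rfl, rfl⟩ := labels c e (π l') hc L0 L1 L2 L3 L4 L5
    ((mul_eq_zero.1 g1').resolve_left hc) ((mul_eq_zero.1 g2'.symm).resolve_left hc) (by
      apply mul_left_cancel₀ hc
      field_simp at g3
      linear_combination -g3)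
  have ne : ∀ x : O, π x ≠ 0 → x ≠ 0 := by rintro x hx rfl; simp at hx
  refine ⟨n, d, E, d0, he, h1, ?_, by simpa using hn, by simpa using hd', ?_, hE1, hE2⟩
  · have : d.coeff p = 0 := by
      refine (mul_eq_zero.1 ((mul_eq_zero.1 g1).resolve_left (ne _ ?_))).resolve_right
        (mul_ne_zero (ne _ ?_) (ne _ ?_))
      · simp [np]
      · simp [np, dp]
      · simp [np, dp, L0]
    refine lt_of_le_of_ne h2 fun h3 => ?_
    rw [← h3] at this
    rw [leadingCoeff_eq_zero.1 this] at d0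
    simp at d0
  · have := (mul_eq_zero.1 ((mul_eq_zero.1 ((mul_eq_zero.1 g2.symm).resolve_left
      (ne _ (by simp [n1])))).resolve_left (ne _ (by simp [d1])))).resolve_right
      (ne _ (by simpa [n1, d1, sub_eq_zero] using L1.symm))
    linear_combination -this

end Pool.Agent.Lib.MP_4af24b_nt
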