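import Pool.Agent.Lib.MP_4af24b_nt.Frob

set_option linter.unusedSimpArgs false
set_option linter.unusedSectionVars false

namespace Pool.Agent.Lib.MP_4af24b_nt

open Polynomial Finset

variable {O k : Type*} [CommRing O] [IsDomain O] [CharZero O] [Field k] {p N : ℕ} {π : O →+* k}
  {l l' θ : O} {f r : PowerSeries O}

theorem Bs.map_inverse (B : Bs p N π) (x : O) : π (Ring.inverse x) = (π x)⁻¹ := by
  by_cases hx : π x = 0
  · rw [Ring.inverse_non_unit _ (fun h => (h.map π).ne_zero hx), hx]; simp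
  · apply eq_inv_of_mul_eq_one_left
    rw [← map_mul, Ring.inverse_mul_cancel _ (B.unit _ hx), map_one]

theorem Bs.sum_sg (B : Bs p N π) (l : O) :
    ∑ j ∈ range (4 * N + 1), ((X * Qp (π l)) ^ N).coeff j * ((j : k) + 1)⁻¹
      = 2 * π (sg p N l) := by
  have hN := B.hN
  have hp : (2 * N + 1 : k) = 0 := by rw [← B.pk, hN]; simp
  rw [show 4 * N + 1 = N + p + N by omega, sum_range_add, sum_range_add, sum_eq_zero, zero_add,
    sum_eq_zero (s := range N), add_zero, sg, map_sum, mul_sum]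
  · refine sum_congr rfl fun i _ => ?_
    rw [add_comm N i, coeff_XQ, map_mul, B.map_inverse, ← coeff_map, Polynomial.map_pow, map_Qp]
    have : π (2 * i + 1) = 2 * (((i + N : ℕ) : k) + 1) := by
      simp only [map_add, map_mul, map_ofNat, map_natCast, map_one]
      push_cast; linear_combination -hp
    rw [this, mul_inv, mul_left_comm, ← mul_assoc 2, mul_inv_cancel₀ B.two, one_mul]
  · intro i _
    rw [show N + p + i = (p + i) + N by ring, coeff_XQ, coeff_eq_zero_of_natDegree_lt, zero_mul]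
    have : (Qp (π l)).natDegree ≤ 2 := by unfold Qp; compute_degree
    have := natDegree_pow_le_of_le N this
    omega
  · intro i hi
    rw [mul_pow, coeff_X_pow_mul', if_neg (by simpa using hi), zero_mul]

theorem Bs.nu (B : Bs p N π) (h : Iso l l' (p * θ) f r) (hl : π l' = π l ^ p)
    {n d E : O[X]} (d0 : d.coeff 0 = 1) (he : (d : PowerSeries O) * f = n)
    (h1 : n.natDegree ≤ p) (h2 : d.natDegree < p) (hn : n.map π = X ^ p) (hd : d.map π = 1)
    (h3 : n.eval 1 = d.eval 1) (hE1 : C (p * θ) * E = derivative n * d - n * derivative d)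
    (hE2 : X * Qp l * E ^ 2 = n * (d * ((d - n) * (d - C l' * n)))) :
    ∃ (ν : O) (η : k), PowerSeries.coeff p f = 1 + p * ν ∧ η * η = 1 ∧
      π θ * η * π ((Qp l ^ N).coeff N) = 1 ∧ π ν = -(2 * π θ * η * π (sg p N l)) := by
  have hN := B.hN
  have := B.char
  have : Fact p.Prime := ⟨B.hp⟩
  obtain ⟨n1, hn1⟩ := (B.map_eq_zero (n - X ^ p)).1 (by simp [hn])
  obtain ⟨d1, hd1⟩ := (B.map_eq_zero (d - 1)).1 (by simp [hd])
  have hn1' : n = X ^ p + C (p : O) * n1 := by rw [← hn1]; ring
  have hd1' : d = 1 + C (p : O) * d1 := by rw [← hd1]; ring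
  have hCp : (C (p : O) : O[X]) ≠ 0 := C_ne_zero.2 B.p0
  have a1 : n1.natDegree ≤ p := by
    rw [← natDegree_C_mul B.p0, ← hn1]
    exact (natDegree_sub_le _ _).trans (max_le h1 (by simp))
  have a2 : d1.natDegree < p := by
    rw [← natDegree_C_mul B.p0, ← hd1]
    exact (natDegree_sub_le _ _).trans_lt (max_lt h2 (by simp [B.hp.pos]))
  have a3 : d1.coeff 0 = 0 := by
    apply mul_left_cancel₀ B.p0
    rw [← coeff_C_mul, ← hd1]; simp [d0]
  have a4 : n1.coeff 0 = 0 := by
    apply mul_left_cancel₀ B.p0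
    have := congrArg PowerSeries.constantCoeff he
    rw [map_mul, h.f0, constantCoeff_coe, constantCoeff_coe, mul_zero] at this
    rw [← coeff_C_mul, ← hn1]; simp [← this, B.hp.ne_zero, coeff_X_pow, B.hp.ne_zero.symm]
  have a5 : n1.eval 1 = d1.eval 1 := by
    apply mul_left_cancel₀ B.p0
    rw [hn1', hd1'] at h3
    simpa using h3
  have b1 : C θ * E = (X ^ (2 * N) + derivative n1) * (1 + C (p : O) * d1)
      - (X ^ p + C (p : O) * n1) * derivative d1 := by
    apply mul_left_cancel₀ hCp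
    rw [← mul_assoc, ← map_mul, hE1, hn1', hd1']
    simp only [derivative_add, derivative_X_pow, derivative_C_mul, derivative_one,
      show p - 1 = 2 * N by omega]
    ring
  set H : k[X] := n1.map π - X ^ p * d1.map π with hH
  have b2 : C (π θ) * E.map π = X ^ (2 * N) + derivative H := by
    have := congrArg (Polynomial.map π) b1
    simp only [Polynomial.map_mul, Polynomial.map_sub, Polynomial.map_add, map_C, map_natCast,
      Polynomial.map_pow, map_X, Polynomial.map_one, ← derivative_map, Polynomial.map_natCast] at this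
    rw [this, hH]
    have hpk : ((p : ℕ) : k[X]) = 0 := by rw [← map_natCast C, B.pk, map_zero]
    simp only [derivative_sub, derivative_mul, derivative_X_pow, B.pk, hpk, map_zero]
    ring
  have b3 : E.map π ^ 2 = ((X * Qp (π l)) ^ N) ^ 2 := by
    have := congrArg (Polynomial.map π) hE2
    simp only [Polynomial.map_mul, Polynomial.map_sub, map_C, Polynomial.map_pow, map_X, hn, hd,
      map_Qp] at this
    have e : (X * Qp (π l)) ^ p = X ^ p * (1 * ((1 - X ^ p) * (1 - C (π l') * X ^ p))) := by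
      rw [Qp, mul_pow, mul_pow, sub_pow_char, sub_pow_char, mul_pow, hl]; simp
    have hQ : X * Qp (π l) ≠ 0 := by
      refine mul_ne_zero X_ne_zero fun h0 => ?_
      simpa [Qp] using congrArg (eval 0) h0
    apply mul_left_cancel₀ hQ
    rw [this, ← e, hN]; ring
  obtain ⟨η, hη, hE⟩ : ∃ η : k, η * η = 1 ∧ E.map π = C η * (X * Qp (π l)) ^ N := by
    rcases sq_eq_sq_iff_eq_or_eq_neg.1 b3 with h | h
    · exact ⟨1, by simp, by simpa using h⟩
    · exact ⟨-1, by simp, by simpa using h⟩
  rw [hE, ← mul_assoc, ← map_mul] at b2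
  have hp : ((2 * N : ℕ) + 1 : k) = 0 := by rw [← B.pk, hN]; simp
  have c1 : ∀ j ∈ range (4 * N + 1), H.coeff (j + 1) = (if j = 2 * N then H.coeff p else 0)
      + π θ * η * (((X * Qp (π l)) ^ N).coeff j * ((j : k) + 1)⁻¹) := by
    intro j hj
    have := congrArg (fun P => coeff P j) b2
    simp only [coeff_C_mul, coeff_add, coeff_derivative, coeff_X_pow] at this
    split_ifs with hj2
    · rw [hj2, hp, ← hN]; simp
    · have hne : (j : k) + 1 ≠ 0 := by
        have : ¬p ∣ j + 1 := by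
          rintro ⟨c, hc⟩
          have := mem_range.1 hj
          rcases c with _ | _ | c
          · omega
          · omega
          · have : p * (c + 1 + 1) = p * c + 2 * p := by ring
            omega
        exact_mod_cast B.natk this
      rw [if_neg hj2] at this
      rw [← mul_assoc, this]; field_simp; ring
  have c2 : H.natDegree < 4 * N + 1 + 1 := by
    have e1 : (n1.map π).natDegree ≤ p := natDegree_map_le.trans a1
    have e2 : (d1.map π).natDegree < p := natDegree_map_le.trans_lt a2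
    have e3 := natDegree_mul_le (p := (X : k[X]) ^ p) (q := d1.map π)
    have e4 := natDegree_sub_le (n1.map π) (X ^ p * d1.map π)
    rw [natDegree_X_pow] at e3
    rw [hH]; omega
  have c3 : H.eval 1 = 0 := by
    simp only [hH, eval_sub, eval_mul, eval_pow, eval_X, one_pow, one_mul, eval_map, eval₂_at_one,
      a5, sub_self]
  have c4 : H.coeff 0 = 0 := by
    rw [hH, coeff_sub, coeff_X_pow_mul', if_neg (by omega), coeff_map, a4]; simp
  have c5 : H.coeff p = π (n1.coeff p) := by
    rw [hH, coeff_sub, coeff_X_pow_mul', if_pos le_rfl, Nat.sub_self, coeff_map, coeff_map, a3]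
    simp
  rw [eval_eq_sum_range' c2, sum_range_succ', c4] at c3
  simp only [one_pow, mul_one, add_zero] at c3
  rw [sum_congr rfl c1, sum_add_distrib, ← mul_sum, B.sum_sg, sum_ite_eq',
    if_pos (mem_range.2 (by omega)), c5] at c3
  refine ⟨n1.coeff p - PowerSeries.coeff p ((d1 : PowerSeries O) * f), η, ?_, hη, ?_, ?_⟩
  · have := congrArg (PowerSeries.coeff p) he
    rw [hn1', hd1', Polynomial.coe_add, Polynomial.coe_mul, coe_C, add_mul, mul_assoc, map_add,
      PowerSeries.coeff_C_mul, coeff_coe] at this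
    simp only [Polynomial.coe_one, one_mul, coeff_add, coeff_X_pow, if_true, coeff_C_mul] at this
    linear_combination this
  · have := congrArg (fun P => coeff P (2 * N)) b2
    simp only [coeff_C_mul, coeff_add, coeff_derivative, coeff_X_pow, if_true, hp] at this
    rw [two_mul, coeff_XQ] at this
    rw [← coeff_map, Polynomial.map_pow, map_Qp, this]; simp
  · obtain ⟨φ, hφ⟩ := B.red_dvd h
    rw [map_sub, ← PowerSeries.coeff_map, map_mul, hφ, mul_left_comm,
      PowerSeries.coeff_X_pow_mul', if_pos le_rfl, Nat.sub_self,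
      PowerSeries.coeff_zero_eq_constantCoeff_apply, map_mul, cmap, constantCoeff_coe, a3]
    linear_combination c3 - PowerSeries.constantCoeff φ * (map_zero π)

theorem split_ser {A : Type*} [CommRing A] (a : A) (m : ℕ) (φ : PowerSeries A)
    (h : ∀ i < m, a ∣ PowerSeries.coeff i φ) :
    ∃ u v, φ = PowerSeries.C a * u + PowerSeries.X ^ m * v := by
  choose! z hz using h
  obtain ⟨v, hv⟩ : PowerSeries.X ^ m ∣ φ - PowerSeries.C a * PowerSeries.mk z := by
    rw [PowerSeries.X_pow_dvd_iff]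
    intro i hi
    simp [hz i hi]
  exact ⟨PowerSeries.mk z, v, by rw [← hv]; ring⟩

open PowerSeries in
theorem Bs.fp (B : Bs p N π) (h : Iso l l' (p * θ) f r) (hθ : π θ ≠ 0) {hf : O}
    (hh : 2 * hf = 1) :
    (p : O) ^ 2 ∣ PowerSeries.coeff p f - θ ^ 2 * PowerSeries.coeff N (VV hf l) ^ 2 := by
  have hN := B.hN
  have hV := VV_sq hh l
  have hV0 := VV_zero hf l
  generalize VV hf l = V at *
  set ρ := r * V * ((1 - PowerSeries.X) * (1 - PowerSeries.C l * PowerSeries.X)) with hρ
  have s := h.sq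
  have e1 : PowerSeries.X * ρ ^ 2 = gg (PowerSeries.C l') f := by
    rw [← s, hρ, gg]
    linear_combination PowerSeries.X * r ^ 2
      * ((1 - PowerSeries.X) * (1 - PowerSeries.C l * PowerSeries.X)) * hV
  have e2 : r = ρ * V := by rw [hρ]; linear_combination -r * hV
  have hθ0 : θ ≠ 0 := by rintro rfl; simp at hθ
  have e3 : ρ ≠ 0 := by
    intro h0
    have := h.r0
    rw [e2, h0, zero_mul, map_zero] at this
    exact mul_ne_zero B.p0 hθ0 this.symm
  clear_value ρ
  set W := V * (1 - 2 * (1 + PowerSeries.C l') * f + 3 * PowerSeries.C l' * f ^ 2) with hW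
  have e4 : ρ + PowerSeries.C 2 * (PowerSeries.X * d⁄dX O ρ) = PowerSeries.C (p * θ) * W := by
    apply mul_left_cancel₀ e3
    have := congrArg (d⁄dX O) e1
    simp only [gg, Derivation.leibniz, Derivation.leibniz_pow, map_sub, PowerSeries.derivative_C,
      h.df, smul_eq_mul, nsmul_eq_mul, Derivation.map_one_eq_zero, PowerSeries.derivative_X,
      e2] at this
    push_cast at this
    rw [map_ofNat, hW]
    linear_combination this
  have e5 : ∀ i : ℕ, (2 * i + 1) * PowerSeries.coeff i ρ = p * θ * PowerSeries.coeff i W := by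
    intro i
    have := congrArg (PowerSeries.coeff i) e4
    rw [map_add, PowerSeries.coeff_C_mul, PowerSeries.coeff_C_mul] at this
    rw [← this]
    rcases i with _ | i
    · simp
    · rw [PowerSeries.coeff_succ_X_mul, PowerSeries.coeff_derivative]; push_cast; ring
  have e6 : ∀ i < p, i ≠ N → (p : O) ∣ PowerSeries.coeff i ρ := by
    intro i hi hne
    rw [← (B.odd_unit hi hne).dvd_mul_left, e5, mul_assoc]
    exact dvd_mul_right _ _
  have e7 : PowerSeries.coeff N ρ = θ * PowerSeries.coeff N W := by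
    apply mul_left_cancel₀ B.p0
    have := e5 N
    rw [show (2 * N + 1 : O) = p by rw [hN]; simp] at this
    rw [this]; ring
  obtain ⟨u, v, huv⟩ := split_ser (p : O) N ρ fun i hi => e6 i (by omega) hi.ne
  have hU := invOfUnit_mul ((1 - f) * (1 - PowerSeries.C l' * f)) 1 (by simp [h.f0])
  generalize invOfUnit ((1 - f) * (1 - PowerSeries.C l' * f)) 1 = U at hU
  obtain ⟨a, b, hab⟩ : ∃ a b, f = PowerSeries.C ((p : O) ^ 2) * a + PowerSeries.X ^ (N + 1) * b := by
    refine ⟨PowerSeries.X * u ^ 2 * U, (2 * PowerSeries.C (p : O) * u * v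
      + PowerSeries.X ^ N * v ^ 2) * U, ?_⟩
    rw [gg, huv] at e1
    rw [map_pow]
    linear_combination -f * hU - U * e1
  have e8 : (p : O) ^ 2 ∣ PowerSeries.coeff N W - PowerSeries.coeff N V := by
    have : W - V = PowerSeries.C ((p : O) ^ 2) * (a * V * (-2 * (1 + PowerSeries.C l')
        + 3 * PowerSeries.C l' * f)) + PowerSeries.X ^ (N + 1)
        * (b * V * (-2 * (1 + PowerSeries.C l') + 3 * PowerSeries.C l' * f)) := by
      rw [hW]
      linear_combination V * (-2 * (1 + PowerSeries.C l') + 3 * PowerSeries.C l' * f) * hab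
    rw [← map_sub, this, map_add, PowerSeries.coeff_C_mul, PowerSeries.coeff_X_pow_mul',
      if_neg (by omega), add_zero]
    exact dvd_mul_right _ _
  have e9 : (p : O) ^ 2 ∣ PowerSeries.coeff p f - PowerSeries.coeff (2 * N) (ρ ^ 2) := by
    have : f - PowerSeries.X * ρ ^ 2 = PowerSeries.C ((p : O) ^ 2) * (a * (f
        + PowerSeries.X ^ (N + 1) * b) * (1 + PowerSeries.C l' - PowerSeries.C l' * f))
        + PowerSeries.X ^ (p + 1) * (b ^ 2 * (1 + PowerSeries.C l' - PowerSeries.C l' * f)) := by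
      rw [e1, gg, hN]
      rw [← hN]
      have : PowerSeries.X ^ (p + 1) = (PowerSeries.X ^ (N + 1) : O⟦X⟧) ^ 2 := by
        rw [← pow_mul]; congr 1; omega
      rw [this]
      linear_combination (f + PowerSeries.X ^ (N + 1) * b)
        * (1 + PowerSeries.C l' - PowerSeries.C l' * f) * hab
    rw [← PowerSeries.coeff_succ_X_mul (2 * N), ← hN, ← map_sub, this, map_add, PowerSeries.coeff_C_mul,
      PowerSeries.coeff_X_pow_mul', if_neg (by omega), add_zero]
    exact dvd_mul_right _ _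
  have e10 : (p : O) ^ 2 ∣ PowerSeries.coeff (2 * N) (ρ ^ 2) - PowerSeries.coeff N ρ ^ 2 := by
    have hm : (N, N) ∈ antidiagonal (2 * N) := by simp [two_mul]
    rw [pow_two ρ, PowerSeries.coeff_mul, ← add_sum_erase _ _ hm, ← pow_two, add_sub_cancel_left]
    refine dvd_sum fun i hi => ?_
    have h1 := ne_of_mem_erase hi
    have h2 := mem_antidiagonal.1 (mem_of_mem_erase hi)
    have h3 : i.1 ≠ N := fun h => h1 (Prod.ext h (by simp; omega))
    rw [pow_two]
    exact mul_dvd_mul (e6 _ (by omega) h3) (e6 _ (by omega) (by omega))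
  obtain ⟨z1, h1⟩ := e8
  obtain ⟨z2, h2⟩ := e9
  obtain ⟨z3, h3⟩ := e10
  rw [e7] at h3
  exact ⟨z2 + z3 + θ ^ 2 * z1 * (PowerSeries.coeff N W + PowerSeries.coeff N V), by
    linear_combination h2 + h3 + θ ^ 2 * (PowerSeries.coeff N W + PowerSeries.coeff N V) * h1⟩

theorem Bs.frob (B : Bs p N π) (h : Iso l l' (p * θ) f r) (hθ : π θ ≠ 0)
    (hf : PowerSeries.map π f ≠ 0) (hd : HD f p) (hl : π l' = π l ^ p) (L0 : π l' ≠ 0)
    (L1 : π l' ≠ 1) (L2 : π l' + 1 ≠ 0) (L3 : π l' - 2 ≠ 0) (L4 : 2 * π l' - 1 ≠ 0)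
    (L5 : π l' ^ 2 - π l' + 1 ≠ 0) {hf : O} (hh : 2 * hf = 1) :
    (p : O) ^ 2 ∣ ul hf N l ^ 2 * θ ^ 2 - 1 := by
  obtain ⟨n, d, E, d0, he, h1, h2, hn, hd', h3, hE1, hE2⟩ :=
    B.shape2 h hθ ‹_› hd hl L0 L1 L2 L3 L4 L5
  obtain ⟨ν, η, g1, g2, g3, g4⟩ := B.nu h hl d0 he h1 h2 hn hd' h3 hE1 hE2
  obtain ⟨z1, k1⟩ := B.fp h hθ hh
  obtain ⟨⟨z2, k2⟩, k3, -⟩ := B.key hh l
  rw [← B.ker, map_sub, sub_eq_zero] at k3
  generalize PowerSeries.coeff N (VV hf l) = V at *
  generalize sg p N l = σ at *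
  obtain ⟨z3, k4⟩ : (p : O) ∣ ν + 2 * θ ^ 2 * V * σ := by
    rw [← B.ker]
    simp only [map_add, map_mul, map_pow, map_ofNat, g4, ← k3]
    linear_combination 2 * π θ * π σ * η * g3
      - 2 * π θ ^ 2 * π σ * π ((Qp l ^ N).coeff N) * g2
  have e2 : ((-1 : O) ^ N) * (-1) ^ N = 1 := by rw [← mul_pow]; simp
  generalize (-1 : O) ^ N = e at *
  generalize ul hf N l = u at *
  rw [g1] at k1
  refine ⟨z3 - z1 + θ ^ 2 * σ ^ 2 + θ ^ 2 * z2 * (e * u + V + p * σ), ?_⟩
  linear_combination p * k4 - k1 + θ ^ 2 * (e * u + V + p * σ) * k2 - u ^ 2 * θ ^ 2 * e2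

end Pool.Agent.Lib.MP_4af24b_nt
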