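import Pool.Agent.Lib.MP_4af24b_nt.Deg

set_option linter.unusedSimpArgs false

namespace Pool.Agent.Lib.MP_4af24b_nt

open PowerSeries

section rt
variable {O : Type*} [CommRing O]

def Rt (f : O⟦X⟧) : Prop := ∃ a, HD f a

theorem Rt.mk {f : O⟦X⟧} (n d : Polynomial O) (h : d.coeff 0 ≠ 0) (e : (d : O⟦X⟧) * f = n) :
    Rt f := ⟨_, n, d, h, e, le_max_left _ _, le_max_right _ _⟩

variable [IsDomain O]

theorem Rt.coe (n : Polynomial O) : Rt (n : O⟦X⟧) := Rt.mk n 1 (by simp) (by simp)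

theorem Rt.C (a : O) : Rt (C a : O⟦X⟧) := by simpa using Rt.coe (Polynomial.C a)

theorem Rt.X : Rt (X : O⟦X⟧) := by simpa using Rt.coe (Polynomial.X : Polynomial O)

theorem Rt.one : Rt (1 : O⟦X⟧) := by simpa using Rt.C (1 : O)

theorem Rt.zero : Rt (0 : O⟦X⟧) := by simpa using Rt.C (0 : O)

theorem Rt.add {f g : O⟦X⟧} (hf : Rt f) (hg : Rt g) : Rt (f + g) := by
  obtain ⟨_, n, d, h, e, -⟩ := hf
  obtain ⟨_, n', d', h', e', -⟩ := hg
  refine Rt.mk (n * d' + d * n') (d * d') (by simp [h, h']) ?_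
  simp only [Polynomial.coe_mul, Polynomial.coe_add, ← e, ← e']; ring

theorem Rt.mul {f g : O⟦X⟧} (hf : Rt f) (hg : Rt g) : Rt (f * g) := by
  obtain ⟨_, n, d, h, e, -⟩ := hf
  obtain ⟨_, n', d', h', e', -⟩ := hg
  refine Rt.mk (n * n') (d * d') (by simp [h, h']) ?_
  simp only [Polynomial.coe_mul, ← e, ← e']; ring

theorem Rt.neg {f : O⟦X⟧} (hf : Rt f) : Rt (-f) := by
  simpa using (Rt.C (-1)).mul hf

theorem Rt.sub {f g : O⟦X⟧} (hf : Rt f) (hg : Rt g) : Rt (f - g) := by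
  simpa [sub_eq_add_neg] using hf.add hg.neg

theorem Rt.two : Rt (2 : O⟦X⟧) := by simpa [one_add_one_eq_two] using (Rt.one (O := O)).add Rt.one

theorem Rt.inv {f g : O⟦X⟧} (hf : Rt f) (h : g * f = 1) : Rt g := by
  obtain ⟨_, n, d, h1, e, -⟩ := hf
  refine Rt.mk d n ?_ (by rw [← e]; linear_combination (d : O⟦X⟧) * h)
  have e1 := congrArg constantCoeff e
  have e2 := congrArg constantCoeff h
  rw [map_mul, Polynomial.constantCoeff_coe, Polynomial.constantCoeff_coe] at e1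
  rw [← e1]
  refine mul_ne_zero h1 fun h0 => ?_
  simp [h0] at e2

theorem Rt.subst {f g : O⟦X⟧} (hf : Rt f) (hg : Rt g) (h0 : constantCoeff g = 0) :
    Rt (f.subst g) := by
  obtain ⟨a, ha⟩ := hf
  obtain ⟨b, hb⟩ := hg
  exact ⟨_, ha.comp hb h0⟩

end rt

def gg {A : Type*} [CommRing A] (L f : A) : A := f * ((1 - f) * (1 - L * f))

theorem map_gg {A B : Type*} [CommRing A] [CommRing B] (φ : A →+* B) (L f : A) :
    φ (gg L f) = gg (φ L) (φ f) := by simp [gg]

theorem add_sq_id {A : Type*} [CommRing A] (L G f1 f2 r1 r2 J : A)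
    (h1 : G * r1 ^ 2 = gg L f1) (h2 : G * r2 ^ 2 = gg L f2) (hJ : J * (1 - L * (f1 * f2)) = 1) :
    G * ((r1 * ((1 + L * (f1 * f2)) * ((1 - f2) * (1 - L * f2))
          + (2 * L * (f1 + f2) - (1 + L) * (1 + L * (f1 * f2))) * f2)
        + r2 * ((1 + L * (f1 * f2)) * ((1 - f1) * (1 - L * f1))
          + (2 * L * (f1 + f2) - (1 + L) * (1 + L * (f1 * f2))) * f1)) * (J * J * J)) ^ 2
      = gg L ((f1 * ((1 - f2) * (1 - L * f2)) + (1 - f1) * (1 - L * f1) * f2
          + 2 * (G * r1 * r2)) * (J * J)) := by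
  set A1 := (1 + L * (f1 * f2)) * ((1 - f2) * (1 - L * f2))
          + (2 * L * (f1 + f2) - (1 + L) * (1 + L * (f1 * f2))) * f2 with hA
  set B1 := (1 + L * (f1 * f2)) * ((1 - f1) * (1 - L * f1))
          + (2 * L * (f1 + f2) - (1 + L) * (1 + L * (f1 * f2))) * f1 with hB
  set M := f1 * ((1 - f2) * (1 - L * f2)) + (1 - f1) * (1 - L * f1) * f2 with hM
  set D := 1 - L * (f1 * f2) with hD
  set ρ := G * r1 * r2 with hρ
  have hρ2 : ρ ^ 2 = gg L f1 * gg L f2 := by rw [← h1, ← h2, hρ]; ring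
  have e1 : G * ((r1 * A1 + r2 * B1) * (J * J * J)) ^ 2
      = (gg L f1 * A1 ^ 2 + gg L f2 * B1 ^ 2 + 2 * ρ * A1 * B1) * J ^ 6 := by
    rw [← h1, ← h2, hρ]; ring
  have e2 : gg L f1 * A1 ^ 2 + gg L f2 * B1 ^ 2 + 2 * ρ * A1 * B1
      = (M + 2 * ρ) * (D ^ 2 - (M + 2 * ρ)) * (D ^ 2 - L * (M + 2 * ρ)) := by
    clear_value ρ
    rw [hA, hB, hM, hD]
    unfold gg at *
    linear_combination (4 * (1 + L) * (1 - L * (f1 * f2)) ^ 2 - L * (12 * (f1 * ((1 - f2)
      * (1 - L * f2)) + (1 - f1) * (1 - L * f1) * f2) + 8 * ρ)) * hρ2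
  have e3 : J * J * D ^ 2 = 1 := by linear_combination (J * D + 1) * hJ
  rw [e1, e2]
  clear_value M D ρ
  unfold gg
  rw [show 1 - (M + 2 * ρ) * (J * J) = (D ^ 2 - (M + 2 * ρ)) * (J * J) by linear_combination -e3,
    show 1 - L * ((M + 2 * ρ) * (J * J)) = (D ^ 2 - L * (M + 2 * ρ)) * (J * J) by
      linear_combination -e3]
  ring

variable {O : Type*} [CommRing O]

structure Iso (l l' α : O) (f r : O⟦X⟧) : Prop where
  f0 : constantCoeff f = 0
  r0 : constantCoeff r = α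
  df : d⁄dX O f = C α * r
  sq : gg (C l) X * r ^ 2 = gg (C l') f
  rf : Rt f
  rr : Rt r

variable [IsDomain O] {l l' l'' α β : O} {f r : O⟦X⟧}

theorem Iso.zero : Iso l l' 0 0 0 :=
  ⟨by simp, by simp, by simp, by simp [gg], Rt.zero, Rt.zero⟩

theorem Iso.neg (h : Iso l l' α f r) : Iso l l' (-α) f (-r) :=
  ⟨h.f0, by simp [h.r0], by simp [h.df], by simp [h.sq], h.rf, h.rr.neg⟩

theorem Iso.dr (h : Iso l l' α f r) :
    d⁄dX O (gg (C l) X) * r + 2 * gg (C l) X * d⁄dX O r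
      = C α * (1 - 2 * (1 + C l') * f + 3 * C l' * f ^ 2) := by
  by_cases hr : r = 0
  · have := h.r0
    rw [hr, map_zero] at this
    simp [hr, ← this]
  apply mul_left_cancel₀ hr
  have := congrArg (d⁄dX O) h.sq
  generalize gg (C l) X = G at *
  simp only [gg, Derivation.leibniz, Derivation.leibniz_pow, map_sub, derivative_C, h.df,
    smul_eq_mul, nsmul_eq_mul, Derivation.map_one_eq_zero] at this
  push_cast at this
  linear_combination this

theorem Iso.add {f1 r1 f2 r2 : O⟦X⟧} (h1 : Iso l l' α f1 r1) (h2 : Iso l l' β f2 r2) :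
    ∃ f r, Iso l l' (α + β) f r ∧ (1 - C l' * (f1 * f2)) ^ 2 * f =
      f1 * ((1 - f2) * (1 - C l' * f2)) + (1 - f1) * (1 - C l' * f1) * f2
          + 2 * (gg (C l) X * r1 * r2) := by
  set J := invOfUnit (1 - C l' * (f1 * f2)) 1
  have hJ : J * (1 - C l' * (f1 * f2)) = 1 := invOfUnit_mul _ _ (by simp [h1.f0])
  have hJ0 : constantCoeff J = 1 := by simp [J]
  clear_value J
  have rG : Rt (gg (C l) X : O⟦X⟧) :=
    Rt.X.mul ((Rt.one.sub Rt.X).mul (Rt.one.sub ((Rt.C l).mul Rt.X)))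
  have rL := Rt.C l'
  have r12 := rL.mul (h1.rf.mul h2.rf)
  have rJ : Rt J := (Rt.one.sub r12).inv hJ
  have rQ1 := (Rt.one.sub h1.rf).mul (Rt.one.sub (rL.mul h1.rf))
  have rQ2 := (Rt.one.sub h2.rf).mul (Rt.one.sub (rL.mul h2.rf))
  have rK := ((Rt.two.mul rL).mul (h1.rf.add h2.rf)).sub ((Rt.one.add rL).mul (Rt.one.add r12))
  refine ⟨_, _, ⟨?_, ?_, ?_, add_sq_id (C l') (gg (C l) X) f1 f2 r1 r2 J h1.sq h2.sq hJ,
    (((h1.rf.mul rQ2).add (rQ1.mul h2.rf)).add (Rt.two.mul ((rG.mul h1.rr).mul h2.rr))).mul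
      (rJ.mul rJ),
    ((h1.rr.mul (((Rt.one.add r12).mul rQ2).add (rK.mul h2.rf))).add
      (h2.rr.mul (((Rt.one.add r12).mul rQ1).add (rK.mul h1.rf)))).mul ((rJ.mul rJ).mul rJ)⟩, ?_⟩
  · simp [h1.f0, h2.f0, gg]
  · simp [h1.f0, h2.f0, hJ0, h1.r0, h2.r0]
  · have d1 := h1.dr
    have d2 := h2.dr
    have s1 := h1.sq
    have s2 := h2.sq
    have dJ := congrArg (d⁄dX O) hJ
    have hd2 : d⁄dX O (2 : O⟦X⟧) = 0 := by
      rw [← one_add_one_eq_two, map_add, Derivation.map_one_eq_zero, add_zero]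
    generalize gg (C l) X = G at *
    simp only [Derivation.leibniz, map_sub, map_add, derivative_C, h1.df, h2.df,
      smul_eq_mul, Derivation.map_one_eq_zero, hd2] at dJ ⊢
    generalize d⁄dX O G = G' at *
    generalize d⁄dX O r1 = r1' at *
    generalize d⁄dX O r2 = r2' at *
    generalize d⁄dX O J = J' at *
    generalize C α = a at *
    generalize C β = b at *
    generalize C l' = L at *
    have dJ' : J' = J * J * (L * (f1 * (b * r2) + f2 * (a * r1))) := by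
      linear_combination J * dJ - J' * hJ
    subst dJ'
    unfold gg at s1 s2
    linear_combination (J * J * r2) * d1 + (J * J * r1) * d2
      + (4 * J ^ 3 * L * f2 * a * r2) * s1 + (4 * J ^ 3 * L * f1 * b * r1) * s2
      - (J * J * (a * r1 * ((1 - f2) * (1 - L * f2) + f2 * (-(1 + L) + 2 * L * f1))
          + b * r2 * ((1 - f1) * (1 - L * f1) + f1 * (-(1 + L) + 2 * L * f2))
          + r2 * a * (1 - 2 * (1 + L) * f1 + 3 * L * f1 ^ 2)
          + r1 * b * (1 - 2 * (1 + L) * f2 + 3 * L * f2 ^ 2))) * hJ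
  · generalize gg (C l) X = G at *
    linear_combination (f1 * ((1 - f2) * (1 - C l' * f2)) + (1 - f1) * (1 - C l' * f1) * f2
          + 2 * (G * r1 * r2)) * (J * (1 - C l' * (f1 * f2)) + 1) * hJ

theorem Iso.comp {g s : O⟦X⟧} (h1 : Iso l l' α f r) (h2 : Iso l' l'' β g s) :
    Iso l l'' (α * β) (g.subst f) (s.subst f * r) := by
  have hs := HasSubst.of_constantCoeff_zero' h1.f0
  have hc : ∀ u : O⟦X⟧, constantCoeff (u.subst f) = constantCoeff u := by
    intro u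
    have e : u = C (constantCoeff u) + (u - C (constantCoeff u)) := by ring
    have h0 := constantCoeff_subst_eq_zero (a := f) h1.f0 (u - C (constantCoeff u)) (by simp)
    rw [e, subst_add hs, map_add, subst_C]
    erw [h0]
    simp
    rfl
  let φ := (substAlgHom (R := O) hs).toRingHom
  have hφ : ∀ u : O⟦X⟧, φ u = u.subst f := fun u => by simp [φ, coe_substAlgHom]
  have hC : ∀ a : O, (C a : O⟦X⟧).subst f = C a := fun a => subst_C a
  refine ⟨by rw [hc, h2.f0], by rw [map_mul, hc, h1.r0, h2.r0, mul_comm], ?_, ?_,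
    h2.rf.subst h1.rf h1.f0, (h2.rr.subst h1.rf h1.f0).mul h1.rr⟩
  · rw [derivative_subst hs, h2.df, h1.df, subst_mul hs, hC, map_mul]; ring
  · have := congrArg φ h2.sq
    rw [map_mul, map_pow, map_gg, map_gg] at this
    simp only [hφ, hC, subst_X hs] at this
    rw [← this, ← h1.sq]; ring

variable [CharZero O]

theorem Iso.unique {g s : O⟦X⟧} (h1 : Iso l l' α f r) (h2 : Iso l l' α g s) : f = g := by
  by_cases hα : α = 0
  · subst hα
    apply derivative.ext
    · simp [h1.df, h2.df]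
    · rw [h1.f0, h2.f0]
  have key : ∀ m : ℕ, X ^ (m + 1) ∣ f - g := by
    intro m
    induction m with
    | zero => simp [X_dvd_iff, h1.f0, h2.f0]
    | succ m ih =>
      obtain ⟨e, he⟩ := ih
      have hd := congrArg (d⁄dX O) he
      simp only [map_sub, h1.df, h2.df, Derivation.leibniz, Derivation.leibniz_pow, derivative_X,
        smul_eq_mul, nsmul_eq_mul, Nat.add_sub_cancel] at hd
      have s1 := h1.sq
      have s2 := h2.sq
      unfold gg at s1 s2
      have e1 : (X : O⟦X⟧) ^ (m + 1) * ((1 - X) * (1 - C l * X)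
          * (((m + 1 : ℕ) : O⟦X⟧) * e + X * d⁄dX O e) * (r + s)
          - C α * e * (1 - (1 + C l') * (f + g) + C l' * (f ^ 2 + f * g + g ^ 2))) = 0 := by
        linear_combination C α * s1 - C α * s2
          - X * ((1 - X) * (1 - C l * X)) * (r + s) * hd
          + C α * (1 - (1 + C l') * (f + g) + C l' * (f ^ 2 + f * g + g ^ 2)) * he
      have e2 := (mul_eq_zero.1 e1).resolve_left (pow_ne_zero _ X_ne_zero)
      have e3 := congrArg constantCoeff e2
      simp only [map_sub, map_mul, map_add, map_one, constantCoeff_X, constantCoeff_C, h1.f0,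
        h2.f0, h1.r0, h2.r0, map_pow, map_natCast, map_zero] at e3
      have e4 : ((2 * m + 1 : ℕ) : O) * α * constantCoeff e = 0 := by
        push_cast at e3 ⊢; linear_combination e3
      have e5 : constantCoeff e = 0 :=
        (mul_eq_zero.1 e4).resolve_left (mul_ne_zero (Nat.cast_ne_zero.2 (by omega)) hα)
      obtain ⟨e', rfl⟩ := X_dvd_iff.2 e5
      exact ⟨e', by rw [he]; ring⟩
  rw [← sub_eq_zero]
  ext n
  simpa using X_pow_dvd_iff.1 (key n) n (by omega)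

theorem Iso.para {f1 r1 f2 r2 fp rp fm rm : O⟦X⟧} (h1 : Iso l l' α f1 r1) (h2 : Iso l l' β f2 r2)
    (hp : Iso l l' (α + β) fp rp) (hm : Iso l l' (α - β) fm rm) :
    (1 - C l' * (f1 * f2)) ^ 2 * (fp * fm) = (f1 - f2) ^ 2 ∧
    (1 - C l' * (f1 * f2)) ^ 2 * (fp + fm) =
      2 * (f1 * ((1 - f2) * (1 - C l' * f2)) + (1 - f1) * (1 - C l' * f1) * f2) := by
  obtain ⟨g1, s1, i1, e1⟩ := h1.add h2
  obtain ⟨g2, s2, i2, e2⟩ := h1.add h2.neg
  rw [← sub_eq_add_neg] at i2
  rw [← hp.unique i1] at e1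
  rw [← hm.unique i2] at e2
  refine ⟨?_, by linear_combination e1 + e2⟩
  have hD : (1 - C l' * (f1 * f2)) ^ 2 ≠ 0 := by
    refine pow_ne_zero _ fun h => ?_
    simpa [h1.f0] using congrArg constantCoeff h
  apply mul_left_cancel₀ hD
  have s1 := h1.sq
  have s2 := h2.sq
  generalize gg (C l) X = G at *
  have e3 := congrArg₂ (· * ·) e1 e2
  beta_reduce at e3
  unfold gg at s1 s2
  linear_combination e3 - 4 * G * r2 ^ 2 * s1 - 4 * (f1 * ((1 - f1) * (1 - C l' * f1))) * s2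

end Pool.Agent.Lib.MP_4af24b_nt
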