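import Pool.Agent.Lib.MP_4af24b_nt.Pde

set_option linter.unusedSimpArgs false

namespace Pool.Agent.Lib.MP_4af24b_nt

open Finset

variable {A : Type*} [CommRing A]

def cc (h : A) (m : ℕ) : A := ((2 * m).choose m : A) * h ^ (2 * m)

def uu (h : A) (N : ℕ) (x : A) : A := ∑ m ∈ range (N + 1), cc h m ^ 2 * x ^ (2 * m)

def ut (h : A) (N : ℕ) (x : A) : A := ∑ m ∈ range (N + 1), cc h m ^ 2 * x ^ (2 * (N - m))

def Psi (h : A) (N : ℕ) (x y : A) : A :=
  ∑ m ∈ range (N + 1), cc h m ^ 2 * T (2 * m) ((x + y) * (1 - x * y))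
    (x * y * (1 - x ^ 2) * (1 - y ^ 2)) * (1 + x * y) ^ (4 * (N - m))

def ZZ (h : A) (N : ℕ) (x y : A) : A :=
  (1 + x * y) * Psi h N x y - (uu h N x * uu h N y + (x * y) ^ (2 * N + 1) * (ut h N x * ut h N y)
    + 2 * ((1 + x * y) ^ (2 * N + 1) - 1 - (x * y) ^ (2 * N + 1)) * (uu h N x * uu h N y))

section maps
variable {B : Type*} [CommRing B] (f : A →+* B)

theorem map_cc (h : A) (m : ℕ) : f (cc h m) = cc (f h) m := by simp [cc]

theorem map_uu (h : A) (N : ℕ) (x : A) : f (uu h N x) = uu (f h) N (f x) := by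
  simp [uu, map_sum, map_cc]

theorem map_ut (h : A) (N : ℕ) (x : A) : f (ut h N x) = ut (f h) N (f x) := by
  simp [ut, map_sum, map_cc]

theorem map_Psi (h : A) (N : ℕ) (x y : A) : f (Psi h N x y) = Psi (f h) N (f x) (f y) := by
  simp [Psi, map_sum, map_cc, map_T]

theorem map_ZZ (h : A) (N : ℕ) (x y : A) : f (ZZ h N x y) = ZZ (f h) N (f x) (f y) := by
  simp only [ZZ, map_sub, map_add, map_mul, map_pow, map_one, map_uu, map_ut, map_Psi, map_ofNat]
end maps

theorem cc_zero (h : A) : cc h 0 = 1 := by simp [cc]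

theorem cc_succ {h : A} (hh : 2 * h = 1) (m : ℕ) :
    (2 * m + 2) * cc h (m + 1) = (2 * m + 1) * cc h m := by
  have e1 := Nat.succ_mul_centralBinom_succ m
  rw [Nat.centralBinom_eq_two_mul_choose, Nat.centralBinom_eq_two_mul_choose] at e1
  have e2 : ((m : A) + 1) * ((2 * (m + 1)).choose (m + 1) : A)
      = 2 * (2 * m + 1) * ((2 * m).choose m : A) := by exact_mod_cast congrArg (Nat.cast : ℕ → A) e1
  unfold cc
  rw [show 2 * (m + 1) = 2 * m + 2 by ring, pow_add] at *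
  linear_combination 2 * h ^ (2 * m) * h ^ 2 * e2
    + (2 * m + 1) * ((2 * m).choose m : A) * h ^ (2 * m) * (2 * h + 1) * hh

theorem int_cc_mod {p N : ℕ} (hp : p.Prime) (hN : p = 2 * N + 1) (m : ℕ) (hm : m ≤ N) :
    (p : ℤ) ∣ ((2 * m).choose m : ℤ) - (-4) ^ m * (N.choose m : ℤ) := by
  induction m with
  | zero => simp
  | succ m ih =>
    obtain ⟨z, hz⟩ := ih (by omega)
    have e1 := Nat.succ_mul_centralBinom_succ m
    rw [Nat.centralBinom_eq_two_mul_choose, Nat.centralBinom_eq_two_mul_choose] at e1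
    have e2 : ((m : ℤ) + 1) * ((2 * (m + 1)).choose (m + 1) : ℤ)
      = 2 * (2 * m + 1) * ((2 * m).choose m : ℤ) := by exact_mod_cast e1
    have e3 : (N.choose (m + 1) : ℤ) * (m + 1) = N.choose m * (N - m) := by
      have := Nat.choose_succ_right_eq N m
      have h2 : ((N - m : ℕ) : ℤ) = N - m := by omega
      rw [← h2]; exact_mod_cast this
    have hpz : (p : ℤ) = 2 * N + 1 := by exact_mod_cast hN
    have hd : (p : ℤ) ∣ (m + 1 : ℕ) *
        (((2 * (m + 1)).choose (m + 1) : ℤ) - (-4) ^ (m + 1) * (N.choose (m + 1) : ℤ)) := by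
      refine ⟨2 * (2 * m + 1) * z + 2 * (-4) ^ m * N.choose m, ?_⟩
      push_cast
      linear_combination e2 - (-4) ^ (m + 1) * e3 + 2 * (2 * m + 1) * hz
        - 2 * (-4) ^ m * (N.choose m : ℤ) * hpz
    rcases (Nat.prime_iff_prime_int.1 hp).dvd_or_dvd hd with h | h
    · have := Nat.le_of_dvd (by omega) (Int.natCast_dvd_natCast.1 h); omega
    · exact h

theorem cc_mod {p N : ℕ} (hp : p.Prime) (hN : p = 2 * N + 1) {h : A} (hh : 2 * h = 1)
    (m : ℕ) (hm : m ≤ N) : (p : A) ∣ cc h m - (-1) ^ m * (N.choose m : A) := by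
  obtain ⟨z, hz⟩ := int_cc_mod hp hN m hm
  have e : (((2 * m).choose m : A)) - (-4) ^ m * (N.choose m : A) = p * z := by
    exact_mod_cast congrArg (Int.cast : ℤ → A) hz
  have e2 : (-4 : A) ^ m * h ^ (2 * m) = (-1) ^ m := by
    rw [pow_mul, ← mul_pow]; congr 1; linear_combination (-(2 * h + 1)) * hh
  refine ⟨z * h ^ (2 * m), ?_⟩
  unfold cc
  linear_combination h ^ (2 * m) * e + (N.choose m : A) * e2

theorem ccsq_mod {p N : ℕ} (hp : p.Prime) (hN : p = 2 * N + 1) {h : A} (hh : 2 * h = 1)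
    (m : ℕ) (hm : m ≤ N) : (p : A) ∣ cc h m ^ 2 - (N.choose m : A) ^ 2 := by
  obtain ⟨z, hz⟩ := cc_mod hp hN hh m hm
  have e : ((-1 : A) ^ m) ^ 2 = 1 := by rw [← pow_mul, mul_comm, pow_mul]; simp
  refine ⟨z * (cc h m + (-1) ^ m * (N.choose m : A)), ?_⟩
  linear_combination (cc h m + (-1) ^ m * (N.choose m : A)) * hz + (N.choose m : A) ^ 2 * e

theorem uu_ut_mod {p N : ℕ} (hp : p.Prime) (hN : p = 2 * N + 1) {h : A} (hh : 2 * h = 1)
    (x : A) : (p : A) ∣ uu h N x - ut h N x := by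
  unfold uu ut
  rw [← sum_range_reflect (fun m => cc h m ^ 2 * x ^ (2 * (N - m))), ← sum_sub_distrib]
  refine dvd_sum fun m hm => ?_
  have hm' : m ≤ N := by have := mem_range.1 hm; omega
  rw [Nat.add_sub_cancel, show N - (N - m) = m by omega, ← sub_mul]
  refine Dvd.dvd.mul_right ?_ _
  have h1 := ccsq_mod hp hN hh m hm'
  have h2 := ccsq_mod hp hN hh (N - m) (by omega)
  rw [Nat.choose_symm hm'] at h2
  have := dvd_sub h1 h2
  rwa [sub_sub_sub_cancel_right] at this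

theorem ut_eq (h : A) (N : ℕ) {x x' : A} (hx : x * x' = 1) :
    ut h N x = x ^ (2 * N) * uu h N x' := by
  unfold uu ut
  rw [mul_sum]
  refine sum_congr rfl fun m hm => ?_
  have hm' : m ≤ N := by have := mem_range.1 hm; omega
  have : x ^ (2 * N) = x ^ (2 * (N - m)) * x ^ (2 * m) := by rw [← pow_add]; congr 1; omega
  have h2 : x ^ (2 * m) * x' ^ (2 * m) = 1 := by rw [← mul_pow, hx, one_pow]
  rw [this]; linear_combination (-(cc h m ^ 2 * x ^ (2 * (N - m)))) * h2

theorem uu_eq (h : A) (N : ℕ) {x x' : A} (hx : x * x' = 1) :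
    uu h N x = x ^ (2 * N) * ut h N x' := by
  rw [ut_eq h N (mul_comm x x' ▸ hx : x' * x = 1), ← mul_assoc, ← mul_pow, hx, one_pow, one_mul]

theorem Psi_eq (h : A) (N : ℕ) {x x' y y' : A} (hx : x * x' = 1) (hy : y * y' = 1) :
    Psi h N x y = (x * y) ^ (4 * N) * Psi h N x' y' := by
  unfold Psi
  rw [mul_sum]
  refine sum_congr rfl fun m hm => ?_
  have hm' : m ≤ N := by have := mem_range.1 hm; omega
  have e1 : (x + y) * (1 - x * y) = (-(x * y) ^ 2) * ((x' + y') * (1 - x' * y')) := by grind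
  have e2 : x * y * (1 - x ^ 2) * (1 - y ^ 2)
      = (-(x * y) ^ 2) ^ 2 * (x' * y' * (1 - x' ^ 2) * (1 - y' ^ 2)) := by grind
  have e3 : 1 + x * y = (x * y) * (1 + x' * y') := by grind
  rw [e1, e2, T_scale, e3, mul_pow (x * y) (1 + x' * y')]
  have e4 : (x * y) ^ (4 * N) = (-(x * y) ^ 2) ^ (2 * m) * (x * y) ^ (4 * (N - m)) := by
    rw [pow_mul (-(x * y) ^ 2), neg_sq, ← pow_mul, ← pow_mul, ← pow_add]; congr 1; omega
  rw [e4]; ring

theorem ZZ_symm {p N : ℕ} (hp : p.Prime) (hN : p = 2 * N + 1) {h : A} (hh : 2 * h = 1)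
    (hp2 : (p : A) ^ 2 = 0) {x x' y y' : A} (hx : x * x' = 1) (hy : y * y' = 1) :
    ZZ h N x y = (x * y) ^ (4 * N + 1) * ZZ h N x' y' := by
  obtain ⟨r, hr⟩ := exists_add_pow_prime_eq hp (1 : A) (x * y)
  obtain ⟨a, ha⟩ := uu_ut_mod hp hN hh x
  obtain ⟨b, hb⟩ := uu_ut_mod hp hN hh y
  have e3 : 1 + x * y = (x * y) * (1 + x' * y') := by grind
  have hs : (x * y) ^ (2 * N + 1) * (x' * y') ^ (2 * N + 1) = 1 := by
    rw [← mul_pow, show x * y * (x' * y') = 1 by grind, one_pow]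
  have e5 : (1 + x * y) ^ (2 * N + 1) = (x * y) ^ (2 * N + 1) * (1 + x' * y') ^ (2 * N + 1) := by
    rw [e3, mul_pow]
  have e6 : uu h N x * uu h N y = (x * y) ^ (2 * N) * (ut h N x' * ut h N y') := by
    rw [uu_eq h N hx, uu_eq h N hy]; ring
  have e7 : ut h N x * ut h N y = (x * y) ^ (2 * N) * (uu h N x' * uu h N y') := by
    rw [ut_eq h N hx, ut_eq h N hy]; ring
  have e8 : (x * y) ^ (4 * N + 1) = (x * y) ^ (2 * N + 1) * (x * y) ^ (2 * N) := by
    rw [← pow_add]; congr 1; omega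
  have e9 : (1 + x * y) * Psi h N x y
      = (x * y) ^ (4 * N + 1) * ((1 + x' * y') * Psi h N x' y') := by
    rw [Psi_eq h N hx hy, e3]; ring
  rw [one_pow, hN] at hr
  rw [← hN] at hr
  have hr' : (1 + x * y) ^ (2 * N + 1) - 1 - (x * y) ^ (2 * N + 1) = p * (x * y * r) := by
    rw [← hN]; linear_combination hr
  have e10 : ((1 + x * y) ^ (2 * N + 1) - 1 - (x * y) ^ (2 * N + 1)) * (uu h N x * uu h N y)
      = ((1 + x * y) ^ (2 * N + 1) - 1 - (x * y) ^ (2 * N + 1)) * (ut h N x * ut h N y) := by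
    rw [hr']
    linear_combination (p * (x * y * r) * uu h N y) * ha + (p * (x * y * r) * ut h N x) * hb
      + (x * y * r * (a * uu h N y + b * ut h N x)) * hp2
  unfold ZZ
  rw [e9, mul_assoc 2, e10, e6, e7, e5, e8]
  linear_combination ((x * y) ^ (2 * N) * (ut h N x' * ut h N y')
    - 2 * (x * y) ^ (2 * N) * (uu h N x' * uu h N y')) * hs

theorem L1_pow (d : Derivation ℤ A A) (x : A) (hx : d x = 1) (n : ℕ) :
    L1 d x (x ^ (n + 1)) = (n + 1) ^ 2 * x ^ n - (n + 2) ^ 2 * x ^ (n + 2) := by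
  rcases n with _ | n
  · simp [L1, hx]; ring
  · simp only [L1, Derivation.leibniz_pow, Derivation.leibniz, hx, smul_eq_mul, nsmul_eq_mul,
      Derivation.map_natCast, Nat.add_sub_cancel, Derivation.map_one_eq_zero]
    push_cast; ring

theorem d_cc (d : Derivation ℤ A A) {h : A} (hh : 2 * h = 1) (m : ℕ) : d (cc h m ^ 2) = 0 := by
  have h0 : d h = 0 := by
    have := congrArg d hh
    have h2 : d 2 = 0 := by exact_mod_cast d.map_natCast 2
    simp only [Derivation.leibniz, Derivation.map_one_eq_zero, smul_eq_mul, h2] at this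
    linear_combination h * this - d h * hh
  simp [cc, Derivation.leibniz_pow, Derivation.leibniz, h0]

theorem d_uu (d : Derivation ℤ A A) {h : A} (hh : 2 * h = 1) (N : ℕ) (x : A) (hx : d x = 0) :
    d (uu h N x) = 0 := by
  unfold uu
  rw [map_sum]
  refine sum_eq_zero fun m _ => ?_
  rw [Derivation.leibniz, d_cc d hh, Derivation.leibniz_pow, hx]; simp

theorem L1_uu (d : Derivation ℤ A A) {h : A} (hh : 2 * h = 1) (x : A) (hx : d x = 1) (N : ℕ) :
    L1 d x (uu h N x) = -((2 * N + 1) ^ 2 * cc h N ^ 2 * x ^ (2 * N + 1)) := by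
  induction N with
  | zero => simp [uu, cc_zero, L1]
  | succ N ih =>
    unfold uu at *
    rw [sum_range_succ, L1_add, ih, L1_const_mul _ _ _ _ (d_cc d hh _),
      show 2 * (N + 1) = (2 * N + 1) + 1 by ring, L1_pow d x hx]
    have := cc_succ hh N
    push_cast
    linear_combination x ^ (2 * N + 1) * ((2 * N + 2) * cc h (N + 1) + (2 * N + 1) * cc h N) * this

theorem LL_dvd (d1 d2 : Derivation ℤ A A) (x y : A) (hy1 : d1 y = 0) (hy2 : d2 y = 1)
    (hreg : ∀ a : A, y * a = 0 → a = 0) (p : ℕ) (hu : ∀ j : ℕ, 0 < j → j < p → IsUnit (j : A))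
    (H : A) (hH : LL d1 d2 x y H = 0) (h0 : y ∣ H) (j : ℕ) (hj : j < p) : y ^ (j + 1) ∣ H := by
  induction j with
  | zero => simpa using h0
  | succ j ih =>
    obtain ⟨K, rfl⟩ := ih (by omega)
    have hreg' : ∀ (n : ℕ) (a : A), y ^ n * a = 0 → a = 0 := by
      intro n
      induction n with
      | zero => intro a ha; simpa using ha
      | succ n ihn => intro a ha; exact hreg a (ihn _ (by rw [← ha]; ring))
    have e : y ^ j * (((j + 1 : ℕ) : A) ^ 2 * K - y * (L1 d1 x K - ((1 - y ^ 2) * (2 * (j + 1) * d2 K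
        + y * d2 (d2 K)) - y * (j + 1) * j * K + (1 - 3 * y ^ 2) * d2 K
        - 3 * y * (j + 1) * K - y * K))) = 0 := by
      have hy1' : d1 (y ^ (j + 1)) = 0 := by rw [Derivation.leibniz_pow, hy1]; simp
      rw [LL, L1_const_mul _ _ _ _ hy1'] at hH
      rcases j with _ | j
      · simp only [L1, Derivation.leibniz_pow, Derivation.leibniz, hy2, smul_eq_mul, nsmul_eq_mul,
          Derivation.map_natCast, Nat.add_sub_cancel, Derivation.map_one_eq_zero, map_add,
          zero_add, pow_one] at hH ⊢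
        push_cast at hH ⊢
        linear_combination -hH
      · simp only [L1, Derivation.leibniz_pow, Derivation.leibniz, hy2, smul_eq_mul, nsmul_eq_mul,
          Derivation.map_natCast, Nat.add_sub_cancel, Derivation.map_one_eq_zero, map_add] at hH ⊢
        push_cast at hH ⊢
        linear_combination -hH
    have e2 := hreg' _ _ e
    have hun := (hu (j + 1) (by omega) hj).pow 2
    have : y ∣ ((j + 1 : ℕ) : A) ^ 2 * K := ⟨_, sub_eq_zero.1 e2⟩
    obtain ⟨M, hM⟩ := (hun.dvd_mul_left).1 this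
    exact ⟨M, by rw [hM]; ring⟩

end Pool.Agent.Lib.MP_4af24b_nt
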