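import Pool.Agent.Lib.MP_4af24b_nt.Base
import Pool.Agent.Lib.MP_4af24b_nt.Two

set_option linter.unusedSimpArgs false
set_option linter.unusedSectionVars false

namespace Pool.Agent.Lib.MP_4af24b_nt

open Polynomial Finset

section gen
variable {A : Type*} [CommRing A]

def ul (h : A) (N : ℕ) (l : A) : A := ∑ m ∈ range (N + 1), cc h m ^ 2 * l ^ m

theorem uu_eq_ul (h : A) (N : ℕ) (x : A) : uu h N x = ul h N (x ^ 2) := by
  simp only [uu, ul, pow_mul]

noncomputable def Qp (l : A) : A[X] := (1 - X) * (1 - C l * X)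

theorem map_Qp {B : Type*} [CommRing B] (f : A →+* B) (l : A) : (Qp l).map f = Qp (f l) := by
  simp [Qp]

def aa (A : Type*) [CommRing A] (N j : ℕ) : A := (-1) ^ j * (N.choose j : A)

theorem one_sub_pow_eq (l : A) (N : ℕ) :
    (1 - C l * X : A[X]) ^ N = ∑ j ∈ range (N + 1), C (aa A N j * l ^ j) * X ^ j := by
  rw [sub_eq_add_neg, add_comm, add_pow]
  refine sum_congr rfl fun j _ => ?_
  simp only [aa, map_mul, map_pow, map_neg, map_one, map_natCast, neg_pow (C l * X), mul_pow]
  ring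

theorem coeff_one_sub_pow (N j : ℕ) (hj : j ≤ N) : ((1 - X : A[X]) ^ N).coeff j = aa A N j := by
  have := one_sub_pow_eq (1 : A) N
  rw [map_one, one_mul] at this
  rw [this, finsetSum_coeff, sum_eq_single j]
  · simp
  · intro b _ hb; rw [coeff_C_mul_X_pow, if_neg (Ne.symm hb)]
  · intro h; exact absurd (mem_range.2 (by omega)) h

theorem aa_symm (N j : ℕ) (hj : j ≤ N) : aa A N (N - j) = (-1) ^ N * aa A N j := by
  obtain ⟨i, rfl⟩ := Nat.exists_eq_add_of_le hj
  rw [aa, aa, Nat.choose_symm hj, Nat.add_sub_cancel_left, pow_add]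
  have e : ((-1 : A) ^ j) * (-1) ^ j = 1 := by rw [← mul_pow]; simp
  linear_combination (-(-1) ^ i * ((j + i).choose j : A)) * e

theorem Qp_pow (l : A) (N : ℕ) :
    Qp l ^ N = ∑ j ∈ range (N + 1), (aa A N j * l ^ j) • (X ^ j * (1 - X) ^ N) := by
  rw [Qp, mul_pow, one_sub_pow_eq l, mul_sum]
  refine sum_congr rfl fun j _ => ?_
  rw [smul_eq_C_mul]; ring

theorem qN_eq (l : A) (N : ℕ) :
    (Qp l ^ N).coeff N = ∑ j ∈ range (N + 1), (-1) ^ N * aa A N j ^ 2 * l ^ j := by
  rw [Qp_pow, finsetSum_coeff]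
  refine sum_congr rfl fun j hj => ?_
  have hj' : j ≤ N := by have := mem_range.1 hj; omega
  rw [coeff_smul, coeff_X_pow_mul', if_pos hj', coeff_one_sub_pow _ _ (by omega), aa_symm _ _ hj',
    smul_eq_mul]
  ring

theorem aa_succ (N j : ℕ) (hj : j ≤ N) :
    (2 * j + 2) * aa A N (j + 1) = (2 * j - 2 * N) * aa A N j := by
  have e3 : (N.choose (j + 1) : A) * (j + 1) = N.choose j * (N - j) := by
    have := congrArg (Nat.cast : ℕ → A) (Nat.choose_succ_right_eq N j)
    push_cast [Nat.cast_sub hj] at this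
    exact this
  unfold aa
  linear_combination (-2 * (-1) ^ j) * e3

noncomputable def Bser (h : A) : PowerSeries A := PowerSeries.mk (cc h)

noncomputable def VV (h l : A) : PowerSeries A := Bser h * PowerSeries.rescale l (Bser h)

theorem coeff_VV (h l : A) (N : ℕ) :
    PowerSeries.coeff N (VV h l) = ∑ j ∈ range (N + 1), cc h (N - j) * cc h j * l ^ j := by
  rw [VV, mul_comm, PowerSeries.coeff_mul, Finset.Nat.sum_antidiagonal_eq_sum_range_succ_mk]
  refine sum_congr rfl fun j _ => ?_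
  simp [Bser]; ring

end gen

variable {O k : Type*} [CommRing O] [IsDomain O] [CharZero O] [Field k] {p N : ℕ} {π : O →+* k}

open PowerSeries in
theorem Bser_sq {h : O} (hh : 2 * h = 1) : Bser h ^ 2 * (1 - PowerSeries.X) = 1 := by
  have e : 2 * (1 - PowerSeries.X) * d⁄dX O (Bser h) = Bser h := by
    ext n
    rw [show 2 * (1 - PowerSeries.X) * d⁄dX O (Bser h) = PowerSeries.C 2 *
      (d⁄dX O (Bser h) - PowerSeries.X * d⁄dX O (Bser h)) by rw [map_ofNat]; ring,
      PowerSeries.coeff_C_mul, map_sub]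
    have := cc_succ hh n
    rcases n with _ | n
    · rw [PowerSeries.coeff_zero_X_mul]
      simp only [PowerSeries.coeff_derivative, Bser, PowerSeries.coeff_mk]
      push_cast at this ⊢
      linear_combination this
    · rw [PowerSeries.coeff_succ_X_mul]
      simp only [PowerSeries.coeff_derivative, Bser, PowerSeries.coeff_mk]
      push_cast at this ⊢
      linear_combination this
  apply PowerSeries.derivative.ext
  · simp only [Derivation.leibniz, Derivation.leibniz_pow, map_sub, Derivation.map_one_eq_zero,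
      PowerSeries.derivative_X, smul_eq_mul, nsmul_eq_mul]
    push_cast
    linear_combination Bser h * e
  · simp [Bser, cc_zero]

theorem VV_sq {h : O} (hh : 2 * h = 1) (l : O) :
    VV h l ^ 2 * ((1 - PowerSeries.X) * (1 - PowerSeries.C l * PowerSeries.X)) = 1 := by
  have e1 := Bser_sq hh
  have e2 := congrArg (PowerSeries.rescale l) e1
  rw [map_mul, map_pow, map_sub, map_one, PowerSeries.rescale_X] at e2
  unfold VV
  linear_combination (PowerSeries.rescale l (Bser h) ^ 2
    * (1 - PowerSeries.C l * PowerSeries.X)) * e1 + e2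

theorem VV_zero (h l : O) : PowerSeries.constantCoeff (VV h l) = 1 := by
  rw [← PowerSeries.coeff_zero_eq_constantCoeff_apply, coeff_VV]; simp [cc_zero]

noncomputable def sg (p N : ℕ) (l : O) : O :=
  ∑ i ∈ range p, (Qp l ^ N).coeff i * Ring.inverse (2 * i + 1 : O)

noncomputable def io (O : Type*) [CommRing O] (p N i : ℕ) : O :=
  if i = N then 1 else p * Ring.inverse (2 * i + 1 : O)

noncomputable def JJ (p N : ℕ) : O[X] →ₗ[O] O := ∑ i ∈ range p, io O p N i • lcoeff O i

theorem JJ_apply (P : O[X]) : JJ p N P = ∑ i ∈ range p, io O p N i * P.coeff i := by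
  simp [JJ, LinearMap.sum_apply]

theorem Bs.odd_unit (B : Bs p N π) {i : ℕ} (hi : i < p) (hne : i ≠ N) :
    IsUnit (2 * i + 1 : O) := by
  have : ¬p ∣ 2 * i + 1 := by
    rintro ⟨c, hc⟩
    have := B.hN
    rcases c with _ | _ | c
    · omega
    · omega
    · have : p * (c + 1 + 1) = p * c + 2 * p := by ring
      omega
  exact_mod_cast B.nat_unit this

theorem Bs.io_mul (B : Bs p N π) {i : ℕ} (hi : i < p) : io O p N i * (2 * i + 1) = p := by
  unfold io
  split_ifs with h
  · rw [h, B.hN]; simp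
  · rw [mul_assoc, Ring.inverse_mul_cancel _ (B.odd_unit hi h), mul_one]

theorem Bs.inv_p (B : Bs p N π) : Ring.inverse (2 * N + 1 : O) = 0 := by
  apply Ring.inverse_non_unit
  intro h
  refine (h.map π).ne_zero ?_
  rw [← B.pk, B.hN]; simp [map_ofNat]

theorem Bs.JJ_der (B : Bs p N π) (P : O[X]) (hP : P.natDegree < p) :
    JJ p N (P + 2 * (X * derivative P)) = p * P.eval 1 := by
  rw [JJ_apply, eval_eq_sum_range' hP, mul_sum]
  refine sum_congr rfl fun i hi => ?_
  have : (X * derivative P).coeff i = i * P.coeff i := by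
    rcases i with _ | i
    · simp
    · rw [coeff_X_mul, coeff_derivative]; push_cast; ring
  rw [coeff_add, ← map_ofNat C 2, coeff_C_mul, this, ← B.io_mul (mem_range.1 hi)]
  ring

theorem Bs.JJ_Q (B : Bs p N π) (l : O) :
    JJ p N (Qp l ^ N) = (Qp l ^ N).coeff N + p * sg p N l := by
  have hN : N ∈ range p := mem_range.2 (by have := B.hN; omega)
  rw [JJ_apply, sg, mul_sum, ← add_sum_erase _ _ hN, ← add_sum_erase _ _ hN, B.inv_p]
  simp only [io, if_true, one_mul, mul_zero, zero_add]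
  congr 1
  refine sum_congr rfl fun i hi => ?_
  rw [if_neg (ne_of_mem_erase hi)]; ring

theorem deg_one_sub (m : ℕ) : ((1 - X : O[X]) ^ m).natDegree ≤ m := by
  have : (1 - X : O[X]).natDegree ≤ 1 := by compute_degree
  simpa using natDegree_pow_le_of_le m this

theorem Bs.beta (B : Bs p N π) {h : O} (hh : 2 * h = 1) (m : ℕ) (hm : m ≤ N) :
    (2 * m + 1) * cc h m * JJ p N ((1 - X) ^ m) = p := by
  have hN := B.hN
  induction m with
  | zero => simpa [cc_zero] using B.JJ_der 1 (by simp [B.hp.pos])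
  | succ m ih =>
    have e := B.JJ_der ((1 - X) ^ (m + 1)) ((deg_one_sub _).trans_lt (by omega))
    have e2 : ((1 - X : O[X]) ^ (m + 1) + 2 * (X * derivative ((1 - X) ^ (m + 1))))
        = (2 * m + 3 : O) • (1 - X) ^ (m + 1) - (2 * m + 2 : O) • (1 - X) ^ m := by
      simp only [derivative_pow, smul_eq_C_mul, map_add, map_mul, map_natCast, map_ofNat,
        derivative_sub, derivative_one, derivative_X, Nat.add_sub_cancel]
      push_cast; ring
    rw [e2, map_sub, map_smul, map_smul] at e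
    simp only [smul_eq_mul, eval_pow, eval_sub, eval_one, eval_X, sub_self, ne_eq,
      Nat.add_eq_zero_iff, one_ne_zero, and_false, not_false_eq_true, zero_pow, mul_zero] at e
    have := cc_succ hh m
    push_cast
    linear_combination ih (by omega) + cc h (m + 1) * e + JJ p N ((1 - X) ^ m) * this

theorem Bs.rho_succ (B : Bs p N π) (j : ℕ) (hj : j < N) :
    (2 * j + 2 + p : O) * JJ p N (X ^ (j + 1) * (1 - X) ^ N)
      = (2 * j + 1) * JJ p N (X ^ j * (1 - X) ^ N) := by
  have hN := B.hN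
  have e := B.JJ_der (X ^ j * (1 - X) ^ (N + 1)) (by
    have h1 := deg_one_sub (O := O) (N + 1)
    have h2 := natDegree_mul_le (p := (X : O[X]) ^ j) (q := (1 - X) ^ (N + 1))
    rw [natDegree_X_pow] at h2
    omega)
  have e1 : (X : O[X]) * derivative (X ^ j) = (j : O[X]) * X ^ j := by
    rcases j with _ | j
    · simp
    · simp [derivative_X_pow]; ring
  have e2 : ((X ^ j * (1 - X : O[X]) ^ (N + 1)) + 2 * (X * derivative (X ^ j * (1 - X) ^ (N + 1))))
      = (2 * j + 1 : O) • (X ^ j * (1 - X) ^ N)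
        - (2 * j + 2 + p : O) • (X ^ (j + 1) * (1 - X) ^ N) := by
    rw [derivative_mul, derivative_pow (1 - X), hN]
    simp only [smul_eq_C_mul, map_add, map_mul, map_natCast, map_ofNat, map_one,
      derivative_sub, derivative_one, derivative_X, Nat.add_sub_cancel]
    push_cast
    linear_combination 2 * (1 - X) ^ (N + 1) * e1
  rw [e2, map_sub, map_smul, map_smul] at e
  simp only [smul_eq_mul, eval_mul, eval_pow, eval_sub, eval_one, eval_X, sub_self, ne_eq,
    Nat.add_eq_zero_iff, one_ne_zero, and_false, not_false_eq_true, zero_pow, mul_zero] at e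
  linear_combination -e

theorem Bs.key_j (B : Bs p N π) {h : O} (hh : 2 * h = 1) (j : ℕ) (hj : j ≤ N) :
    (p : O) ^ 2 ∣ cc h (N - j) * JJ p N (X ^ j * (1 - X) ^ N) - aa O N j * cc h j ∧
    (p : O) ∣ JJ p N (X ^ j * (1 - X) ^ N) - (-1) ^ N * cc h j := by
  have hN := B.hN
  have hp : (p : O) = 2 * N + 1 := by rw [hN]; simp
  induction j with
  | zero =>
    have e := B.beta hh N le_rfl
    have e1 : cc h N * JJ p N ((1 - X) ^ N) = 1 := by
      apply mul_left_cancel₀ B.p0; rw [hp] at *; linear_combination e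
    obtain ⟨z, hz⟩ := cc_mod B.hp hN hh N le_rfl
    have e2 : ((-1 : O) ^ N) * (-1) ^ N = 1 := by rw [← mul_pow]; simp
    simp only [Nat.sub_zero, pow_zero, one_mul, e1, aa, cc_zero, Nat.choose_zero_right,
      Nat.cast_one, sub_self, dvd_zero, true_and, mul_one, Nat.choose_self] at hz ⊢
    refine ⟨-(z * (-1) ^ N * JJ p N ((1 - X) ^ N)), ?_⟩
    linear_combination (-1) ^ N * e1 - (-1) ^ N * JJ p N ((1 - X) ^ N) * hz
      - JJ p N ((1 - X) ^ N) * e2
  | succ j ih =>
    obtain ⟨⟨z1, h1⟩, ⟨z2, h2⟩⟩ := ih (by omega)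
    have r := B.rho_succ j (by omega)
    have a := aa_succ (A := O) N j (by omega)
    have c := cc_succ hh j
    have w := cc_succ hh (N - (j + 1))
    rw [show N - (j + 1) + 1 = N - j by omega, Nat.cast_sub hj] at w
    have hu : π (2 * j + 2) ≠ 0 := by
      have := B.natk' (j := 2 * j + 2) (by omega) (by omega)
      simpa [map_ofNat] using this
    generalize JJ p N ((X : O[X]) ^ (j + 1) * (1 - X) ^ N) = ρ' at *
    generalize JJ p N ((X : O[X]) ^ j * (1 - X) ^ N) = ρ at *
    push_cast at w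
    constructor
    · apply B.dvd_of_mul (a := (2 * j + 2) ^ 2) (by rw [map_pow]; exact pow_ne_zero _ hu)
      refine ⟨cc h (N - (j + 1)) * ρ' + (2 * j + 1) * (2 * j - 2 * N) * z1, ?_⟩
      rw [hp] at *
      linear_combination (2 * j + 1 - 2 * N) * cc h (N - (j + 1)) * r + (2 * j + 1) * ρ * w
        + (2 * j + 1) * (2 * j - 2 * N) * h1 - (2 * j + 2) * cc h (j + 1) * a
        - (2 * j - 2 * N) * aa O N j * c
    · apply B.dvd_of_mul hu
      refine ⟨-ρ' + (2 * j + 1) * z2, ?_⟩
      linear_combination r + (2 * j + 1) * h2 - (-1) ^ N * c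

theorem Bs.key (B : Bs p N π) {h : O} (hh : 2 * h = 1) (l : O) :
    (p : O) ^ 2 ∣ (-1) ^ N * ul h N l - PowerSeries.coeff N (VV h l) - p * sg p N l ∧
    (p : O) ∣ (Qp l ^ N).coeff N - PowerSeries.coeff N (VV h l) ∧
    (p : O) ∣ (-1) ^ N * ul h N l - (Qp l ^ N).coeff N := by
  have e2 : ((-1 : O) ^ N) * (-1) ^ N = 1 := by rw [← mul_pow]; simp
  have f1 : ∀ j ≤ N, (p : O) ∣ cc h j - aa O N j := fun j hj => cc_mod B.hp B.hN hh j hj
  refine ⟨?_, ?_, ?_⟩
  · have e := B.JJ_Q l
    rw [show (p : O) * sg p N l = JJ p N (Qp l ^ N) - (Qp l ^ N).coeff N by rw [e]; ring, qN_eq,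
      Qp_pow, map_sum, coeff_VV, ul, mul_sum, ← sum_sub_distrib, ← sum_sub_distrib,
      ← sum_sub_distrib]
    refine dvd_sum fun j hj => ?_
    have hj' : j ≤ N := by have := mem_range.1 hj; omega
    obtain ⟨⟨z1, h1⟩, ⟨z2, h2⟩⟩ := B.key_j hh j hj'
    obtain ⟨z3, h3⟩ := f1 j hj'
    obtain ⟨z4, h4⟩ := f1 (N - j) (by omega)
    rw [aa_symm _ _ hj'] at h4
    rw [map_smul, smul_eq_mul]
    generalize JJ p N ((X : O[X]) ^ j * (1 - X) ^ N) = ρ at *
    generalize cc h (N - j) = W at *
    generalize (-1 : O) ^ N = e at *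
    have ha : aa O N j = cc h j - p * z3 := by linear_combination -h3
    have hρ : ρ = e * cc h j + p * z2 := by linear_combination h2
    have hW : W = e * (cc h j - p * z3) + p * z4 := by rw [← ha]; linear_combination h4
    rw [ha] at h1 ⊢
    subst hρ hW
    refine ⟨l ^ j * (-e * z1 + e * z2 * (z4 - e * z3) + z2 * z3 + e * z3 ^ 2), ?_⟩
    generalize cc h j = c at *
    linear_combination (-(l ^ j * e)) * h1 + l ^ j * (e * c ^ 2 + p * c * (z2 + z4 - e * z3)) * e2
  · rw [qN_eq, coeff_VV, ← sum_sub_distrib]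
    refine dvd_sum fun j hj => ?_
    have hj' : j ≤ N := by have := mem_range.1 hj; omega
    obtain ⟨z3, h3⟩ := f1 j hj'
    obtain ⟨z4, h4⟩ := f1 (N - j) (by omega)
    rw [aa_symm _ _ hj'] at h4
    refine ⟨-(l ^ j * (z4 * cc h j + (-1) ^ N * aa O N j * z3)), ?_⟩
    linear_combination (-(l ^ j * cc h j)) * h4 - l ^ j * (-1) ^ N * aa O N j * h3
  · rw [qN_eq, ul, mul_sum, ← sum_sub_distrib]
    refine dvd_sum fun j hj => ?_
    have hj' : j ≤ N := by have := mem_range.1 hj; omega
    obtain ⟨z3, h3⟩ := f1 j hj'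
    refine ⟨l ^ j * (-1) ^ N * z3 * (cc h j + aa O N j), ?_⟩
    linear_combination l ^ j * (-1) ^ N * (cc h j + aa O N j) * h3

end Pool.Agent.Lib.MP_4af24b_nt
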