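import Pool.Agent.Lib.MP_4af24b_nt.Iso

set_option linter.unusedSimpArgs false

namespace Pool.Agent.Lib.MP_4af24b_nt

open PowerSeries

theorem second_diff (q : ℤ → ℤ) (a : ℤ) (h : ∀ x, q (x + 1) + q (x - 1) = 2 * q x + 2 * a)
    (x : ℤ) : q x = q 0 + x * (q 1 - q 0 - a) + a * x ^ 2 := by
  have key : ∀ x : ℤ, q (x + 1) - q x = q 1 - q 0 + 2 * a * x := by
    intro x
    induction x using Int.induction_on with
    | zero => simp
    | succ n ih =>
      have := h (n + 1)
      rw [add_sub_cancel_right] at this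
      linear_combination ih + this
    | pred n ih =>
      have := h (-n)
      rw [sub_add_cancel]
      linear_combination ih - this
  induction x using Int.induction_on with
  | zero => simp
  | succ n ih => linear_combination ih + key n
  | pred n ih =>
    have := key (-n - 1)
    rw [sub_add_cancel] at this
    linear_combination ih - this

theorem quad_form (Q : ℤ → ℤ → ℤ)
    (h : ∀ x y x' y', Q (x + x') (y + y') + Q (x - x') (y - y') = 2 * Q x y + 2 * Q x' y') :
    ∃ c, ∀ x y, Q x y = Q 1 0 * x ^ 2 + Q 0 1 * y ^ 2 + c * (x * y) := by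
  have h0 : Q 0 0 = 0 := by have := h 0 0 0 0; simp at this; omega
  have h1 : Q 0 (-1) = Q 0 1 := by have := h 0 0 0 1; simp at this; omega
  have a1 : ∀ x y, Q x y = Q 0 y + x * (Q 1 y - Q 0 y - Q 1 0) + Q 1 0 * x ^ 2 := fun x y =>
    second_diff (fun x => Q x y) (Q 1 0) (fun x => by simpa using h x y 1 0) x
  have a2 : ∀ x y, Q x y = Q x 0 + y * (Q x 1 - Q x 0 - Q 0 1) + Q 0 1 * y ^ 2 := fun x y =>
    second_diff (fun y => Q x y) (Q 0 1) (fun y => by simpa using h x y 0 1) y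
  refine ⟨Q 1 1 - Q 1 0 - Q 0 1, fun x y => ?_⟩
  linear_combination a1 x y + (1 - x) * a2 0 y + x * a2 1 y + (1 - x) * (1 - y) * h0

theorem cmap {A B : Type*} [CommRing A] [CommRing B] (ρ : A →+* B) (f : A⟦X⟧) :
    constantCoeff (map ρ f) = ρ (constantCoeff f) := by
  rw [← coeff_zero_eq_constantCoeff_apply, coeff_map, coeff_zero_eq_constantCoeff_apply]

variable {O : Type*} [CommRing O] [IsDomain O] [CharZero O] {l l' α1 α2 δ : O}

omit [CharZero O] in
theorem Iso.ex_int {f r : O⟦X⟧} (h : Iso l l' α1 f r) (x : ℤ) :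
    ∃ g s, Iso l l' (x * α1) g s := by
  induction x using Int.induction_on with
  | zero => exact ⟨0, 0, by simpa using Iso.zero⟩
  | succ n ih =>
    obtain ⟨g, s, ih⟩ := ih
    obtain ⟨g', s', i, -⟩ := ih.add h
    exact ⟨g', s', by convert i using 1; push_cast; ring⟩
  | pred n ih =>
    obtain ⟨g, s, ih⟩ := ih
    obtain ⟨g', s', i, -⟩ := ih.add h.neg
    exact ⟨g', s', by convert i using 1; push_cast; ring⟩

omit [CharZero O] in
theorem Iso.ex_lat {f1 r1 f2 r2 : O⟦X⟧} (h1 : Iso l l' α1 f1 r1) (h2 : Iso l l' α2 f2 r2)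
    (x y : ℤ) : ∃ g s, Iso l l' (x * α1 + y * α2) g s := by
  obtain ⟨g, s, i⟩ := h1.ex_int x
  obtain ⟨g', s', i'⟩ := h2.ex_int y
  obtain ⟨g, s, i, -⟩ := i.add i'
  exact ⟨g, s, i⟩

theorem lattice_deg {f1 r1 f2 r2 fd rd : O⟦X⟧} {m1 m2 : ℕ} (hm1 : 0 < m1) (hm2 : 0 < m2)
    (h1 : Iso l l' α1 f1 r1) (h2 : Iso l l' α2 f2 r2) (hd : Iso l l δ fd rd)
    (dd : HD fd (m1 * m2)) (e1 : δ * α1 = m1 * α2) (e2 : δ * α2 = -(m2 * α1))
    {F : Type*} [Field F] (ρ : O →+* F) (t2 : (2 : F) ≠ 0) (l0 : ρ l' ≠ 0) (l1 : ρ l' ≠ 1)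
    (hred : ∀ (f : O⟦X⟧) (a : ℕ), HD f a → HD (map ρ f) a)
    (x y : ℤ) {f r : O⟦X⟧} (h : Iso l l' (x * α1 + y * α2) f r) :
    (m1 : ℤ) * ht (map ρ f) = ht (map ρ f1) * (m1 * x ^ 2 + m2 * y ^ 2) := by
  choose g s hg using h1.ex_lat h2
  have rt : ∀ x y, ∃ a, HD (map ρ (g x y)) a := fun x y => by
    obtain ⟨a, ha⟩ := (hg x y).rf
    exact ⟨a, hred _ _ ha⟩
  let Q : ℤ → ℤ → ℤ := fun x y => ht (map ρ (g x y))
  have par : ∀ x y x' y', Q (x + x') (y + y') + Q (x - x') (y - y') = 2 * Q x y + 2 * Q x' y' := by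
    intro x y x' y'
    have := (hg x y).para (hg x' y') (fp := g (x + x') (y + y')) (rp := s (x + x') (y + y'))
      (fm := g (x - x') (y - y')) (rm := s (x - x') (y - y'))
      (by convert hg (x + x') (y + y') using 1; push_cast; ring)
      (by convert hg (x - x') (y - y') using 1; push_cast; ring)
    obtain ⟨a1, r1⟩ := rt x y
    obtain ⟨a2, r2⟩ := rt x' y'
    obtain ⟨a3, r3⟩ := rt (x + x') (y + y')
    obtain ⟨a4, r4⟩ := rt (x - x') (y - y')
    have b1 := congrArg (map ρ) this.1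
    have b2 := congrArg (map ρ) this.2
    simp only [map_mul, map_pow, map_sub, map_add, map_one, map_C, map_ofNat] at b1 b2
    have := parallelogram (ρ l') t2 l0 l1 r1 r2 r3 r4 (fun h0 => by
      have := congrArg constantCoeff h0
      simp [cmap, (hg x y).f0] at this
      ) b1 b2
    simp only [Q]
    exact_mod_cast this
  obtain ⟨c, hc⟩ := quad_form Q par
  have sub : ∀ x y, Q (-(m2 * y)) (m1 * x) ≤ Q x y * (m1 * m2) := by
    intro x y
    have i := hd.comp (hg x y)
    have : g (-(m2 * y)) (m1 * x) = (g x y).subst fd := by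
      refine (hg _ _).unique (s := subst fd (s x y) * rd) ?_
      convert i using 1
      push_cast
      linear_combination -x * e1 - y * e2
    obtain ⟨a, ha⟩ := rt x y
    have hs := HasSubst.of_constantCoeff_zero' hd.f0
    have h3 := (ha.ht.comp (hred _ _ dd) (by
      simp [cmap, hd.f0])).ht_le
    simp only [Q]
    rw [this]
    have h4 : map ρ (subst fd (g x y)) = subst (map ρ fd) (map ρ (g x y)) := map_subst hs _
    rw [h4]
    exact_mod_cast h3
  have q1 : Q 1 0 = ht (map ρ f1) := by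
    simp only [Q]; rw [(hg 1 0).unique (by simpa using h1)]
  have qx : Q x y = ht (map ρ f) := by
    simp only [Q]; rw [(hg x y).unique h]
  have s1 := sub 1 0
  have s2 := sub 0 1
  have s3 := sub 1 1
  have s4 := sub 1 (-1)
  rw [hc (-(m2 * _))] at s1 s2 s3 s4
  rw [hc 1 1] at s3
  rw [hc 1 (-1)] at s4
  rw [← q1, ← qx, hc x y]
  generalize Q 1 0 = a at *
  generalize Q 0 1 = b at *
  have hm1' : (0 : ℤ) < m1 := by exact_mod_cast hm1
  have hm2' : (0 : ℤ) < m2 := by exact_mod_cast hm2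
  have t1 : b * m1 ≤ a * m2 := by
    apply le_of_mul_le_mul_right _ hm1'; nlinarith
  have t2 : a * m2 ≤ b * m1 := by
    apply le_of_mul_le_mul_right _ hm2'; nlinarith
  have t3 : b * m1 = a * m2 := le_antisymm t1 t2
  have hm := mul_pos hm1' hm2'
  have t4 : c = 0 := by
    have u1 : 0 ≤ c * (m1 * m2) := by nlinarith
    have u2 : c * (m1 * m2) ≤ 0 := by nlinarith
    exact (mul_eq_zero.1 (le_antisymm u2 u1)).resolve_right hm.ne'
  rw [t4]
  linear_combination y ^ 2 * t3

end Pool.Agent.Lib.MP_4af24b_nt
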