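import Pool.Agent.Lib.MP_4af24b_nt.Data

set_option linter.unusedSimpArgs false
set_option linter.unusedSectionVars false

namespace Pool.Agent.Lib.MP_4af24b_nt

open Finset

theorem exists_base (p : ℕ) (hp : p.Prime) (h2 : p ≠ 2) :
    ∃ (O k : Type) (_ : CommRing O) (_ : IsDomain O) (_ : CharZero O) (_ : Field k)
      (π : O →+* k), Bs p (p / 2) π ∧ ∀ d : ℤ, ¬(p : ℤ) ∣ d → ∃ a : O, a * a = d := by
  have : Fact p.Prime := ⟨hp⟩
  let k := AlgebraicClosure (ZMod p)
  let O := WittVector p k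
  let π : O →+* k := WittVector.constantCoeff
  have B : Bs p (p / 2) π :=
    { hp := hp
      hN := by have := hp.eq_two_or_odd; omega
      ker := fun x => by
        rw [← Ideal.mem_span_singleton, WittVector.mem_span_p_iff_coeff_zero_eq_zero]; rfl
      unit := fun x hx => WittVector.isUnit_of_coeff_zero_ne_zero x hx
      wf := inferInstance }
  have hz : CharZero O := by
    refine charZero_of_inj_zero fun n hn => ?_
    by_contra h0
    obtain ⟨e, m, hm, rfl⟩ := Nat.exists_eq_pow_mul_and_not_dvd h0 p hp.ne_one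
    push_cast at hn
    rcases mul_eq_zero.1 hn with h | h
    · exact WittVector.p_nonzero p k (eq_zero_of_pow_eq_zero h)
    · have := congrArg π h
      rw [map_natCast, map_zero, CharP.cast_eq_zero_iff k p] at this
      exact hm this
  refine ⟨O, k, inferInstance, inferInstance, hz, inferInstance, π, B, fun d hd => ?_⟩
  obtain ⟨a, ha⟩ := IsAlgClosed.exists_pow_nat_eq (d : k) two_pos
  let a0 : O := WittVector.teichmuller p a
  have ha0 : π a0 = a := rfl
  have hd0 : (d : k) ≠ 0 := B.intk hd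
  have hH : HenselianRing O (Ideal.span {(p : O)}) := inferInstance
  obtain ⟨b, hb, -⟩ := hH.is_henselian (Polynomial.X ^ 2 - Polynomial.C (d : O))
    (Polynomial.monic_X_pow_sub_C _ two_ne_zero) a0
    (by rw [Ideal.mem_span_singleton, ← B.ker]; simp [ha0, ha, map_intCast π])
    (by
      refine IsUnit.map _ (B.unit _ ?_)
      have : a ≠ 0 := by rintro rfl; exact hd0 (by rw [← ha]; simp)
      simp [ha0, this, B.two, map_ofNat, one_add_one_eq_two])
  refine ⟨b, ?_⟩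
  have : b ^ 2 - d = 0 := by simpa using hb
  linear_combination this

variable {O k : Type*} [CommRing O] [IsDomain O] [CharZero O] [Field k] {p N : ℕ} {π : O →+* k}

theorem Bs.euler (B : Bs p N π) (d : ℤ) : (d : k) ^ N = (jacobiSym d p : k) := by
  have : Fact p.Prime := ⟨B.hp⟩
  have := B.char
  have e := congrArg (ZMod.castHom (dvd_refl p) k) (legendreSym.eq_pow p d)
  rw [map_intCast, map_pow, map_intCast, jacobiSym.legendreSym.to_jacobiSym,
    show p / 2 = N by have := B.hN; omega] at e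
  exact e.symm

theorem Bs.root (B : Bs p N π) {a : O} {d : ℤ} (h : a * a = d) :
    π a ^ p = (jacobiSym d p : k) * π a := by
  have := congrArg π h
  rw [map_mul, map_intCast] at this
  rw [← B.euler, ← this, B.hN]; ring

theorem Bs.fr (B : Bs p N π) {d : ℕ} {a b c : O} (ha : a * a = 2) (hb : b * b = 3)
    (hc : c * c = d) (b1 b2 b3 : Bool) (h1 : jacobiSym 2 p = sb ℤ b1)
    (h2 : jacobiSym 3 p = sb ℤ b2) (h3 : jacobiSym d p = sb ℤ b3) (z : L3 d) :
    π (ev d a b c ha hb hc (sgn d b1 b2 b3 z)) = π (ev d a b c ha hb hc z) ^ p := by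
  have : Fact p.Prime := ⟨B.hp⟩
  have := B.char
  refine L3_ext ((π.comp (ev d a b c ha hb hc)).comp (sgn d b1 b2 b3))
    ((frobenius k p).comp (π.comp (ev d a b c ha hb hc))) ?_ ?_ ?_ z
  · simp [sgn_A, ev_A, frobenius_def, B.root (d := 2) (by simpa using ha), h1]
  · simp [sgn_B, ev_B, frobenius_def, B.root (d := 3) (by simpa using hb), h2]
  · simp [sgn_C, ev_C, frobenius_def, B.root (d := d) (by simpa using hc), h3]

theorem Bs.int_dvd (B : Bs p N π) {z : ℤ} (h : (p : O) ∣ z) : (p : ℤ) ∣ z := by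
  by_contra hc
  exact B.intk hc (by rw [← map_intCast π, B.ker]; exact h)

theorem Bs.descend (B : Bs p N π) {h : O} (hh : 2 * h = 1) (b v : ℤ)
    (H : (p : O) ^ 2 ∣ Phi h b N - v) : Cong p (S b p) v := by
  have hN := B.hN
  let Z : ℤ := ∑ j ∈ range p, ((2 * j).choose j : ℤ) ^ 2 * T (2 * j) b 1 * 256 ^ (p - j)
  have e1 : (S b p - v) * 256 ^ p = ((Z - v * 256 ^ p : ℤ) : ℚ) := by
    simp only [Z, S, sub_mul, sum_mul]
    push_cast
    congr 1
    refine sum_congr rfl fun j hj => ?_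
    have := map_T (Int.castRingHom ℚ) (2 * j) b 1
    simp only [eq_intCast, Int.cast_one] at this
    rw [this, show (256 : ℚ) ^ p = 256 ^ j * 256 ^ (p - j) by
      rw [← pow_add]; congr 1; have := mem_range.1 hj; omega]
    field_simp
  have e2 : (p : O) ^ 2 ∣ ((Z - v * 256 ^ p : ℤ) : O) := by
    have h8 : (256 : O) * h ^ 8 = 1 := by
      rw [show (256 : O) * h ^ 8 = (2 * h) ^ 8 by ring, hh, one_pow]
    have e3 : ((Z - v * 256 ^ p : ℤ) : O) = 256 ^ p * (Phi h b N - v)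
        + ∑ j ∈ range N, ((2 * (N + 1 + j)).choose (N + 1 + j) : O) ^ 2 * T (2 * (N + 1 + j)) (b : O) 1
          * 256 ^ (p - (N + 1 + j)) := by
      simp only [Z]
      push_cast
      have hT : ∀ j, ((T j b 1 : ℤ) : O) = T j (b : O) 1 := fun j => by
        simpa using map_T (Int.castRingHom O) j b 1
      simp only [hT]
      nth_rewrite 1 [show p = N + 1 + N by omega]
      rw [sum_range_add, Phi, mul_sub, mul_sum]
      have : ∀ j ∈ range (N + 1), ((2 * j).choose j : O) ^ 2 * T (2 * j) (b : O) 1 * 256 ^ (p - j)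
          = 256 ^ p * (cc h j ^ 2 * T (2 * j) (b : O) 1 * h ^ (4 * j)) := by
        intro j hj
        have h9 : (256 : O) ^ j * (h ^ 8) ^ j = 1 := by rw [← mul_pow, h8, one_pow]
        rw [show (256 : O) ^ p = 256 ^ j * 256 ^ (p - j) by
          rw [← pow_add]; congr 1; have := mem_range.1 hj; omega, cc]
        linear_combination (-(((2 * j).choose j : O) ^ 2 * T (2 * j) (b : O) 1 * 256 ^ (p - j)))
          * h9
      rw [sum_congr rfl this]; ring
    rw [e3]
    refine dvd_add (H.mul_left _) (dvd_sum fun j hj => ?_)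
    have := mem_range.1 hj
    have : p ∣ (2 * (N + 1 + j)).choose (N + 1 + j) :=
      B.hp.dvd_choose (by omega) (by omega) (by omega)
    exact ((pow_dvd_pow_of_dvd (Nat.cast_dvd_cast this) 2).mul_right _).mul_right _
  generalize Z - v * 256 ^ p = W at *
  obtain ⟨w, rfl⟩ := B.int_dvd ((dvd_pow_self _ two_ne_zero).trans e2)
  rw [pow_two] at e2
  push_cast at e2
  obtain ⟨w', rfl⟩ := B.int_dvd ((mul_dvd_mul_iff_left B.p0).1 e2)
  unfold Cong
  generalize S b p - v = s at *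
  have e4 : s.num * 256 ^ p = p * (p * w') * s.den := by
    have := Rat.mul_den_eq_num s
    have e5 : (s.num : ℚ) * 256 ^ p = ((p * (p * w') : ℤ) : ℚ) * s.den := by
      rw [← this, ← e1]; ring
    exact_mod_cast e5
  have hc : IsCoprime ((p : ℤ) ^ 2) (256 ^ p) := by
    rw [show (256 : ℤ) = (2 : ℕ) ^ 8 by norm_num]
    refine IsCoprime.pow (IsCoprime.pow_right ?_)
    rw [Nat.isCoprime_iff_coprime, Nat.coprime_primes B.hp Nat.prime_two]
    omega
  exact hc.dvd_of_dvd_mul_right ⟨w' * s.den, by rw [e4]; ring⟩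

theorem Bs.nrm (B : Bs p N π) {L : Type*} [CommRing L] {a b : L} {n : ℕ} (h : a * b = n)
    (hn : ¬p ∣ n) (ψ : L →+* k) : ψ a ≠ 0 := by
  intro h0
  have := congrArg ψ h
  rw [map_mul, h0, zero_mul, map_natCast] at this
  exact B.natk hn this.symm

theorem even_aux {p x y : ℤ} {c : ℤ} (h : 2 * p = 3 * x ^ 2 + 2 * c * y ^ 2) :
    ∃ u, x = 2 * u ∧ p = 6 * u ^ 2 + c * y ^ 2 := by
  have : (2 : ℤ) ∣ x := Int.prime_two.dvd_of_dvd_pow (n := 2)
    ⟨p - x ^ 2 - c * y ^ 2, by linear_combination -h⟩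
  obtain ⟨u, rfl⟩ := this
  exact ⟨u, rfl, by linarith⟩

theorem jac_pm {p : ℕ} (hp : p.Prime) {q : ℕ} (h : ¬p ∣ q) :
    jacobiSym q p = sb ℤ false ∨ jacobiSym q p = sb ℤ true :=
  jacobiSym.eq_one_or_neg_one (by
    rw [Int.gcd_natCast_natCast]; exact ((hp.coprime_iff_not_dvd).2 h).symm)

theorem main18 (p : ℕ) (hp : p.Prime) (h3 : 3 < p) :
    (∀ x y : ℤ, jacobiSym 2 p = 1 → jacobiSym p 3 = 1 → jacobiSym p 5 = 1 →
      (p : ℤ) = x ^ 2 + 30 * y ^ 2 → Cong p (S 18 p) (4 * x ^ 2 - 2 * p)) ∧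
    (∀ x y : ℤ, jacobiSym p 3 = 1 → jacobiSym 2 p = -1 → jacobiSym p 5 = -1 →
      (p : ℤ) = 3 * x ^ 2 + 10 * y ^ 2 → Cong p (S 18 p) (12 * x ^ 2 - 2 * p)) ∧
    (∀ x y : ℤ, jacobiSym 2 p = 1 → jacobiSym p 3 = -1 → jacobiSym p 5 = -1 →
      (p : ℤ) = 2 * x ^ 2 + 15 * y ^ 2 → Cong p (S 18 p) (2 * p - 8 * x ^ 2)) ∧
    (∀ x y : ℤ, jacobiSym p 5 = 1 → jacobiSym 2 p = -1 → jacobiSym p 3 = -1 →
      2 * (p : ℤ) = 3 * x ^ 2 + 10 * y ^ 2 → Cong p (S 18 p) (2 * p - 6 * x ^ 2)) ∧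
    (jacobiSym (-30) p = -1 → Cong p (S 18 p) 0) := by
  by_cases h5 : p = 5
  · subst h5
    refine ⟨?_, ?_, ?_, ?_, ?_⟩ <;> norm_num
  obtain ⟨O, k, _, _, _, _, π, B, hs⟩ := exists_base p hp (by omega)
  have nd : ∀ q : ℕ, q.Prime → q ≤ 5 → ¬p ∣ q := fun q hq h1 h => by
    have := (Nat.prime_dvd_prime_iff_eq hp hq).1 h
    have : p = 4 := by omega
    subst this; norm_num at hp
  have n2 := nd 2 (by norm_num) (by norm_num)
  have n3 := nd 3 (by norm_num) (by norm_num)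
  have n5 := nd 5 (by norm_num) (by norm_num)
  obtain ⟨a, ha⟩ := hs (2 : ℕ) (by rwa [Int.natCast_dvd_natCast])
  obtain ⟨b, hb⟩ := hs (3 : ℕ) (by rwa [Int.natCast_dvd_natCast])
  obtain ⟨c, hc⟩ := hs (5 : ℕ) (by rwa [Int.natCast_dvd_natCast])
  obtain ⟨i, hi⟩ := hs (-1) (by rw [dvd_neg, Int.natCast_dvd]; simp; omega)
  obtain ⟨h, hh⟩ := (B.nat_unit n2).exists_right_inv
  push_cast at ha hb hi hh
  rw [Int.cast_natCast] at hc
  rw [← pow_two] at hi
  have n30 : ¬p ∣ 6 * (2 * 2 + 1) := by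
    rw [show 6 * (2 * 2 + 1) = 2 * (3 * 5) by rfl, hp.dvd_mul, hp.dvd_mul]; tauto
  have r5 : jacobiSym (5 : ℕ) p = jacobiSym p 5 :=
    jacobiSym.quadratic_reciprocity_one_mod_four (by norm_num) (hp.odd_of_ne_two (by omega))
  have hU : jacobiSym 2 p * jacobiSym p 3 * jacobiSym p 5 = 1 → ∀ ψ : L3 5 →+* k,
      ψ x30 ^ 2 + 1 ≠ 0 ∧ ψ x30 ^ 2 - 2 ≠ 0 ∧ 2 * ψ x30 ^ 2 - 1 ≠ 0 ∧
      (ψ x30 ^ 2) ^ 2 - ψ x30 ^ 2 + 1 ≠ 0 := by
    intro hJ ψ
    have hM : ¬p ∣ (2 * (3 * (5 * (7 * (19 * (41 * (71 * 89))))))) ^ 2 := by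
      intro h
      have := hp.dvd_of_dvd_pow h
      simp only [hp.dvd_mul] at this
      rcases this with h | h | h | h | h | h | h | h <;>
      · have := (Nat.prime_dvd_prime_iff_eq hp (by norm_num)).1 h
        subst this
        norm_num at hJ
    refine ⟨?_, ?_, ?_, ?_⟩
    · simpa using B.nrm nrm30_0 (fun h => hM (h.trans (by norm_num))) ψ
    · simpa [map_ofNat] using B.nrm nrm30_1 (fun h => hM (h.trans (by norm_num))) ψ
    · simpa [map_ofNat] using B.nrm nrm30_2 (fun h => hM (h.trans (by norm_num))) ψ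
    · simpa only [map_add, map_sub, map_pow, map_one] using
        B.nrm nrm30_3 (fun h => hM (h.trans (by norm_num))) ψ
  have M := fun hJ => fam30.main B n30 hi hh (ev 5 a b c ha hb hc) (hU hJ)
  have fr := fun b1 b2 b3 h1 h2 h3 => B.fr ha hb hc b1 b2 b3 h1 h2 (r5.trans h3)
  have j3 := jac_pm hp n3
  refine ⟨fun x y j1 j2 j5 e => ?_, fun x y j2 j1 j5 e => ?_, fun x y j1 j2 j5 e => ?_,
    fun x y j5 j1 j2 e => ?_, fun j => ?_⟩
  · refine B.descend hh 18 _ ((M (by simp [j1, j2, j5]) x y).1 ?_ (by rw [e]; norm_num))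
    rcases j3 with j3 | j3
    · exact Or.inl fun z => by simpa [sgn_id] using fr false false false j1 j3 j5 z
    · exact Or.inr fun z => by simpa using fr false true false j1 j3 j5 z
  · refine B.descend hh 18 _ ((M (by simp [j1, j2, j5]) x y).2.1 ?_ (by rw [e]; norm_num))
    rcases j3 with j3 | j3
    · exact Or.inr fun z => by simpa [sgn_comp] using fr true false true j1 j3 j5 z
    · exact Or.inl fun z => fr true true true j1 j3 j5 z
  · refine B.descend hh 18 _ ((M (by simp [j1, j2, j5]) x y).2.2.1 ?_ (by rw [e]; norm_num))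
    rcases j3 with j3 | j3
    · exact Or.inl fun z => fr false false true j1 j3 j5 z
    · exact Or.inr fun z => by simpa [sgn_comp] using fr false true true j1 j3 j5 z
  · obtain ⟨u, rfl, e'⟩ := even_aux (c := 5) (p := p) (x := x) (y := y) (by rw [e]; norm_num)
    rw [show 2 * (p : ℤ) - 6 * (2 * u) ^ 2 = 2 * p - 24 * u ^ 2 by ring]
    refine B.descend hh 18 _ ((M (by simp [j1, j2, j5]) u y).2.2.2 ?_ (by rw [e']; norm_num))
    rcases j3 with j3 | j3
    · exact Or.inr fun z => by simpa [sgn_comp] using fr true false false j1 j3 j5 z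
    · exact Or.inl fun z => by simpa [sgn_comp] using fr true true false j1 j3 j5 z
  · refine B.descend hh 18 0 ?_
    rw [Int.cast_zero, sub_zero]
    refine fam30.inert B (by exact_mod_cast B.natk n3) hi hh (ev 5 a b c ha hb hc) ?_
    have := B.euler (-30)
    rw [j] at this
    exact_mod_cast this

theorem main30 (p : ℕ) (hp : p.Prime) (h3 : 3 < p) :
    (∀ x y : ℤ, jacobiSym (-2) p = 1 → jacobiSym p 3 = 1 → jacobiSym p 7 = 1 →
      (p : ℤ) = x ^ 2 + 42 * y ^ 2 → Cong p (S 30 p) (4 * x ^ 2 - 2 * p)) ∧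
    (∀ x y : ℤ, jacobiSym (-2) p = 1 → jacobiSym p 3 = -1 → jacobiSym p 7 = -1 →
      (p : ℤ) = 3 * x ^ 2 + 14 * y ^ 2 → Cong p (S 30 p) (12 * x ^ 2 - 2 * p)) ∧
    (∀ x y : ℤ, jacobiSym p 7 = 1 → jacobiSym (-2) p = -1 → jacobiSym p 3 = -1 →
      (p : ℤ) = 2 * x ^ 2 + 21 * y ^ 2 → Cong p (S 30 p) (2 * p - 8 * x ^ 2)) ∧
    (∀ x y : ℤ, jacobiSym p 3 = 1 → jacobiSym (-2) p = -1 → jacobiSym p 7 = -1 →
      2 * (p : ℤ) = 3 * x ^ 2 + 14 * y ^ 2 → Cong p (S 30 p) (2 * p - 6 * x ^ 2)) ∧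
    (jacobiSym (-42) p = -1 → Cong p (S 30 p) 0) := by
  by_cases h7 : p = 7
  · subst h7
    refine ⟨?_, ?_, ?_, ?_, ?_⟩ <;> norm_num
  obtain ⟨O, k, _, _, _, _, π, B, hs⟩ := exists_base p hp (by omega)
  have n2 : ¬p ∣ 2 := fun h => by have := Nat.le_of_dvd (by norm_num) h; omega
  have n3 : ¬p ∣ 3 := fun h => by have := Nat.le_of_dvd (by norm_num) h; omega
  have n7 : ¬p ∣ 7 := fun h => h7 ((Nat.prime_dvd_prime_iff_eq hp (by norm_num)).1 h)
  obtain ⟨a, ha⟩ := hs (2 : ℕ) (by rwa [Int.natCast_dvd_natCast])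
  obtain ⟨b, hb⟩ := hs (3 : ℕ) (by rwa [Int.natCast_dvd_natCast])
  obtain ⟨c, hc⟩ := hs (7 : ℕ) (by rwa [Int.natCast_dvd_natCast])
  obtain ⟨i, hi⟩ := hs (-1) (by rw [dvd_neg, Int.natCast_dvd]; simp; omega)
  obtain ⟨h, hh⟩ := (B.nat_unit n2).exists_right_inv
  push_cast at ha hb hi hh
  rw [Int.cast_natCast] at hc
  rw [← pow_two] at hi
  have n42 : ¬p ∣ 6 * (2 * 3 + 1) := by
    rw [show 6 * (2 * 3 + 1) = 2 * (3 * 7) by rfl, hp.dvd_mul, hp.dvd_mul]; tauto
  have ho := hp.odd_of_ne_two (by omega)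
  have hU : jacobiSym (-2) p * jacobiSym p 3 * jacobiSym p 7 = 1 → ∀ ψ : L3 7 →+* k,
      ψ x42 ^ 2 + 1 ≠ 0 ∧ ψ x42 ^ 2 - 2 ≠ 0 ∧ 2 * ψ x42 ^ 2 - 1 ≠ 0 ∧
      (ψ x42 ^ 2) ^ 2 - ψ x42 ^ 2 + 1 ≠ 0 := by
    intro hJ ψ
    have hM : ¬p ∣ (2 * (3 * (5 * (7 * (11 * (19 * (47 * (101 * 167)))))))) ^ 2 := by
      intro h
      have := hp.dvd_of_dvd_pow h
      simp only [hp.dvd_mul] at this
      rcases this with h | h | h | h | h | h | h | h | h <;>
      · have := (Nat.prime_dvd_prime_iff_eq hp (by norm_num)).1 h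
        subst this
        norm_num at hJ
    refine ⟨?_, ?_, ?_, ?_⟩
    · simpa using B.nrm nrm42_0 (fun h => hM (h.trans (by norm_num))) ψ
    · simpa [map_ofNat] using B.nrm nrm42_1 (fun h => hM (h.trans (by norm_num))) ψ
    · simpa [map_ofNat] using B.nrm nrm42_2 (fun h => hM (h.trans (by norm_num))) ψ
    · simpa only [map_add, map_sub, map_pow, map_one] using
        B.nrm nrm42_3 (fun h => hM (h.trans (by norm_num))) ψ
  have M := fun hJ => fam42.main B n42 hi hh (ev 7 a b c ha hb hc) (hU hJ)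
  have fr : ∀ b1 b2 b3 : Bool, jacobiSym (-2) p = sb ℤ b1 → jacobiSym p 3 = sb ℤ b2 →
      jacobiSym p 7 = sb ℤ b3 →
      (∀ z, π (ev 7 a b c ha hb hc (sgn 7 b1 b2 b3 z)) = π (ev 7 a b c ha hb hc z) ^ p) ∨
      (∀ z, π (ev 7 a b c ha hb hc (sgn 7 (!b1) (!b2) (!b3) z))
        = π (ev 7 a b c ha hb hc z) ^ p) := by
    intro b1 b2 b3 j1 j2 j3
    rw [jacobiSym.neg 2 ho] at j1
    have hn : ∀ b : Bool, sb ℤ (!b) = -sb ℤ b := fun b => by cases b <;> rfl
    rcases Nat.odd_mod_four_iff.1 (Nat.odd_iff.1 ho) with h4 | h4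
    · left
      rw [ZMod.χ₄_nat_one_mod_four h4, one_mul] at j1
      exact B.fr ha hb hc _ _ _ j1
        ((jacobiSym.quadratic_reciprocity_one_mod_four' (a := 3) (by decide) h4).trans j2)
        ((jacobiSym.quadratic_reciprocity_one_mod_four' (a := 7) (by decide) h4).trans j3)
    · right
      rw [ZMod.χ₄_nat_three_mod_four h4] at j1
      exact B.fr ha hb hc _ _ _ (by rw [hn, ← j1]; ring)
        ((jacobiSym.quadratic_reciprocity_three_mod_four (a := 3) rfl h4).trans (by rw [hn, j2]))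
        ((jacobiSym.quadratic_reciprocity_three_mod_four (a := 7) rfl h4).trans (by rw [hn, j3]))
  refine ⟨fun x y j1 j2 j5 e => ?_, fun x y j1 j2 j5 e => ?_, fun x y j5 j1 j2 e => ?_,
    fun x y j2 j1 j5 e => ?_, fun j => ?_⟩
  · refine B.descend hh 30 _ ((M (by simp [j1, j2, j5]) x y).1 ?_ (by rw [e]; norm_num))
    rcases fr false false false j1 j2 j5 with f | f
    · exact Or.inl fun z => by simpa [sgn_id] using f z
    · exact Or.inr fun z => by simpa using f z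
  · refine B.descend hh 30 _ ((M (by simp [j1, j2, j5]) x y).2.1 ?_ (by rw [e]; norm_num))
    rcases fr false true true j1 j2 j5 with f | f
    · exact Or.inr fun z => by simpa [sgn_comp] using f z
    · exact Or.inl f
  · refine B.descend hh 30 _ ((M (by simp [j1, j2, j5]) x y).2.2.1 ?_ (by rw [e]; norm_num))
    rcases fr true true false j1 j2 j5 with f | f
    · exact Or.inl f
    · exact Or.inr fun z => by simpa [sgn_comp] using f z
  · obtain ⟨u, rfl, e'⟩ := even_aux (c := 7) (p := p) (x := x) (y := y) (by rw [e]; norm_num)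
    rw [show 2 * (p : ℤ) - 6 * (2 * u) ^ 2 = 2 * p - 24 * u ^ 2 by ring]
    refine B.descend hh 30 _ ((M (by simp [j1, j2, j5]) u y).2.2.2 ?_ (by rw [e']; norm_num))
    rcases fr true false true j1 j2 j5 with f | f
    · exact Or.inr fun z => by simpa [sgn_comp] using f z
    · exact Or.inl fun z => by simpa [sgn_comp] using f z
  · refine B.descend hh 30 0 ?_
    rw [Int.cast_zero, sub_zero]
    refine fam42.inert B (by exact_mod_cast B.natk n3) hi hh (ev 7 a b c ha hb hc) ?_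
    have := B.euler (-42)
    rw [j] at this
    exact_mod_cast this

end Pool.Agent.Lib.MP_4af24b_nt
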