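import Pool.Agent.Lib.MP_4af24b_nt.Defs

namespace Pool.Agent.Lib.MP_4af24b_nt

open Finset

variable {A : Type*} [CommRing A]

theorem map_T {B : Type*} [CommRing B] (f : A →+* B) (n : ℕ) (b c : A) :
    f (T n b c) = T n (f b) (f c) := by
  simp [T, map_sum]

theorem T_scale (n : ℕ) (e b c : A) : T n (e * b) (e ^ 2 * c) = e ^ n * T n b c := by
  unfold T
  rw [mul_sum]
  refine sum_congr rfl fun j hj => ?_
  have h : 2 * j ≤ n := by have := mem_range.1 hj; omega
  have : e ^ n = e ^ (n - 2 * j) * (e ^ 2) ^ j := by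
    rw [← pow_mul, ← pow_add]; congr 1; omega
  rw [this, mul_pow, mul_pow]; ring

theorem T_zero_right (n : ℕ) (b : A) : T n b 0 = b ^ n := by
  unfold T
  rw [sum_range_succ']
  simp

/-- One-variable operator. -/
def L1 (d : Derivation ℤ A A) (x f : A) : A :=
  (x - x ^ 3) * d (d f) + (1 - 3 * x ^ 2) * d f - x * f

def LL (d1 d2 : Derivation ℤ A A) (x y f : A) : A := L1 d1 x f - L1 d2 y f

def Ga (d1 d2 : Derivation ℤ A A) (x y f g : A) : A :=
  (x - x ^ 3) * d1 f * d1 g - (y - y ^ 3) * d2 f * d2 g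

section
variable (d1 d2 : Derivation ℤ A A) (x y I : A)

theorem L1_add (f g : A) : L1 d1 x (f + g) = L1 d1 x f + L1 d1 x g := by
  simp only [L1, map_add]; ring

theorem L1_const_mul (e f : A) (he : d1 e = 0) : L1 d1 x (e * f) = e * L1 d1 x f := by
  simp only [L1, Derivation.leibniz, he, smul_eq_mul, mul_zero, add_zero]; ring

theorem LL_add (f g : A) : LL d1 d2 x y (f + g) = LL d1 d2 x y f + LL d1 d2 x y g := by
  simp only [LL, L1_add]; ring

theorem LL_sub (f g : A) : LL d1 d2 x y (f - g) = LL d1 d2 x y f - LL d1 d2 x y g := by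
  simp only [LL, L1, map_sub]; ring

theorem LL_const_mul (e f : A) (h1 : d1 e = 0) (h2 : d2 e = 0) :
    LL d1 d2 x y (e * f) = e * LL d1 d2 x y f := by
  simp only [LL, L1_const_mul _ _ _ _ h1, L1_const_mul _ _ _ _ h2]; ring

theorem LL_sum (s : Finset ℕ) (f : ℕ → A) :
    LL d1 d2 x y (∑ i ∈ s, f i) = ∑ i ∈ s, LL d1 d2 x y (f i) := by
  classical
  induction s using Finset.induction_on with
  | empty => simp [LL, L1]
  | insert a s ha ih => rw [sum_insert ha, sum_insert ha, LL_add, ih]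

theorem LL_mul (f g : A) :
    LL d1 d2 x y (I * (f * g)) = f * LL d1 d2 x y (I * g) + g * LL d1 d2 x y (I * f)
      - f * g * LL d1 d2 x y I + 2 * I * Ga d1 d2 x y f g := by
  simp only [LL, L1, Ga, Derivation.leibniz, smul_eq_mul, map_add]; ring

theorem Ga_pow_left (f g : A) (n : ℕ) :
    Ga d1 d2 x y (f ^ n) g = n * f ^ (n - 1) * Ga d1 d2 x y f g := by
  simp only [Ga, Derivation.leibniz_pow, smul_eq_mul, nsmul_eq_mul]; ring

theorem Ga_comm (f g : A) : Ga d1 d2 x y f g = Ga d1 d2 x y g f := by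
  simp only [Ga]; ring

theorem LL_T (b c k : A) (h1 : LL d1 d2 x y I = 0) (hb : LL d1 d2 x y (I * b) = 0)
    (hc : LL d1 d2 x y (I * c) = I * k) (hbb : Ga d1 d2 x y b b = -k)
    (hcc : Ga d1 d2 x y c c = k * c) (hbc : Ga d1 d2 x y b c = 0) (n : ℕ) :
    LL d1 d2 x y (I * T n b c) = 0 := by
  have pb : ∀ i : ℕ, LL d1 d2 x y (I * b ^ i) = -(I * k * (i * (i - 1) : ℕ) * b ^ (i - 2)) := by
    intro i
    induction i with
    | zero => simp [h1]
    | succ i ih =>
      rw [pow_succ, LL_mul, ih, hb, h1, Ga_pow_left, hbb]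
      rcases i with _ | _ | i
      · simp
      · simp; ring
      · simp only [Nat.add_sub_cancel, show i + 1 + 1 - 2 = i by omega,
          show i + 1 + 1 + 1 - 2 = i + 1 by omega]
        push_cast; ring
  have pc : ∀ j : ℕ, LL d1 d2 x y (I * c ^ j) = I * k * (j ^ 2 : ℕ) * c ^ (j - 1) := by
    intro j
    induction j with
    | zero => simp [h1]
    | succ j ih =>
      rw [pow_succ, LL_mul, ih, hc, h1, Ga_pow_left, hcc]
      rcases j with _ | j
      · simp
      · simp only [Nat.add_sub_cancel]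
        push_cast; ring
  have pbc : ∀ i j : ℕ, LL d1 d2 x y (I * (b ^ i * c ^ j)) =
      I * k * ((j ^ 2 : ℕ) * b ^ i * c ^ (j - 1) - (i * (i - 1) : ℕ) * b ^ (i - 2) * c ^ j) := by
    intro i j
    rw [LL_mul, pb, pc, h1, Ga_pow_left, Ga_comm, Ga_pow_left, Ga_comm, hbc]; ring
  let F : ℕ → A := fun j =>
    ((n.choose (2 * j) * (2 * j).choose j * j ^ 2 : ℕ) : A) * b ^ (n - 2 * j) * c ^ (j - 1)
  have key : ∀ j : ℕ, n.choose (2 * (j + 1)) * (2 * (j + 1)).choose (j + 1) * (j + 1) ^ 2 =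
      n.choose (2 * j) * (2 * j).choose j * ((n - 2 * j) * (n - 2 * j - 1)) := by
    intro j
    have e1 := Nat.succ_mul_centralBinom_succ j
    rw [Nat.centralBinom_eq_two_mul_choose, Nat.centralBinom_eq_two_mul_choose] at e1
    have e2 := Nat.choose_succ_right_eq n (2 * j)
    have e3 := Nat.choose_succ_right_eq n (2 * j + 1)
    have : n - (2 * j + 1) = n - 2 * j - 1 := by omega
    rw [this] at e3
    rw [show 2 * (j + 1) = 2 * j + 1 + 1 by ring] at e1 ⊢
    generalize n - 2 * j - 1 = u at *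
    generalize n - 2 * j = v at *
    calc _ = n.choose (2 * j + 1 + 1) * (j + 1) *
          ((j + 1) * (2 * j + 1 + 1).choose (j + 1)) := by ring
      _ = n.choose (2 * j + 1 + 1) * (2 * j + 1 + 1) * (2 * j + 1) * (2 * j).choose j := by
          rw [e1]; ring
      _ = n.choose (2 * j + 1) * (2 * j + 1) * u * (2 * j).choose j := by rw [e3]; ring
      _ = _ := by rw [e2]; ring
  have hterm : ∀ j : ℕ, LL d1 d2 x y (I * ((n.choose (2 * j) : A) * ((2 * j).choose j : A)
      * b ^ (n - 2 * j) * c ^ j)) = I * k * (F j - F (j + 1)) := by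
    intro j
    have : I * ((n.choose (2 * j) : A) * ((2 * j).choose j : A) * b ^ (n - 2 * j) * c ^ j)
        = ((n.choose (2 * j) * (2 * j).choose j : ℕ) : A) * (I * (b ^ (n - 2 * j) * c ^ j)) := by
      push_cast; ring
    rw [this, LL_const_mul _ _ _ _ _ _ (by simp only [Derivation.map_natCast])
      (by simp only [Derivation.map_natCast]), pbc]
    simp only [F]
    rw [key, show n - 2 * (j + 1) = n - 2 * j - 2 by omega, Nat.add_sub_cancel]
    push_cast; ring
  unfold T
  rw [mul_sum, LL_sum]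
  simp only [hterm]
  rw [← mul_sum, sum_range_sub']
  have : F 0 = 0 := by simp [F]
  have h2 : F (n / 2 + 1) = 0 := by
    simp only [F]
    rw [Nat.choose_eq_zero_of_lt (by omega)]; simp
  rw [this, h2]; simp

theorem LL_T_XY (hx1 : d1 x = 1) (hy1 : d1 y = 0) (hx2 : d2 x = 0) (hy2 : d2 y = 1)
    (hI : I * (1 + x * y) = 1) (n : ℕ) :
    LL d1 d2 x y (I * T n ((x + y) * (1 - x * y) * I ^ 2)
      (x * y * (1 - x ^ 2) * (1 - y ^ 2) * I ^ 4)) = 0 := by
  have hI1 : d1 I = -(I ^ 2 * y) := by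
    have := congrArg d1 hI
    simp only [Derivation.leibniz, map_add, Derivation.map_one_eq_zero, hx1, hy1,
      smul_eq_mul] at this
    linear_combination I * this - d1 I * hI
  have hI2 : d2 I = -(I ^ 2 * x) := by
    have := congrArg d2 hI
    simp only [Derivation.leibniz, map_add, Derivation.map_one_eq_zero, hx2, hy2,
      smul_eq_mul] at this
    linear_combination I * this - d2 I * hI
  apply LL_T d1 d2 x y I _ _ ((x - y) * ((x + y) ^ 2 - (1 - x * y) ^ 2) * I ^ 3)
  all_goals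
    simp only [LL, L1, Ga, Derivation.leibniz, Derivation.leibniz_pow, map_add, map_sub, map_neg,
      Derivation.map_one_eq_zero, hx1, hy1, hx2, hy2, hI1, hI2, smul_eq_mul, nsmul_eq_mul,
      Derivation.map_natCast, map_zero]
    push_cast
    grind

end

end Pool.Agent.Lib.MP_4af24b_nt
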